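import Pool.Agent.P.MP_c88051_gt.Tube

/-! The normal rotation attached to a pair of tangent vectors. -/

open Set Real
open scoped ContDiff RealInnerProductSpace

namespace Pool.Agent.P.MP_c88051_gt

abbrev P6 := EuclideanSpace ℝ (Fin 6)

/-- The skew map attached to a bivector. -/
noncomputable def hodge : P6 →L[ℝ] E4 →L[ℝ] E4 :=
  LinearMap.toContinuousLinearMap (LinearMap.toContinuousLinearMap.toLinearMap ∘ₗ
    LinearMap.mk₂ ℝ (fun (p : P6) (a : E4) => (!₂[-p 3 * a 3 + p 4 * a 2 - p 5 * a 1,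
      p 1 * a 3 - p 2 * a 2 + p 5 * a 0, -p 0 * a 3 + p 2 * a 1 - p 4 * a 0,
      p 0 * a 2 - p 1 * a 1 + p 3 * a 0] : E4))
      (by intros; ext i; fin_cases i <;> simp <;> ring)
      (by intros; ext i; fin_cases i <;> simp <;> ring)
      (by intros; ext i; fin_cases i <;> simp <;> ring)
      (by intros; ext i; fin_cases i <;> simp <;> ring))

lemma hodge_apply (p : P6) (a : E4) : hodge p a = !₂[-p 3 * a 3 + p 4 * a 2 - p 5 * a 1,
      p 1 * a 3 - p 2 * a 2 + p 5 * a 0, -p 0 * a 3 + p 2 * a 1 - p 4 * a 0,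
      p 0 * a 2 - p 1 * a 1 + p 3 * a 0] := rfl

lemma inner4 (a b : E4) : ⟪a, b⟫ = a 0 * b 0 + a 1 * b 1 + a 2 * b 2 + a 3 * b 3 := by
  simp [PiLp.inner_apply, Fin.sum_univ_four, mul_comm]

lemma isJ_hodge {p : P6} (h1 : ‖p‖ = 1) (h2 : p 0 * p 5 - p 1 * p 4 + p 2 * p 3 = 0) :
    IsJ (hodge p) := by
  have h3 : p 0 ^ 2 + p 1 ^ 2 + p 2 ^ 2 + p 3 ^ 2 + p 4 ^ 2 + p 5 ^ 2 = 1 := by
    have := EuclideanSpace.real_norm_sq_eq p
    rw [h1, Fin.sum_univ_six] at this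
    linarith
  have skew : ∀ a b, ⟪hodge p a, b⟫ = -⟪a, hodge p b⟫ := fun a b => by
    simp [inner4, hodge_apply]; ring
  have W : ∀ a b c d : E4, ⟪hodge p a, b⟫ * ⟪hodge p c, d⟫ - ⟪hodge p a, c⟫ * ⟪hodge p b, d⟫ +
      ⟪hodge p a, d⟫ * ⟪hodge p b, c⟫ = 0 := fun a b c d => by
    simp only [inner4, hodge_apply, Matrix.cons_val]
    linear_combination ((a 0 * b 1 - a 1 * b 0) * (c 2 * d 3 - c 3 * d 2) -
      (a 0 * b 2 - a 2 * b 0) * (c 1 * d 3 - c 3 * d 1) +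
      (a 0 * b 3 - a 3 * b 0) * (c 1 * d 2 - c 2 * d 1) +
      (a 1 * b 2 - a 2 * b 1) * (c 0 * d 3 - c 3 * d 0) -
      (a 1 * b 3 - a 3 * b 1) * (c 0 * d 2 - c 2 * d 0) +
      (a 2 * b 3 - a 3 * b 2) * (c 0 * d 1 - c 1 * d 0)) * h2
  refine ⟨skew, fun a => ?_, fun n ν hn h4 hν => ?_, ?_⟩
  · ext i
    fin_cases i <;> simp [hodge_apply]
    · linear_combination (p 3 * a 3 - p 4 * a 2 + p 5 * a 1) * h3 -
        (p 0 * a 1 + p 1 * a 2 + p 2 * a 3) * h2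
    · linear_combination (-p 1 * a 3 + p 2 * a 2 - p 5 * a 0) * h3 -
        (-p 0 * a 0 + p 3 * a 2 + p 4 * a 3) * h2
    · linear_combination (p 0 * a 3 - p 2 * a 1 + p 4 * a 0) * h3 -
        (-p 1 * a 0 - p 3 * a 1 + p 5 * a 3) * h2
    · linear_combination (-p 0 * a 2 + p 1 * a 1 - p 3 * a 0) * h3 -
        (-p 2 * a 0 - p 4 * a 1 - p 5 * a 2) * h2
  · generalize hodge p = J at *
    set r := ν - (⟪ν, n⟫ • n + ⟪ν, J n⟫ • J n) with hr
    have nn : ⟪n, n⟫ = 1 := by rw [real_inner_self_eq_norm_sq, h4, one_pow]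
    have nJ : ⟪n, J n⟫ = 0 := by linarith [skew n n, real_inner_comm n (J n)]
    have JJ : ⟪J n, J n⟫ = 1 := by rw [skew, hn, inner_neg_right, neg_neg, nn]
    have e1 : ⟪n, r⟫ = 0 := by
      simp only [hr, inner_sub_right, inner_add_right, real_inner_smul_right, nn, nJ,
        real_inner_comm ν n]; ring
    have e2 : ⟪J n, r⟫ = 0 := by
      simp only [hr, inner_sub_right, inner_add_right, real_inner_smul_right, JJ,
        real_inner_comm n (J n), nJ, real_inner_comm ν (J n)]; ring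
    have e3 : J (J r) = -r := by
      simp only [hr, map_sub, map_add, map_smul, hn, hν, map_neg]; module
    have := W n (J n) r (J r)
    rw [JJ, e2, skew r, e3, skew n, e3, inner_neg_right, inner_neg_right, e1] at this
    exact sub_eq_zero.1 (inner_self_eq_zero (𝕜 := ℝ).1 (by simpa using this))
  · by_contra! h
    have a0 := h !₂[1, 0, 0, 0]
    have a1 := h !₂[0, 1, 0, 0]
    have a2 := h !₂[0, 0, 1, 0]
    have b1 := congrArg (· 1) a0
    have b2 := congrArg (· 2) a0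
    have b3 := congrArg (· 3) a0
    have b4 := congrArg (· 2) a1
    have b5 := congrArg (· 3) a1
    have b6 := congrArg (· 3) a2
    simp [hodge_apply] at b1 b2 b3 b4 b5 b6
    simp [b1, b2, b3, b4, b5, b6] at h3

/-- The bivector of two vectors. -/
noncomputable def pl (a b : E4) : P6 := !₂[a 0 * b 1 - a 1 * b 0, a 0 * b 2 - a 2 * b 0,
  a 0 * b 3 - a 3 * b 0, a 1 * b 2 - a 2 * b 1, a 1 * b 3 - a 3 * b 1, a 2 * b 3 - a 3 * b 2]

/-- The unit bivector of two vectors. -/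
noncomputable def npl (a b : E4) : P6 := ‖pl a b‖⁻¹ • pl a b

/-- Linear independence of three vectors. -/
def Ind (a b c : E4) : Prop := ∀ r s t : ℝ, r • a + s • b + t • c = 0 → r = 0 ∧ s = 0 ∧ t = 0

lemma Ind.pl_ne {a b c : E4} (h : Ind a b c) : pl a b ≠ 0 := by
  intro h0
  have b0 := congrArg (· 0) h0
  have b1 := congrArg (· 1) h0
  have b2 := congrArg (· 2) h0
  have b3 := congrArg (· 3) h0
  have b4 := congrArg (· 4) h0
  have b5 := congrArg (· 5) h0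
  simp [pl] at b0 b1 b2 b3 b4 b5
  have key : ∀ i, a i = 0 := fun i => neg_eq_zero.1 (h (b i) (-a i) 0 (by
    ext j; fin_cases i <;> fin_cases j <;> simp <;> linarith)).2.1
  exact one_ne_zero (h 1 0 0 (by ext j; simp [key])).1

lemma isJ_npl {a b : E4} (h : pl a b ≠ 0) : IsJ (hodge (npl a b)) :=
  isJ_hodge (by rw [npl, norm_smul, norm_inv, norm_norm, inv_mul_cancel₀ (norm_ne_zero_iff.2 h)])
    (by simp only [npl, PiLp.smul_apply, smul_eq_mul]; simp [pl]; ring)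

lemma hodge_npl_eq_zero {a b : E4} (h : pl a b ≠ 0) (c : E4) :
    hodge (npl a b) c = 0 ↔ ∃ w : ℝ × ℝ, w.1 • a + w.2 • b = c := by
  have h1 := norm_ne_zero_iff.2 h
  rw [npl, map_smul, _root_.smul_apply, smul_eq_zero, or_iff_right (inv_ne_zero h1)]
  constructor
  · intro h0
    have h2 : hodge (pl a b) (hodge (pl a b) c) = -(‖pl a b‖ ^ 2 • c) +
        ((⟪c, a⟫ * ⟪b, b⟫ - ⟪c, b⟫ * ⟪a, b⟫) • a + (⟪c, b⟫ * ⟪a, a⟫ - ⟪c, a⟫ * ⟪a, b⟫) • b) := by
      rw [EuclideanSpace.real_norm_sq_eq, Fin.sum_univ_six]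
      simp only [inner4]
      ext i
      fin_cases i <;> simp [hodge_apply, pl] <;> ring
    rw [h0, map_zero, eq_neg_add_iff_add_eq, add_zero] at h2
    refine ⟨((‖pl a b‖ ^ 2)⁻¹ * (⟪c, a⟫ * ⟪b, b⟫ - ⟪c, b⟫ * ⟪a, b⟫),
      (‖pl a b‖ ^ 2)⁻¹ * (⟪c, b⟫ * ⟪a, a⟫ - ⟪c, a⟫ * ⟪a, b⟫)), ?_⟩
    rw [mul_smul, mul_smul, ← smul_add, ← h2, smul_smul, inv_mul_cancel₀ (pow_ne_zero 2 h1), one_smul]
  · rintro ⟨w, rfl⟩
    ext i
    fin_cases i <;> simp [hodge_apply, pl] <;> ring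

lemma Ind.hodge_ne {a b c : E4} (h : Ind a b c) : hodge (npl a b) c ≠ 0 := fun h0 => by
  obtain ⟨w, hw⟩ := (hodge_npl_eq_zero h.pl_ne c).1 h0
  simpa using (h w.1 w.2 (-1) (by rw [hw]; simp)).2.2

lemma npl_smooth {X : Type} [NormedAddCommGroup X] [NormedSpace ℝ X] {a b : X → E4} {x : X}
    (ha : ContDiffAt ℝ ∞ a x) (hb : ContDiffAt ℝ ∞ b x) (h : pl (a x) (b x) ≠ 0) :
    ContDiffAt ℝ ∞ (fun x => npl (a x) (b x)) x := by
  have h1 : ContDiffAt ℝ ∞ (fun x => pl (a x) (b x)) x := by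
    rw [contDiffAt_euclidean] at *
    intro i
    fin_cases i <;> simp only [pl] <;> exact ((ha _).mul (hb _)).sub ((ha _).mul (hb _))
  exact ((h1.norm ℝ h).inv (norm_ne_zero_iff.2 h)).smul h1

/-- Two complex coordinates on four-space. -/
noncomputable def mk : ℂ × ℂ →L[ℝ] E4 :=
  LinearMap.toContinuousLinearMap
    { toFun := fun q => !₂[q.1.re, q.1.im, q.2.re, q.2.im]
      map_add' := by intro x y; ext i; fin_cases i <;> simp
      map_smul' := by intro a y; ext i; fin_cases i <;> simp }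

lemma mk_apply (q : ℂ × ℂ) : mk q = !₂[q.1.re, q.1.im, q.2.re, q.2.im] := rfl

lemma mk_eq_zero {q : ℂ × ℂ} (h : mk q = 0) : q = 0 := by
  have b0 := congrArg (· 0) h
  have b1 := congrArg (· 1) h
  have b2 := congrArg (· 2) h
  have b3 := congrArg (· 3) h
  simp [mk_apply] at b0 b1 b2 b3
  exact Prod.ext (Complex.ext b0 b1) (Complex.ext b2 b3)

/-- The unit bivectors of the two flat regions. -/
noncomputable def p0 : P6 := !₂[1, 0, 0, 0, 0, 0]
noncomputable def p1 : P6 := !₂[0, 0, 0, 0, 0, -1]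

lemma npl_of_eq {a b : E4} {p : P6} {r : ℝ} (hr : 0 < r) (hp : ‖p‖ = 1) (h : pl a b = r • p) :
    npl a b = p := by
  rw [npl, h, norm_smul, hp, mul_one, Real.norm_of_nonneg hr.le, smul_smul,
    inv_mul_cancel₀ hr.ne', one_smul]

lemma npl_zero {a b : ℂ} (h : 0 < a.re * b.im - a.im * b.re) : npl (mk (a, 0)) (mk (b, 0)) = p0 :=
  npl_of_eq h (by simp [p0, EuclideanSpace.norm_eq, Fin.sum_univ_six]) (by
    ext i; fin_cases i <;> simp [pl, p0, mk_apply])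

lemma npl_one {a b : ℂ} (h : 0 < a.im * b.re - a.re * b.im) : npl (mk (0, a)) (mk (0, b)) = p1 :=
  npl_of_eq h (by simp [p1, EuclideanSpace.norm_eq, Fin.sum_univ_six]) (by
    ext i; fin_cases i <;> simp [pl, p1, mk_apply])

lemma hodge_p0 (q : ℂ × ℂ) : hodge p0 (mk q) = mk (0, Complex.I * q.2) := by
  ext i; fin_cases i <;> simp [hodge_apply, p0, mk_apply]

lemma hodge_p1 (q : ℂ × ℂ) : hodge p1 (mk q) = mk (-Complex.I * q.1, 0) := by
  ext i; fin_cases i <;> simp [hodge_apply, p1, mk_apply]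

lemma norm_mk (q : ℂ × ℂ) : ‖mk q‖ = √(‖q.1‖ ^ 2 + ‖q.2‖ ^ 2) := by
  rw [EuclideanSpace.norm_eq, Complex.sq_norm, Complex.sq_norm, Complex.normSq_apply,
    Complex.normSq_apply]
  simp [mk_apply, Fin.sum_univ_four, sq, add_assoc]

lemma th_p0 (q : ℂ × ℂ) (ν : E4) :
    th (hodge p0) (mk q) ν = -Complex.I * ⟨ν 2, ν 3⟩ * (starRingEnd ℂ) q.2 := by
  simp only [th, hodge_p0]
  apply Complex.ext <;> simp [inner4, mk_apply] <;> ring

lemma th_p1 (q : ℂ × ℂ) (ν : E4) :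
    th (hodge p1) (mk q) ν = -Complex.I * ⟨ν 0, -ν 1⟩ * q.1 := by
  simp only [th, hodge_p1]
  apply Complex.ext <;> simp [inner4, mk_apply] <;> ring

lemma nrm_p0 (a : ℂ) {b u : ℂ} {r : ℝ} (hr : 0 < r) (hu : ‖u‖ = 1) (h : Complex.I * b = r * u) :
    nrm (hodge p0) (mk (a, b)) = mk (0, u) := by
  rw [nrm, hodge_p0, h, norm_mk, ← map_smul]
  simp [hu, hr.ne', abs_of_pos hr, sqrt_sq hr.le]

lemma nrm_p1 (b : ℂ) {a u : ℂ} {r : ℝ} (hr : 0 < r) (hu : ‖u‖ = 1) (h : -Complex.I * a = r * u) :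
    nrm (hodge p1) (mk (a, b)) = mk (u, 0) := by
  rw [nrm, hodge_p1, h, norm_mk, ← map_smul]
  simp [hu, hr.ne', abs_of_pos hr, sqrt_sq hr.le]

lemma rt_p0 (θ : ℝ) (u : ℂ) :
    rt (hodge p0) θ (mk (0, u)) = mk (0, Complex.exp (θ * Complex.I) * u) := by
  rw [rt, hodge_p0]
  ext i; fin_cases i <;> simp [mk_apply, Complex.exp_ofReal_mul_I_re, Complex.exp_ofReal_mul_I_im] <;>
    ring

lemma rt_p1 (θ : ℝ) (u : ℂ) :
    rt (hodge p1) θ (mk (Complex.exp (θ * Complex.I) * u, 0)) = mk (u, 0) := by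
  rw [rt, hodge_p1]
  ext i; fin_cases i <;> simp [mk_apply, Complex.exp_ofReal_mul_I_re, Complex.exp_ofReal_mul_I_im]
  · linear_combination u.re * cos_sq_add_sin_sq θ
  · linear_combination u.im * cos_sq_add_sin_sq θ

end Pool.Agent.P.MP_c88051_gt
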