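import Pool.Agent.Lib.Helper83.Coc

/-! First homology of open subsets of circle bundles. -/

open Set Filter Topology Real

namespace Pool.Agent.P.MP_c88051_gt

open Pool.Agent.Lib.Helper83

variable {R : Type} [CommRing R] {A : Type} [AddCommGroup A] [Module R A]
  {T S : Type} [TopologicalSpace T] [TopologicalSpace S]

/-- Freely homotopic loops have the same period. -/
lemma loop_htpy {ω : Ch R T →ₗ[R] A} {W : Set T} (hω : IsCoc ω W) {Γ : ℝ × ℝ → T}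
    (hΓ : ContinuousOn Γ (Icc 0 1 ×ˢ Icc 0 1)) (mΓ : MapsTo Γ (Icc 0 1 ×ˢ Icc 0 1) W)
    (hl : ∀ u ∈ Icc (0 : ℝ) 1, Γ (0, u) = Γ (1, u)) :
    ω (edge R fun t => Γ (t, 0)) = ω (edge R fun t => Γ (t, 1)) := by
  obtain ⟨ψ, hψ⟩ := (hω.pull hΓ mΓ).pot_convex ((convex_Icc _ _).prod (convex_Icc _ _))
  have h1 := hψ.edge' (γ := fun t => (t, 0)) (by fun_prop) fun t ht => ⟨ht, by simp⟩
  have h2 := hψ.edge' (γ := fun t => (t, 1)) (by fun_prop) fun t ht => ⟨ht, by simp⟩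
  have h3 := hψ.edge' (γ := fun t => (0, t)) (by fun_prop) fun t ht => ⟨by simp, ht⟩
  have h4 := hψ.edge' (γ := fun t => (1, t)) (by fun_prop) fun t ht => ⟨by simp, ht⟩
  rw [edge_congr hl, h4] at h3
  rw [h1, h2]
  linear_combination (norm := abel) -h3

/-- `N` contracts to a point within itself. -/
def Contr (N : Set S) : Prop := ∃ x₀ ∈ N, ∃ h : S × ℝ → S, ContinuousOn h (N ×ˢ Icc 0 1) ∧
  MapsTo h (N ×ˢ Icc 0 1) N ∧ (∀ x ∈ N, h (x, 0) = x) ∧ ∀ x ∈ N, h (x, 1) = x₀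

/-- Every point has small contractible open neighbourhoods. -/
def LocC (S : Type) [TopologicalSpace S] : Prop :=
  ∀ x₀ : S, ∀ N₀ ∈ 𝓝 x₀, ∃ N, IsOpen N ∧ x₀ ∈ N ∧ N ⊆ N₀ ∧ Contr N

lemma joined_of {F : Set T} {γ : ℝ → T} (h : ContinuousOn γ (Icc 0 1)) (m : MapsTo γ (Icc 0 1) F) :
    JoinedIn F (γ 0) (γ 1) := JoinedIn.ofLine h rfl rfl m.image_subset

lemma Contr.joined {N : Set S} (h : Contr N) {s : S → T} (cs : ContinuousOn s N) {F : Set T}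
    (ms : MapsTo s N F) {x x' : S} (hx : x ∈ N) (hx' : x' ∈ N) : JoinedIn F (s x) (s x') := by
  obtain ⟨x₀, -, h, h1, h2, h3, h4⟩ := h
  have key : ∀ x ∈ N, JoinedIn F (s x) (s x₀) := fun x hx => by
    have := joined_of (F := F) (γ := fun t => s (h (x, t)))
      (cs.comp (h1.comp (by fun_prop) fun t ht => ⟨hx, ht⟩) fun t ht => h2 ⟨hx, ht⟩)
      fun t ht => ms (h2 ⟨hx, ht⟩)
    simpa [h3 x hx, h4 x hx] using this
  exact (key x hx).trans (key x' hx').symm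

/-- A map with a circle action along its fibres. -/
structure CB (T S : Type) [TopologicalSpace T] [TopologicalSpace S] where
  p : T → S
  rot : ℝ → T → T
  cp : Continuous p
  crot : Continuous fun q : ℝ × T => rot q.1 q.2
  p_rot : ∀ θ y, p (rot θ y) = p y
  rot_zero : ∀ y, rot 0 y = y
  rot_add : ∀ a b y, rot a (rot b y) = rot (a + b) y
  rot_per : ∀ y, rot (2 * π) y = y

namespace CB

variable (B : CB T S)

/-- An angular coordinate over `N`. -/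
structure Ang (N : Set S) (Θ : T → ℂ) : Prop where
  cont : ContinuousOn Θ (B.p ⁻¹' N)
  ne : ∀ y, B.p y ∈ N → Θ y ≠ 0
  rot : ∀ (θ : ℝ) y, Θ (B.rot θ y) = Complex.exp (θ * Complex.I) * Θ y

/-- A trivialisation over `N`. -/
structure Frame (N : Set S) where
  s : S → T
  Θ : T → ℂ
  ang : B.Ang N Θ
  cs : ContinuousOn s N
  ps : ∀ x ∈ N, B.p (s x) = x
  eq : ∀ y, B.p y ∈ N → B.rot (Complex.arg (Θ y)) (s (B.p y)) = y

/-- The fibre through `y` as a loop. -/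
noncomputable def loop (R : Type) [CommRing R] (y : T) : Ch R T := edge R fun t => B.rot (2 * π * t) y

@[fun_prop] lemma rot_cont {X : Type} [TopologicalSpace X] {f : X → ℝ} {g : X → T} {s : Set X}
    (hf : ContinuousOn f s) (hg : ContinuousOn g s) : ContinuousOn (fun x => B.rot (f x) (g x)) s :=
  B.crot.comp_continuousOn (hf.prodMk hg)

lemma rot_per' (θ : ℝ) (y : T) : B.rot (θ + 2 * π) y = B.rot θ y := by
  rw [← B.rot_add, B.rot_per]

lemma loop_mem (y : T) : B.loop R y ∈ sub R univ 2 := edge_mem (mapsTo_univ _ _)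

lemma bd_loop (y : T) : bd (B.loop R y) = 0 := by
  rw [loop, bd_edge (by fun_prop)]; simp [B.rot_per, B.rot_zero]

lemma loop_rot {g : S → T} {ω : Ch R T →ₗ[R] A} {K : Set (S × ℝ)} {ψ : S × ℝ → A}
    (h : IsPot (ω ∘ₗ push fun q : S × ℝ => B.rot q.2 (g q.1)) K ψ) {x : S}
    (hx : ∀ θ, (x, θ) ∈ K) (θ : ℝ) :
    ω (B.loop R (B.rot θ (g x))) = ψ (x, θ + 2 * π) - ψ (x, θ) := by
  have := h.edge' (γ := fun t => (x, θ + 2 * π * t)) (by fun_prop) fun t _ => hx _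
  simp only [mul_one, mul_zero, add_zero] at this
  rw [← this, loop]
  simp only [B.rot_add, add_comm]

lemma loop_eq {ω : Ch R T →ₗ[R] A} {W : Set T} (hω : IsCoc ω W) {N : Set S} (hN : B.p ⁻¹' N ⊆ W)
    {y y' : T} (j : JoinedIn (B.p ⁻¹' N) y y') : ω (B.loop R y) = ω (B.loop R y') := by
  obtain ⟨γ, hγ⟩ := j
  have c := γ.continuous_extend
  have := loop_htpy hω (Γ := fun q => B.rot (2 * π * q.1) (γ.extend q.2)) (by fun_prop)
    (fun q hq => hN (by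
      rw [mem_preimage, B.p_rot, γ.extend_apply hq.2]; exact hγ _))
    (fun u _ => by simp [B.rot_zero, B.rot_per])
  simpa [loop] using this

/-- Twisting a loop once around the fibre. -/
lemma twist {ω : Ch R T →ₗ[R] A} (hω : IsCoc ω univ) {m : A} (hm : ∀ y, ω (B.loop R y) = m)
    {β : ℝ → T} (hβ : ContinuousOn β (Icc 0 1)) (h01 : β 0 = β 1) {θ : ℝ → ℝ}
    (hθ : ContinuousOn θ (Icc 0 1)) (h1 : θ 1 = θ 0 + 2 * π) :
    ω (edge R fun t => B.rot (θ t) (β t)) = ω (edge R β) + m := by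
  obtain ⟨ψ, hψ⟩ := (hω.pull (g := fun q : ℝ × ℝ => B.rot q.2 (β q.1)) (T := Icc 0 1 ×ˢ univ)
    (B.rot_cont continuousOn_snd (hβ.comp continuousOn_fst fun _ h => h.1))
    (mapsTo_univ _ _)).pot_convex ((convex_Icc _ _).prod convex_univ)
  have e1 := hψ.edge' (γ := fun t => (t, θ t)) (by fun_prop) fun t ht => ⟨ht, trivial⟩
  have e2 := hψ.edge' (γ := fun t => (t, 0)) (by fun_prop) fun t ht => ⟨ht, trivial⟩
  have e3 := hψ.edge' (γ := fun t => (0, t * θ 1)) (by fun_prop) fun t ht => ⟨by simp, trivial⟩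
  have e4 := hψ.edge' (γ := fun t => (1, t * θ 1)) (by fun_prop) fun t ht => ⟨by simp, trivial⟩
  have e5 := hψ.edge' (γ := fun t => (0, θ 0 + 2 * π * t)) (by fun_prop)
    fun t ht => ⟨by simp, trivial⟩
  have e6 := hm (B.rot (θ 0) (β 0))
  simp only [loop, B.rot_add, add_comm _ (θ 0)] at e6
  simp only [B.rot_zero, one_mul, zero_mul, mul_one, mul_zero, add_zero] at e2 e3 e4 e5
  rw [← h01, e3] at e4
  rw [e6, ← h1] at e5
  rw [e1, e2, e5]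
  linear_combination (norm := abel) -e4

variable {B}

lemma Frame.joined {N : Set S} (F : B.Frame N) {y : T} (hy : B.p y ∈ N) {W : Set T}
    (hW : ∀ t ∈ Icc (0 : ℝ) 1, B.rot (t * Complex.arg (F.Θ y)) (F.s (B.p y)) ∈ W) :
    JoinedIn W (F.s (B.p y)) y := by
  have := joined_of (F := W) (γ := fun t => B.rot (t * Complex.arg (F.Θ y)) (F.s (B.p y)))
    (by fun_prop) hW
  simpa [B.rot_zero, F.eq y hy] using this

lemma joined_over (hS : LocC S) (hF : ∀ x, ∃ N ∈ 𝓝 x, Nonempty (B.Frame N)) {N : Set S}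
    (oN : IsOpen N) (cN : IsPreconnected N) {y y' : T} (hy : B.p y ∈ N) (hy' : B.p y' ∈ N) :
    JoinedIn (B.p ⁻¹' N) y y' := by
  refine cN.induction₂' (fun x x' => ∀ y y', B.p y = x → B.p y' = x' → JoinedIn (B.p ⁻¹' N) y y')
    (fun x hx => ?_) ?_ hy hy' y y' rfl rfl
  · obtain ⟨N₀, h0, ⟨F⟩⟩ := hF x
    obtain ⟨N₁, h1, h2, h3, h4⟩ := hS x _ (inter_mem h0 (oN.mem_nhds hx))
    have j1 : ∀ y, B.p y ∈ N₁ → JoinedIn (B.p ⁻¹' N) (F.s (B.p y)) y := fun y hy =>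
      F.joined (h3 hy).1 fun t _ => by
        rw [mem_preimage, B.p_rot, F.ps _ (h3 hy).1]; exact (h3 hy).2
    have j2 : ∀ y y', B.p y ∈ N₁ → B.p y' ∈ N₁ → JoinedIn (B.p ⁻¹' N) y y' := fun y y' hy hy' =>
      (j1 y hy).symm.trans ((h4.joined (F.cs.mono fun _ h => (h3 h).1) (fun x hx => by
        rw [mem_preimage, F.ps _ (h3 hx).1]; exact (h3 hx).2) hy hy').trans (j1 y' hy'))
    filter_upwards [mem_nhdsWithin_of_mem_nhds (h1.mem_nhds h2)] with x' hx'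
    exact ⟨fun y y' e e' => j2 y y' (e ▸ h2) (e' ▸ hx'), fun y y' e e' => j2 y y' (e ▸ hx') (e' ▸ h2)⟩
  · intro a b c _ _ _ h h' y y' e e'
    obtain ⟨N₀, h0, ⟨F⟩⟩ := hF b
    have := F.ps b (mem_of_mem_nhds h0)
    exact (h y _ e this).trans (h' _ y' this e')

/-- The trace of `U` on each fibre is star-shaped with respect to the section. -/
def Frame.Star {N : Set S} (F : B.Frame N) (U : Set T) : Prop := ∀ x ∈ N, ∀ θ ∈ Icc (-π) π,
  (θ = 0 ∨ B.rot θ (F.s x) ∈ U) → ∀ t ∈ Icc (0 : ℝ) 1, B.rot (t * θ) (F.s x) ∈ U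

lemma Frame.Star.sec {N : Set S} {F : B.Frame N} {U : Set T} (h : F.Star U) {x : S} (hx : x ∈ N) :
    F.s x ∈ U := by
  simpa [B.rot_zero] using h x hx 0 ⟨by linarith [pi_pos], pi_pos.le⟩ (Or.inl rfl) 0 (by simp)

lemma Frame.Star.arg {N : Set S} {F : B.Frame N} {U : Set T} (h : F.Star U) {y : T}
    (hy : y ∈ U) (hN : B.p y ∈ N) :
    ∀ t ∈ Icc (0 : ℝ) 1, B.rot (t * Complex.arg (F.Θ y)) (F.s (B.p y)) ∈ U :=
  h _ hN _ ⟨(Complex.arg_mem_Ioc _).1.le, (Complex.arg_mem_Ioc _).2⟩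
    (Or.inr (by rwa [F.eq y hN]))

lemma Frame.Star.full {N : Set S} {F : B.Frame N} {U : Set T} (h : F.Star U) {x : S} (hx : x ∈ N)
    (hπ : B.rot π (F.s x) ∈ U) (θ : ℝ) : B.rot θ (F.s x) ∈ U := by
  have h1 : B.p (B.rot θ (F.s x)) = x := by rw [B.p_rot, F.ps x hx]
  have h2 := F.eq (B.rot θ (F.s x)) (by rwa [h1])
  rw [h1] at h2
  rw [← h2]
  have h3 := Complex.arg_mem_Ioc (F.Θ (B.rot θ (F.s x)))
  generalize Complex.arg _ = a at h3
  have := pi_pos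
  rcases le_total 0 a with ha | ha
  · have := h x hx π ⟨by linarith, le_rfl⟩ (Or.inr hπ) (a / π)
      ⟨by positivity, (div_le_one this).2 h3.2⟩
    rwa [div_mul_cancel₀ _ pi_ne_zero] at this
  · have := h x hx (-π) ⟨le_rfl, by linarith⟩ (Or.inr (by
      rw [← B.rot_per', show -π + 2 * π = π by ring]; exact hπ)) (-a / π)
      ⟨div_nonneg (by linarith) this.le, (div_le_one this).2 (by linarith [h3.1])⟩
    rwa [show -a / π * -π = a by field_simp] at this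

lemma Frame.Star.joined {N₀ : Set S} {F : B.Frame N₀} {U : Set T} (h : F.Star U) {N : Set S}
    (hN : N ⊆ N₀) (cN : Contr N) {y y' : T} (hy : y ∈ U ∩ B.p ⁻¹' N) (hy' : y' ∈ U ∩ B.p ⁻¹' N) :
    JoinedIn (U ∩ B.p ⁻¹' N) y y' := by
  have j1 : ∀ y ∈ U ∩ B.p ⁻¹' N, JoinedIn (U ∩ B.p ⁻¹' N) (F.s (B.p y)) y := fun y hy =>
    F.joined (hN hy.2) fun t ht => ⟨h.arg hy.1 (hN hy.2) t ht, by
      rw [mem_preimage, B.p_rot, F.ps _ (hN hy.2)]; exact hy.2⟩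
  exact (j1 y hy).symm.trans ((cN.joined (F.cs.mono hN) (fun x hx => mem_inter (h.sec (hN hx)) (by
    rw [mem_preimage, F.ps _ (hN hx)]; exact hx)) hy.2 hy'.2).trans (j1 y' hy'))

variable [Nonempty T] [Nonempty S]

lemma Frame.Star.pot {N₀ : Set S} {F : B.Frame N₀} {U : Set T} (oU : IsOpen U) (h : F.Star U)
    {N : Set S} (hN : N ⊆ N₀) (oN : IsOpen N) (cN : Contr N) {ω : Ch R T →ₗ[R] A}
    (hω : IsCoc ω U) (h0 : ∀ y, (∀ θ, B.rot θ y ∈ U) → ω (B.loop R y) = 0) :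
    ∃ φ, IsPot ω (U ∩ B.p ⁻¹' N) φ := by
  let K : Set (S × ℝ) := {q | q.1 ∈ N ∧ ∀ t ∈ Icc (0 : ℝ) 1, B.rot (t * q.2) (F.s q.1) ∈ U}
  have cg : ContinuousOn (fun q : S × ℝ => B.rot q.2 (F.s q.1)) K :=
    B.rot_cont continuousOn_snd (F.cs.comp continuousOn_fst fun _ hq => hN hq.1)
  have hK := hω.pull cg fun q hq => by simpa using hq.2 1 (by simp)
  have K0 : ∀ x ∈ N, (x, (0 : ℝ)) ∈ K := fun x hx =>
    ⟨hx, fun t _ => by simpa [B.rot_zero] using h.sec (hN hx)⟩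
  obtain ⟨x₀, hx₀, c, c1, c2, c3, c4⟩ := cN
  obtain ⟨ψ₀, hψ₀⟩ := (hK.mono (S' := N ×ˢ {0}) fun q hq => by
      rw [show q = (q.1, 0) from Prod.ext rfl hq.2]; exact K0 _ hq.1).pot_deform
    (H := fun q => (c (q.1.1, q.2), 0)) (S' := {(x₀, 0)})
    ((c1.comp (by fun_prop) fun q hq => ⟨hq.1.1, hq.2⟩).prodMk continuousOn_const)
    (fun q hq => ⟨c2 ⟨hq.1.1, hq.2⟩, rfl⟩) (fun q hq => Prod.ext (c3 _ hq.1) hq.2.symm)
    (fun q hq => Prod.ext (c4 _ hq.1) rfl) (hK.pot_point (K0 _ hx₀))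
  obtain ⟨ψ, hψ⟩ := hK.pot_deform (H := fun q => (q.1.1, (1 - q.2) * q.1.2)) (by fun_prop)
    (fun q hq => ⟨hq.1.1, fun t ht => by
      rw [← mul_assoc]
      exact hq.1.2 _ ⟨mul_nonneg ht.1 (sub_nonneg.2 hq.2.2),
        mul_le_one₀ ht.2 (sub_nonneg.2 hq.2.2) (by linarith [hq.2.1])⟩⟩)
    (by simp) (fun q hq => mk_mem_prod hq.1 (by simp)) hψ₀
  have cΘ : ∀ y, B.p y ∈ N → ContinuousAt F.Θ y := fun y hy =>
    F.ang.cont.continuousAt (mem_of_superset ((oN.preimage B.cp).mem_nhds hy) fun _ h => hN h)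
  refine ⟨fun y => ψ (B.p y, Complex.arg (F.Θ y)), (hω.mono inter_subset_left).of_local
    fun y₀ hy₀ => ?_⟩
  by_cases hs : F.Θ y₀ ∈ Complex.slitPlane
  · obtain ⟨O, h1, h2, h3⟩ := mem_nhds_iff.1
      ((cΘ y₀ hy₀.2).preimage_mem_nhds (Complex.isOpen_slitPlane.mem_nhds hs))
    refine ⟨O, h2, h3, hψ.of_pull (j := fun y => (B.p y, Complex.arg (F.Θ y))) (fun y hy => ?_)
      (fun y hy => ⟨hy.1.2, h.arg hy.1.1 (hN hy.1.2)⟩) fun y hy => F.eq y (hN hy.1.2)⟩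
    exact (B.cp.continuousAt.prodMk ((Complex.continuousAt_arg (h1 hy.2)).comp
      (cΘ y hy.1.2))).continuousWithinAt
  · have hπ : Complex.arg (F.Θ y₀) = π := by
      by_contra hne
      exact hs (Complex.mem_slitPlane_iff_arg.2 ⟨hne, F.ang.ne _ (hN hy₀.2)⟩)
    have c5 : ContinuousAt (fun y => B.rot π (F.s (B.p y))) y₀ :=
      B.crot.continuousAt.comp (continuousAt_const.prodMk ((F.cs.continuousAt
        (mem_of_superset (oN.mem_nhds hy₀.2) hN)).comp B.cp.continuousAt))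
    obtain ⟨O, h1, h2, h3⟩ := mem_nhds_iff.1 (inter_mem
      ((cΘ y₀ hy₀.2).neg.preimage_mem_nhds (Complex.isOpen_slitPlane.mem_nhds (Or.inl (by
        simpa using (Complex.arg_eq_pi_iff.1 hπ).1))))
      (c5.preimage_mem_nhds (oU.mem_nhds (by rw [← hπ, F.eq _ (hN hy₀.2)]; exact hy₀.1))))
    have full : ∀ y ∈ U ∩ B.p ⁻¹' N ∩ O, ∀ θ, (B.p y, θ) ∈ K := fun y hy θ =>
      ⟨hy.1.2, fun t _ => h.full (hN hy.1.2) (h1 hy.2).2 _⟩
    have alt : ∀ y ∈ U ∩ B.p ⁻¹' N ∩ O, π + Complex.arg (-F.Θ y) = Complex.arg (F.Θ y) ∨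
        π + Complex.arg (-F.Θ y) = Complex.arg (F.Θ y) + 2 * π := fun y hy => by
      rcases lt_trichotomy (F.Θ y).im 0 with hi | hi | hi
      · right; rw [Complex.arg_neg_eq_arg_add_pi_of_im_neg hi]; ring
      · left
        have hr : (F.Θ y).re < 0 := by
          rcases (h1 hy.2).1 with h | h
          · simpa using h
          · simp [hi] at h
        rw [Complex.arg_eq_pi_iff.2 ⟨hr, hi⟩, Complex.arg_eq_zero_iff.2
          ⟨by simpa using hr.le, by simpa using hi⟩, add_zero]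
      · left; rw [Complex.arg_neg_eq_arg_sub_pi_of_im_pos hi]; ring
    refine ⟨O, h2, h3, (hψ.of_pull (j := fun y => (B.p y, π + Complex.arg (-F.Θ y)))
      (fun y hy => ?_) (fun y hy => full y hy _) fun y hy => ?_).congr 0 fun y hy => ?_⟩
    · exact (B.cp.continuousAt.prodMk (continuousAt_const.add
        ((Complex.continuousAt_arg (h1 hy.2).1).comp (cΘ y hy.1.2).neg))).continuousWithinAt
    · rcases alt y hy with e | e
      · simp only [e, F.eq y (hN hy.1.2)]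
      · simp only [e, B.rot_per', F.eq y (hN hy.1.2)]
    · rcases alt y hy with e | e
      · simp [e]
      · have := B.loop_rot hψ (full y hy) (Complex.arg (F.Θ y))
        rw [h0 _ fun θ => by rw [B.rot_add]; exact h.full (hN hy.1.2) (h1 hy.2).2 _] at this
        simp only [e, Function.comp_apply, add_zero]
        exact (sub_eq_zero.1 this.symm).symm

/-- Injectivity in degree one for an open set with star-shaped fibres. -/
theorem inj_one (hS : LocC S) (hF : ∀ x, ∃ N ∈ 𝓝 x, Nonempty (B.Frame N)) {U : Set T}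
    (oU : IsOpen U) (hst : ∀ y ∈ U, ∃ N ∈ 𝓝 (B.p y), ∃ F : B.Frame N, F.Star U) {N₁ : Set S}
    (o₁ : IsOpen N₁) (c₁ : IsPreconnected N₁) (h₁ : ∀ y, B.p y ∈ N₁ ↔ ∀ θ, B.rot θ y ∈ U)
    {c₂ : Ch R T →ₗ[R] R} (hc₂ : IsCoc c₂ univ) (hc₂' : ∀ y, c₂ (B.loop R y) = 1)
    (hB : ∀ z ∈ sub R (B.p '' U) 2, z ∈ Bd R univ 2 → z ∈ Bd R (B.p '' U) 2)
    {z : Ch R T} (hz : z ∈ sub R U 2) (hb : z ∈ Bd R univ 2) : z ∈ Bd R U 2 := by
  classical
  rcases U.eq_empty_or_nonempty with rfl | ⟨y₁, hy₁⟩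
  · rw [sub_empty hz]; exact zero_mem _
  have hω : IsCoc (Bd R U 2).mkQ U := fun e he =>
    (Submodule.Quotient.mk_eq_zero _).2 (bd_mem_Bd he)
  obtain ⟨m, hm⟩ : ∃ m, ∀ y, (∀ θ, B.rot θ y ∈ U) → (Bd R U 2).mkQ (B.loop R y) = m := by
    by_cases h : ∃ y, B.p y ∈ N₁
    · obtain ⟨y, hy⟩ := h
      exact ⟨_, fun y' hy' => B.loop_eq hω (fun y hy => by
        simpa [B.rot_zero] using (h₁ y).1 hy 0) (joined_over hS hF o₁ c₁ ((h₁ _).2 hy') hy)⟩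
    · exact ⟨0, fun y hy => (h ⟨y, (h₁ y).2 hy⟩).elim⟩
  have hω' : IsCoc ((Bd R U 2).mkQ - c₂.smulRight m) U := hω.sub fun e he => by
    simp [hc₂ e (sub_mono (subset_univ _) he)]
  have key : ∀ x ∈ B.p '' U, ∀ N₀ ∈ 𝓝 x, ∃ N, IsOpen N ∧ x ∈ N ∧ N ⊆ N₀ ∧
      (∀ y ∈ U ∩ B.p ⁻¹' N, ∀ y' ∈ U ∩ B.p ⁻¹' N, JoinedIn (U ∩ B.p ⁻¹' N) y y') ∧
      ∃ φ, IsPot ((Bd R U 2).mkQ - c₂.smulRight m) (U ∩ B.p ⁻¹' N) φ := by
    rintro _ ⟨y, hy, rfl⟩ N₀ h0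
    obtain ⟨N', h1, F, h2⟩ := hst y hy
    obtain ⟨N, h3, h4, h5, h6⟩ := hS _ _ (inter_mem h0 h1)
    exact ⟨N, h3, h4, fun _ h => (h5 h).1, fun _ a _ b => h2.joined (fun _ h => (h5 h).2) h6 a b,
      h2.pot oU (fun _ h => (h5 h).2) h3 h6 hω' fun y hy => by simp [hm y hy, hc₂']⟩
  generalize hω₁ : (Bd R U 2).mkQ - c₂.smulRight m = ω at *
  choose N n1 n2 n3 n4 φ hφ using fun x : B.p '' U => key x x.2 univ univ_mem
  let r : S → T := fun x => if h : x ∈ B.p '' U then h.choose else y₁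
  have hr : ∀ x ∈ B.p '' U, r x ∈ U ∧ B.p (r x) = x := fun x hx => by
    simp only [r, dif_pos hx]; exact hx.choose_spec
  have cmp : ∀ i j, ∀ x ∈ B.p '' U ∩ N i ∩ N j, ∃ N', IsOpen N' ∧ x ∈ N' ∧
      ∀ y ∈ U ∩ B.p ⁻¹' N', ∀ y' ∈ U ∩ B.p ⁻¹' N', φ i y' - φ i y = φ j y' - φ j y := by
    intro i j x hx
    obtain ⟨N', h1, h2, h3, h4, -⟩ := key x hx.1.1 _
      (inter_mem ((n1 i).mem_nhds hx.1.2) ((n1 j).mem_nhds hx.2))
    exact ⟨N', h1, h2, fun y hy y' hy' => ((hφ i).mono fun _ h => ⟨h.1, (h3 h.2).1⟩).unique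
      ((hφ j).mono fun _ h => ⟨h.1, (h3 h.2).2⟩) (h4 y hy y' hy')⟩
  have : Nonempty (B.p '' U) := ⟨⟨_, y₁, hy₁, rfl⟩⟩
  obtain ⟨η, η1, η2⟩ := exists_coc (R := R) n1 (fun x hx => mem_iUnion.2 ⟨⟨x, hx⟩, n2 _⟩)
    (fun i => φ i ∘ r) fun i j x hx => by
      obtain ⟨N', h1, h2, h3⟩ := cmp i j x hx
      filter_upwards [mem_nhdsWithin_of_mem_nhds (h1.mem_nhds h2), self_mem_nhdsWithin]
        with x' h4 h5
      have := h3 (r x) ⟨(hr x hx.1.1).1, by rwa [mem_preimage, (hr x hx.1.1).2]⟩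
        (r x') ⟨(hr x' h5).1, by rwa [mem_preimage, (hr x' h5).2]⟩
      simp only [Function.comp_apply]
      linear_combination (norm := abel) this
  have hp : IsPot (ω - η ∘ₗ push B.p) U fun y =>
      if h : y ∈ U then φ ⟨_, y, h, rfl⟩ y - φ ⟨_, y, h, rfl⟩ (r (B.p y)) else 0 := by
    refine (hω'.sub (η1.pull B.cp.continuousOn (mapsTo_image _ _))).of_local fun y₀ hy₀ => ?_
    refine ⟨B.p ⁻¹' N ⟨_, y₀, hy₀, rfl⟩, (n1 _).preimage B.cp, n2 _, ((hφ _).sub ((η2 _).pull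
      B.cp.continuousOn fun y hy => ⟨⟨y, hy.1, rfl⟩, hy.2⟩)).congr 0 fun y hy => ?_⟩
    obtain ⟨N', -, h2, h3⟩ := cmp ⟨_, y, hy.1, rfl⟩ ⟨_, y₀, hy₀, rfl⟩ (B.p y)
      ⟨⟨⟨y, hy.1, rfl⟩, n2 _⟩, hy.2⟩
    have h4 := hr _ ⟨y, hy.1, rfl⟩
    rw [dif_pos hy.1, h3 _ ⟨h4.1, by rwa [mem_preimage, h4.2]⟩ y ⟨hy.1, h2⟩]
    simp
  have h2 := hp z hz
  obtain ⟨e, he, rfl⟩ := hb
  rw [bd_bd, map_zero, LinearMap.sub_apply, LinearMap.comp_apply, η1.of_Bd (hB _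
    (push_mem (mapsTo_image _ _) hz) (push_Bd B.cp.continuousOn (mapsTo_univ _ _)
    (bd_mem_Bd he))), sub_zero, ← hω₁] at h2
  simpa [hc₂ e he] using h2

end CB

end Pool.Agent.P.MP_c88051_gt
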