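import Pool.Agent.P.MP_c88051_gt.Bundle
import Pool.Agent.Lib.Helper83.Dual

/-! Subsets of a normed space given by explicit charts with smooth left inverses. -/

open Set Topology Filter
open scoped Manifold ContDiff

namespace Pool.Agent.P.MP_c88051_gt

open Pool.Agent.Lib.Helper83

/-- A smooth parametrisation of the part of `S` inside the open set `O`, with a smooth inverse
defined on `O`. -/
structure Chart (P : Type) [NormedAddCommGroup P] [NormedSpace ℝ P] {E : Type}
    [NormedAddCommGroup E] [NormedSpace ℝ E] (S : Set E) where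
  W : Set P
  O : Set E
  ψ : P → E
  ρ : E → P
  oW : IsOpen W
  oO : IsOpen O
  sψ : ContDiffOn ℝ ∞ ψ W
  sρ : ContDiffOn ℝ ∞ ρ O
  mem : ∀ w ∈ W, ψ w ∈ S ∧ ψ w ∈ O ∧ ρ (ψ w) = w
  inv : ∀ x ∈ S, x ∈ O → ρ x ∈ W ∧ ψ (ρ x) = x

variable {P E : Type} [NormedAddCommGroup P] [NormedSpace ℝ P] [NormedAddCommGroup E]
  [NormedSpace ℝ E] {S : Set E}

namespace Chart

variable (C : Chart P S) (x₀ : S)

open Classical in
/-- The parametrisation as a map to the subtype. -/
noncomputable def par (w : P) : S := if h : C.ψ w ∈ S then ⟨C.ψ w, h⟩ else x₀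

lemma par_val {w : P} (hw : w ∈ C.W) : (C.par x₀ w : E) = C.ψ w := by
  simp [par, (C.mem w hw).1]

/-- The chart as an open homeomorphism onto `W`. -/
noncomputable def e : OpenPartialHomeomorph S P where
  toFun x := C.ρ x
  invFun := C.par x₀
  source := Subtype.val ⁻¹' C.O
  target := C.W
  map_source' x hx := (C.inv x x.2 hx).1
  map_target' w hw := by
    simp only [mem_preimage, C.par_val x₀ hw]; exact (C.mem w hw).2.1
  left_inv' x hx := by
    apply Subtype.ext
    rw [C.par_val x₀ (C.inv x x.2 hx).1]; exact (C.inv x x.2 hx).2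
  right_inv' w hw := by
    simp only [C.par_val x₀ hw]; exact (C.mem w hw).2.2
  open_source := C.oO.preimage continuous_subtype_val
  open_target := C.oW
  continuousOn_toFun :=
    C.sρ.continuousOn.comp continuous_subtype_val.continuousOn fun _ hx => hx
  continuousOn_invFun := by
    rw [Topology.IsInducing.subtypeVal.continuousOn_iff]
    exact C.sψ.continuousOn.congr fun w hw => C.par_val x₀ hw

lemma diffAt {w : P} (hw : w ∈ C.W) : DifferentiableAt ℝ C.ψ w :=
  (C.sψ.contDiffAt (C.oW.mem_nhds hw)).differentiableAt (by simp)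

/-- Tangent vectors in one chart are tangent vectors in another. -/
lemma exists_tangent (C' : Chart P S) {w : P} (hw : w ∈ C.W) (h : C.ψ w ∈ C'.O) (a : P) :
    ∃ a', fderiv ℝ C.ψ w a = fderiv ℝ C'.ψ (C'.ρ (C.ψ w)) a' := by
  have h1 := C.diffAt hw
  have h2 : DifferentiableAt ℝ C'.ρ (C.ψ w) :=
    (C'.sρ.contDiffAt (C'.oO.mem_nhds h)).differentiableAt (by simp)
  have h3 := C'.diffAt (C'.inv _ (C.mem w hw).1 h).1
  have h4 : C.ψ =ᶠ[𝓝 w] C'.ψ ∘ C'.ρ ∘ C.ψ := by
    filter_upwards [C.oW.mem_nhds hw, h1.continuousAt.preimage_mem_nhds (C'.oO.mem_nhds h)]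
      with w' a b
    exact (C'.inv _ (C.mem w' a).1 b).2.symm
  exact ⟨_, by rw [h4.fderiv_eq, fderiv_comp w h3 (h2.comp w h1)]; rfl⟩

end Chart

lemma univ_charts {ι : Type} (C : ι → Chart P S) (cov : ∀ x ∈ S, ∃ i, x ∈ (C i).O) (x : S) :
    ∃ e : OpenPartialHomeomorph S P, x ∈ e.source ∧ e.target = univ := by
  obtain ⟨i, hi⟩ := cov x x.2
  exact exists_univ_chart ((C i).e x) hi

lemma locC_of {X : Type} [TopologicalSpace X]
    (hX : ∀ x : X, ∃ e : OpenPartialHomeomorph X P, x ∈ e.source ∧ e.target = univ) : LocC X := by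
  intro x N₀ h0
  obtain ⟨e, hx, he⟩ := hX x
  have hc := symm_cont he
  obtain ⟨r, hr, h⟩ := Metric.mem_nhds_iff.1
    (hc.continuousAt.preimage_mem_nhds (x := e x) (t := N₀) (by rwa [e.left_inv hx]))
  refine ⟨e.symm '' Metric.ball (e x) r, e.isOpen_image_symm_of_subset_target Metric.isOpen_ball
    (by simp [he]), (mem_img he).2 ⟨hx, Metric.mem_ball_self hr⟩, image_subset_iff.2 h, x,
    (mem_img he).2 ⟨hx, Metric.mem_ball_self hr⟩, fun q => e.symm (q.2 • e x + (1 - q.2) • e q.1),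
    hc.comp_continuousOn ((continuousOn_snd.smul continuousOn_const).add
      ((continuousOn_const.sub continuousOn_snd).smul (e.continuousOn.comp continuousOn_fst
      fun q hq => ((mem_img he).1 hq.1).1))), fun q hq => mem_image_of_mem _ ?_, fun y hy => ?_,
    fun y _ => by simp [e.left_inv hx]⟩
  · exact convex_ball _ _ (Metric.mem_ball_self hr) ((mem_img he).1 hq.1).2 hq.2.1
      (sub_nonneg.2 hq.2.2) (by ring)
  · simp [e.left_inv ((mem_img he).1 hy).1]

variable {n : ℕ} (c : EuclideanSpace ℝ (Fin n) ≃L[ℝ] P)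

/-- The chart with values in Euclidean space. -/
noncomputable def Chart.e' (C : Chart P S) (x₀ : S) :
    OpenPartialHomeomorph S (EuclideanSpace ℝ (Fin n)) :=
  (C.e x₀).transHomeomorph c.symm.toHomeomorph

/-- The charted space structure given by a covering family of charts. -/
@[reducible] noncomputable def charted {ι : Type} (C : ι → Chart P S) (x₀ : S)
    (cov : ∀ x ∈ S, ∃ i, x ∈ (C i).O) : ChartedSpace (EuclideanSpace ℝ (Fin n)) S where
  atlas := range fun i => (C i).e' c x₀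
  chartAt x := (C (cov x x.2).choose).e' c x₀
  mem_chart_source x := (cov x x.2).choose_spec
  chart_mem_atlas _ := mem_range_self _

theorem package {ι : Type} (C : ι → Chart P S) (x₀ : S) (cov : ∀ x ∈ S, ∃ i, x ∈ (C i).O)
    {V : Type} [NormedAddCommGroup V] [NormedSpace ℝ V] (π : E →L[ℝ] V)
    (imm : ∀ i, ∀ w ∈ (C i).W, Function.Injective fun a => π (fderiv ℝ (C i).ψ w a)) :
    letI := charted c C x₀ cov
    IsManifold (𝓡 n) ∞ S ∧ ContMDiff (𝓡 n) 𝓘(ℝ, V) ∞ (fun x : S => π x) ∧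
      ∀ x : S, Function.Injective (mfderiv (𝓡 n) 𝓘(ℝ, V) (fun x : S => π x) x) := by
  let _ := charted c C x₀ cov
  have hman : IsManifold (𝓡 n) ∞ S := by
    apply isManifold_of_contDiffOn
    rintro _ _ ⟨i, rfl⟩ ⟨j, rfl⟩
    simp only [modelWithCornersSelf_coe, modelWithCornersSelf_coe_symm, Function.id_comp,
      Function.comp_id, preimage_id_eq, id, range_id, inter_univ]
    have hsub : ∀ w ∈ (((C i).e' c x₀).symm ≫ₕ (C j).e' c x₀).source,
        c w ∈ (C i).W ∧ (C i).ψ (c w) ∈ (C j).O := by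
      intro w hw
      have h1 : c w ∈ (C i).W := hw.1
      have h2 : ((C i).par x₀ (c w) : E) ∈ (C j).O := hw.2
      rw [(C i).par_val x₀ h1] at h2
      exact ⟨h1, h2⟩
    have : ContDiffOn ℝ ∞ (fun w => c.symm ((C j).ρ ((C i).ψ (c w))))
        (((C i).e' c x₀).symm ≫ₕ (C j).e' c x₀).source := by
      refine c.symm.contDiff.comp_contDiffOn ((C j).sρ.comp ((C i).sψ.comp
        c.contDiff.contDiffOn fun w hw => (hsub w hw).1) fun w hw => (hsub w hw).2)
    refine this.congr fun w hw => ?_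
    show c.symm ((C j).ρ ((C i).par x₀ (c w))) = _
    rw [(C i).par_val x₀ (hsub w hw).1]
  let f : S → V := fun x => π x
  have fcont : Continuous f := π.continuous.comp continuous_subtype_val
  have key : ∀ x : S, ∃ i, ∃ w ∈ (C i).W,
      extChartAt (𝓡 n) x x = c.symm w ∧
      writtenInExtChartAt (𝓡 n) 𝓘(ℝ, V) x f =ᶠ[𝓝 (c.symm w)] fun y => π ((C i).ψ (c y)) := by
    intro x
    have hx : (x : E) ∈ (C (cov x x.2).choose).O := (cov x x.2).choose_spec
    refine ⟨(cov x x.2).choose, (C _).ρ x, ((C _).inv x x.2 hx).1, rfl, ?_⟩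
    have hW : c ⁻¹' (C (cov x x.2).choose).W ∈ 𝓝 (c.symm ((C (cov x x.2).choose).ρ x)) :=
      ((C _).oW.preimage c.continuous).mem_nhds (by simpa using ((C _).inv x x.2 hx).1)
    filter_upwards [hW] with y hy
    show π ((C (cov x x.2).choose).par x₀ (c y)) = _
    rw [(C _).par_val x₀ hy]
  have fsm : ContMDiff (𝓡 n) 𝓘(ℝ, V) ∞ f := by
    intro x
    rw [contMDiffAt_iff]
    refine ⟨fcont.continuousAt, ?_⟩
    obtain ⟨i, w, hw, h1, h2⟩ := key x
    rw [h1]
    have h3 : ContDiffAt ℝ ∞ (C i).ψ (c (c.symm w)) := by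
      rw [c.apply_symm_apply]; exact (C i).sψ.contDiffAt ((C i).oW.mem_nhds hw)
    exact ((π.contDiff.contDiffAt.comp _ (h3.comp _ c.contDiff.contDiffAt)).congr_of_eventuallyEq
      h2).contDiffWithinAt
  refine ⟨hman, fsm, fun x => ?_⟩
  obtain ⟨i, w, hw, h1, h2⟩ := key x
  rw [((fsm x).mdifferentiableAt (by simp)).mfderiv, h1]
  simp only [modelWithCornersSelf_coe, range_id, fderivWithin_univ]
  have h3 : HasFDerivAt (C i).ψ (fderiv ℝ (C i).ψ w) (c (c.symm w)) := by
    rw [c.apply_symm_apply]; exact ((C i).diffAt hw).hasFDerivAt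
  have h4 : fderiv ℝ (fun y => π ((C i).ψ (c y))) (c.symm w) = _ :=
    (π.hasFDerivAt.comp _ (h3.comp _ c.hasFDerivAt)).fderiv
  have h5 : Function.Injective (fderiv ℝ (fun y => π ((C i).ψ (c y))) (c.symm w)) := by
    rw [h4]; exact (imm i w hw).comp c.injective
  rw [h2.fderiv_eq]
  exact h5

end Pool.Agent.P.MP_c88051_gt
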