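import Pool.Agent.P.MP_c88051_gt.Prof
import Pool.Agent.P.MP_c88051_gt.Alg

/-! The torus with flat sides and the six handles, as maps to a big ambient space. -/

open Set Topology Filter Real
open scoped ContDiff ComplexConjugate
open Complex (I)

namespace Pool.Agent.P.MP_c88051_gt

open Pool.Agent.P.MP_06bfdf_gt

@[fun_prop] lemma cd_re : ContDiff ℝ ∞ Complex.re := Complex.reCLM.contDiff
@[fun_prop] lemma cd_im : ContDiff ℝ ∞ Complex.im := Complex.imCLM.contDiff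
@[fun_prop] lemma cd_ofReal : ContDiff ℝ ∞ Complex.ofReal := Complex.ofRealCLM.contDiff
@[fun_prop] lemma cd_conj : ContDiff ℝ ∞ (conj : ℂ → ℂ) := Complex.conjCLE.contDiff

lemma mk_eq (a b : ℝ) : (⟨a, b⟩ : ℂ) = a + b * I := by apply Complex.ext <;> simp

@[fun_prop] lemma cd_mk {X : Type} [NormedAddCommGroup X] [NormedSpace ℝ X] {f g : X → ℝ} {x : X}
    (hf : ContDiffAt ℝ ∞ f x) (hg : ContDiffAt ℝ ∞ g x) :
    ContDiffAt ℝ ∞ (fun x => (⟨f x, g x⟩ : ℂ)) x := by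
  simp only [mk_eq]; fun_prop

@[fun_prop] lemma cont_mk {X : Type} [TopologicalSpace X] {f g : X → ℝ}
    (hf : Continuous f) (hg : Continuous g) : Continuous (fun x => (⟨f x, g x⟩ : ℂ)) := by
  simp only [mk_eq]; fun_prop

lemma sq_of_norm {z : ℂ} (h : ‖z‖ = 1) : z.re ^ 2 + z.im ^ 2 = 1 := by
  have := Complex.sq_norm z
  rw [h, Complex.normSq_apply] at this
  linarith

lemma norm_of_sq {z : ℂ} (h : z.re ^ 2 + z.im ^ 2 = 1) : ‖z‖ = 1 := by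
  rw [← sq_eq_sq₀ (norm_nonneg _) zero_le_one, Complex.sq_norm, Complex.normSq_apply]
  linarith

/-- Centres of the holes. -/
noncomputable def cc (j : Fin 6) : ℝ := (2 * (j : ℕ) - 5) / 20

lemma cc_le (j : Fin 6) : -(1 / 4) ≤ cc j ∧ cc j ≤ 1 / 4 := by
  fin_cases j <;> norm_num [cc]

lemma cc_sep {j k : Fin 6} (h : j ≠ k) : cc j + 1 / 10 ≤ cc k ∨ cc k + 1 / 10 ≤ cc j := by
  fin_cases j <;> fin_cases k <;> first | exact (h rfl).elim | norm_num [cc]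

/-- Direction of the axis of the handle. -/
noncomputable def AA (j : Fin 6) : ℂ := ⟨cc j - 4 / 5, -4 / 5⟩

lemma AA_ne (j : Fin 6) : AA j ≠ 0 := fun h => by
  have := congrArg Complex.im h
  norm_num [AA] at this

/-- Twist of the handle. -/
noncomputable def ka (j : Fin 6) : ℂ := -conj (AA j) / AA j

lemma norm_ka (j : Fin 6) : ‖ka j‖ = 1 := by simp [ka, AA_ne]

lemma ka_mul (j : Fin 6) : ka j * AA j = -conj (AA j) := div_mul_cancel₀ _ (AA_ne j)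

lemma ka_conj (j : Fin 6) : conj (ka j) * ka j = 1 := by
  rw [Complex.conj_mul', norm_ka]; simp

/-- Equal to one below `4` and to zero above `16`. -/
noncomputable def cut (s : ℝ) : ℝ := stp ((10 - s) / 6)

@[fun_prop] lemma cut_smooth : ContDiff ℝ ∞ cut := by unfold cut; fun_prop

lemma cut_one {s : ℝ} (h : s ≤ 4) : cut s = 1 := stp_one (by linarith)
lemma cut_zero {s : ℝ} (h : 16 ≤ s) : cut s = 0 := stp_zero (by linarith)
lemma cut_pos {s : ℝ} (h : s < 16) : 0 < cut s := stp_pos (by linarith)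
lemma cut_nonneg (s : ℝ) : 0 ≤ cut s := stp_nonneg _

/-- Cut-off function around a hole. -/
noncomputable def chi (j : Fin 6) (y₁ y₂ x₁ x₂ : ℝ) : ℝ :=
  cut (40000 * ((y₁ - cc j) ^ 2 + y₂ ^ 2)) * (stp (2 * x₁) * stp (2 * x₂))

lemma chi_nonneg (j : Fin 6) (y₁ y₂ x₁ x₂ : ℝ) : 0 ≤ chi j y₁ y₂ x₁ x₂ :=
  mul_nonneg (cut_nonneg _) (mul_nonneg (stp_nonneg _) (stp_nonneg _))

lemma chi_eq {j : Fin 6} {y₁ y₂ x₁ x₂ : ℝ} (h1 : 1 / 2 ≤ x₁) (h2 : 1 / 2 ≤ x₂) :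
    chi j y₁ y₂ x₁ x₂ = cut (40000 * ((y₁ - cc j) ^ 2 + y₂ ^ 2)) := by
  rw [chi, stp_one (by linarith), stp_one (by linarith)]; ring

lemma chi_pos {j : Fin 6} {y₁ y₂ x₁ x₂ : ℝ} (h1 : x₁ ^ 2 + y₁ ^ 2 = 1) (h2 : x₂ ^ 2 + y₂ ^ 2 = 1)
    (h : chi j y₁ y₂ x₁ x₂ ≠ 0) :
    40000 * ((y₁ - cc j) ^ 2 + y₂ ^ 2) < 16 ∧ 9 / 10 ≤ x₁ ∧ 9 / 10 ≤ x₂ := by
  rw [chi, mul_ne_zero_iff, mul_ne_zero_iff] at h
  have a1 : 40000 * ((y₁ - cc j) ^ 2 + y₂ ^ 2) < 16 := not_le.1 fun h' => h.1 (cut_zero h')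
  have a2 : -1 < 2 * x₁ := not_le.1 fun h' => h.2.1 (stp_zero h')
  have a3 : -1 < 2 * x₂ := not_le.1 fun h' => h.2.2 (stp_zero h')
  have a4 := cc_le j
  have a5 : |y₁ - cc j| < 1 / 50 := abs_lt_of_sq_lt_sq (by nlinarith) (by norm_num)
  rw [abs_lt] at a5
  refine ⟨a1, ?_, ?_⟩ <;> by_contra h <;> nlinarith

abbrev EE := (ℂ × ℂ) × P6 × (ℂ × ℂ) × (Fin 6 → ℝ × ℂ × ℂ)

/-- Tangent vectors of the torus and a transverse vector. -/
noncomputable def T1 (z : ℂ × ℂ) : ℂ × ℂ := (⟨gg z.1.im * z.1.re, 0⟩, ⟨-(gg z.1.re * z.1.im), 0⟩)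
noncomputable def T2 (z : ℂ × ℂ) : ℂ × ℂ := (⟨0, gg z.2.im * z.2.re⟩, ⟨0, gg z.2.re * z.2.im⟩)
noncomputable def ao (z : ℂ × ℂ) : ℂ × ℂ := (⟨0, z.2.im⟩, ⟨0, -z.2.re⟩)

noncomputable def c0 (j : Fin 6) (z : ℂ × ℂ) : ℝ := chi j z.1.im z.2.im z.1.re z.2.re
noncomputable def c1 (j : Fin 6) (z : ℂ × ℂ) : ℝ := chi j z.1.re z.2.re z.1.im z.2.im

/-- The torus. -/
noncomputable def To (z : ℂ × ℂ) : EE :=
  ((⟨GG z.1.im, GG z.2.im⟩, ⟨GG z.1.re, -GG z.2.re⟩), npl (mk (T1 z)) (mk (T2 z)), z, fun j =>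
    (c0 j z + c1 j z, c0 j z * (200 * (⟨z.1.im, z.2.im⟩ - cc j)),
      c1 j z * (200 * conj (ka j) * (⟨z.1.re, -z.2.re⟩ - cc j))))

lemma ind_To {z : ℂ × ℂ} (h1 : ‖z.1‖ = 1) (h2 : ‖z.2‖ = 1) :
    Ind (mk (T1 z)) (mk (T2 z)) (mk (ao z)) := by
  intro r s t h
  rw [← map_smul, ← map_smul, ← map_smul, ← map_add, ← map_add] at h
  have h := mk_eq_zero h
  have a1 := congrArg (fun q => q.1.re) h
  have a2 := congrArg (fun q => q.1.im) h
  have a3 := congrArg (fun q => q.2.re) h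
  have a4 := congrArg (fun q => q.2.im) h
  simp only [T1, T2, ao, Prod.smul_mk, Prod.mk_add_mk, Complex.add_re, Complex.add_im,
    Complex.smul_re, Complex.smul_im, smul_eq_mul, Prod.fst_zero, Prod.snd_zero, Complex.zero_re,
    Complex.zero_im] at a1 a2 a3 a4
  have b1 := normal_ne (sq_of_norm h1)
  have b2 := normal_ne (sq_of_norm h2)
  have hr : r = 0 := (mul_eq_zero.1 (show r * _ = 0 by
    linear_combination z.1.re * a1 - z.1.im * a3)).resolve_right b1.ne'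
  have hs : s = 0 := (mul_eq_zero.1 (show s * _ = 0 by
    linear_combination z.2.re * a2 + z.2.im * a4)).resolve_right b2.ne'
  refine ⟨hr, hs, ?_⟩
  rw [hs] at a2 a4
  linear_combination z.2.im * a2 - z.2.re * a4 - t * sq_of_norm h2

lemma To_smooth {z : ℂ × ℂ} (h1 : ‖z.1‖ = 1) (h2 : ‖z.2‖ = 1) : ContDiffAt ℝ ∞ To z := by
  refine ContDiffAt.prodMk (by fun_prop) (ContDiffAt.prodMk (npl_smooth ?_ ?_
    (ind_To h1 h2).pl_ne) (contDiffAt_id.prodMk (contDiffAt_pi.2 fun j => ?_)))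
  · unfold T1; fun_prop
  · unfold T2; fun_prop
  · unfold c0 c1 chi; fun_prop

noncomputable def z0 (j : Fin 6) (q : ℂ × ℝ) : ℂ := cc j + (ramp (-q.2) / 200 : ℝ) * q.1
noncomputable def z1 (j : Fin 6) (q : ℂ × ℝ) : ℂ := cc j + (ramp q.2 / 200 : ℝ) * (ka j * q.1)
noncomputable def up (y : ℝ) : ℂ := ⟨√(1 - y ^ 2), y⟩
noncomputable def ri (x : ℝ) : ℂ := ⟨x, √(1 - x ^ 2)⟩
noncomputable def u0 (j : Fin 6) (q : ℂ × ℝ) : ℂ × ℂ := (up (z0 j q).re, up (z0 j q).im)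
noncomputable def u1 (j : Fin 6) (q : ℂ × ℝ) : ℂ × ℂ := (ri (z1 j q).re, ri (-(z1 j q).im))

/-- Tangent vectors of a handle and a transverse vector. -/
noncomputable def Ft (j : Fin 6) (q : ℂ × ℝ) : ℂ × ℂ :=
  ((ramp (-q.2) / 200 : ℝ) * (q.1 * I), (ramp q.2 / 200 : ℝ) * (ka j * (q.1 * I)))
noncomputable def Fs (j : Fin 6) (q : ℂ × ℝ) : ℂ × ℂ :=
  ((-stp (-q.2) / 200 : ℝ) * q.1 - (deriv SS q.2 : ℝ) * AA j,
    (stp q.2 / 200 : ℝ) * (ka j * q.1) + (deriv SS q.2 : ℝ) * conj (AA j))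
noncomputable def ww (j : Fin 6) (q : ℂ × ℝ) : ℂ × ℂ :=
  (I * (ramp q.2 * q.1), -I * ka j * (ramp (-q.2) * q.1))

/-- The handles. -/
noncomputable def Tu (j : Fin 6) (q : ℂ × ℝ) : EE :=
  ((z0 j q - SS q.2 * AA j, z1 j q - (1 - SS q.2) * conj (AA j)), npl (mk (Ft j q)) (mk (Fs j q)),
    stp (-q.2) • u0 j q + stp q.2 • u1 j q, Pi.single j
      (cut (q.2 ^ 2), cut (q.2 ^ 2) * (ramp (-q.2) * q.1), cut (q.2 ^ 2) * (ramp q.2 * q.1)))

lemma ramp_sum_pos (s : ℝ) : 0 < ramp (-s) + ramp s := by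
  rcases le_total s 0 with h | h
  · exact add_pos_of_pos_of_nonneg (ramp_pos (by linarith)) (ramp_nonneg _)
  · exact add_pos_of_nonneg_of_pos (ramp_nonneg _) (ramp_pos (by linarith))

lemma ind_Tu (j : Fin 6) {q : ℂ × ℝ} (h1 : ‖q.1‖ = 1) :
    Ind (mk (Ft j q)) (mk (Fs j q)) (mk (ww j q)) := by
  intro r s t h
  rw [← map_smul, ← map_smul, ← map_smul, ← map_add, ← map_add] at h
  have h := mk_eq_zero h
  have a1 := congrArg Prod.fst h
  have a2 := congrArg Prod.snd h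
  simp only [Ft, Fs, ww, Prod.smul_mk, Prod.mk_add_mk, Complex.real_smul, Prod.fst_zero,
    Prod.snd_zero] at a1 a2
  push_cast at a1 a2
  have k1 := ka_conj j
  have k2 : conj (ka j) * conj (AA j) = -AA j := by rw [← map_mul, ka_mul]; simp
  have k3 : ((stp q.2 : ℝ) : ℂ) + (stp (-q.2) : ℝ) = 1 := by exact_mod_cast stp_symm q.2
  have h0 : q.1 ≠ 0 := by rintro h; simp [h] at h1
  have a3 : (-s / 200 + (r * (ramp (-q.2) - ramp q.2) / 200 + t * (ramp (-q.2) + ramp q.2) : ℝ) *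
      I : ℂ) = 0 := by
    refine mul_right_cancel₀ h0 ?_
    push_cast
    linear_combination a1 - conj (ka j) * a2 + (r * ramp q.2 / 200 * q.1 * I +
      s * stp q.2 / 200 * q.1 - t * I * ramp (-q.2) * q.1) * k1 + s * (deriv SS q.2 : ℝ) * k2 +
      s / 200 * q.1 * k3
  have hs : s = 0 := by simpa using congrArg Complex.re a3
  rw [hs, Complex.ofReal_zero] at a1 a2
  have b1 : (r * ramp (-q.2) / 200 + t * ramp q.2 : ℝ) = (0 : ℂ) := by
    refine mul_right_cancel₀ (mul_ne_zero h0 Complex.I_ne_zero) ?_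
    push_cast
    linear_combination a1
  have b2 : (r * ramp q.2 / 200 - t * ramp (-q.2) : ℝ) = (0 : ℂ) := by
    refine mul_right_cancel₀ (mul_ne_zero h0 Complex.I_ne_zero) ?_
    push_cast
    linear_combination conj (ka j) * a2 - (r * ramp q.2 / 200 * q.1 * I -
      t * I * ramp (-q.2) * q.1) * k1
  rw [Complex.ofReal_eq_zero] at b1 b2
  have b3 : ramp (-q.2) ^ 2 + ramp q.2 ^ 2 ≠ 0 := by
    have := ramp_sum_pos q.2
    nlinarith [sq_nonneg (ramp (-q.2) - ramp q.2)]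
  exact ⟨(mul_eq_zero.1 (show r * _ = 0 by
    linear_combination 200 * ramp (-q.2) * b1 + 200 * ramp q.2 * b2)).resolve_right b3, hs,
    (mul_eq_zero.1 (show t * _ = 0 by
    linear_combination ramp q.2 * b1 - ramp (-q.2) * b2)).resolve_right b3⟩

lemma near {j : Fin 6} {a : ℝ} {w : ℂ} (h0 : 0 ≤ a) (h1 : a ≤ 4) (h2 : ‖w‖ = 1) :
    |(cc j + (a / 200 : ℝ) * w : ℂ).re - cc j| ≤ 1 / 50 ∧
      |(cc j + (a / 200 : ℝ) * w : ℂ).im| ≤ 1 / 50 ∧
      40000 * (((cc j + (a / 200 : ℝ) * w : ℂ).re - cc j) ^ 2 +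
        (cc j + (a / 200 : ℝ) * w : ℂ).im ^ 2) = a ^ 2 := by
  have h3 := sq_of_norm h2
  have : 40000 * (((cc j + (a / 200 : ℝ) * w : ℂ).re - cc j) ^ 2 +
      (cc j + (a / 200 : ℝ) * w : ℂ).im ^ 2) = a ^ 2 := by
    simp only [Complex.add_re, Complex.add_im, Complex.ofReal_re, Complex.ofReal_im,
      Complex.re_ofReal_mul, Complex.im_ofReal_mul]
    linear_combination a ^ 2 * h3
  exact ⟨abs_le_of_sq_le_sq (by nlinarith) (by norm_num),
    abs_le_of_sq_le_sq (by nlinarith) (by norm_num), this⟩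

lemma ramp_le {s : ℝ} (h : s ≤ 4) : ramp s ≤ 4 :=
  (ramp_mono h).trans_eq (ramp_of_ge (by norm_num))

lemma sqrt_ge {y : ℝ} (h : |y| ≤ 3 / 10) : 9 / 10 ≤ √(1 - y ^ 2) ∧ √(1 - y ^ 2) ^ 2 + y ^ 2 = 1 := by
  have : y ^ 2 ≤ (3 / 10) ^ 2 := sq_le_sq' (abs_le.1 h).1 (abs_le.1 h).2
  exact ⟨le_sqrt_of_sq_le (by linarith), by rw [sq_sqrt (by linarith)]; ring⟩

lemma small {j : Fin 6} {y : ℝ} (h : |y - cc j| ≤ 1 / 50) : |y| ≤ 3 / 10 := by
  have := cc_le j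
  rw [abs_le] at *
  constructor <;> linarith

@[fun_prop] lemma dSS_smooth : ContDiff ℝ ∞ (deriv SS) := (contDiff_infty_iff_deriv.1 SS_smooth).2

lemma Tu_smooth (j : Fin 6) {q : ℂ × ℝ} (h1 : ‖q.1‖ = 1) (h2 : |q.2| ≤ 4) :
    ContDiffAt ℝ ∞ (Tu j) q := by
  rw [abs_le] at h2
  obtain ⟨a1, a2, -⟩ := near (j := j) (ramp_nonneg _) (ramp_le (s := -q.2) (by linarith)) h1
  obtain ⟨b1, b2, -⟩ := near (j := j) (w := ka j * q.1) (ramp_nonneg _) (ramp_le h2.2)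
    (by rw [norm_mul, h1, norm_ka, mul_one])
  have s0 : ContDiffAt ℝ ∞ (z0 j) q := by unfold z0; fun_prop
  have s1 : ContDiffAt ℝ ∞ (z1 j) q := by unfold z1; fun_prop
  have sq : ∀ f : ℂ × ℝ → ℝ, ContDiffAt ℝ ∞ f q → |f q| ≤ 3 / 10 →
      ContDiffAt ℝ ∞ (fun q => √(1 - f q ^ 2)) q := fun f hf h =>
    ContDiffAt.sqrt (by fun_prop) (by nlinarith [abs_le.1 h])
  have d1 := sq (fun q => (z0 j q).re) (by fun_prop) (small a1)
  have d2 := sq (fun q => (z0 j q).im) (by fun_prop) (a2.trans (by norm_num))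
  have d3 := sq (fun q => (z1 j q).re) (by fun_prop) (small b1)
  have d4 := sq (fun q => -(z1 j q).im) (by fun_prop) (by rw [abs_neg]; exact b2.trans (by norm_num))
  refine ContDiffAt.prodMk (by fun_prop) (ContDiffAt.prodMk (npl_smooth ?_ ?_
    (ind_Tu j h1).pl_ne) (ContDiffAt.prodMk ?_
    ((contDiff_single (𝕜 := ℝ) (F' := fun _ => ℝ × ℂ × ℂ) ∞ j).contDiffAt.comp q (by fun_prop))))
  · unfold Ft; fun_prop
  · unfold Fs; fun_prop
  · unfold u0 u1 up ri; fun_prop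

lemma dSS_lo {s : ℝ} (h : s ≤ -1) : deriv SS s = 0 := by rw [(SS_deriv s).deriv, ph_lo h, zero_div]

lemma dSS_hi {s : ℝ} (h : 1 ≤ s) : deriv SS s = 0 := by rw [(SS_deriv s).deriv, ph_hi h, zero_div]

lemma chi_far {k : Fin 6} {y₁ y₂ : ℝ} (x₁ x₂ : ℝ) (h : 1 / 50 ≤ |y₁ - cc k| ∨ 1 / 50 ≤ |y₂|) :
    chi k y₁ y₂ x₁ x₂ = 0 := by
  rw [chi, cut_zero, zero_mul]
  rcases h with h | h <;>
  nlinarith [sq_abs (y₁ - cc k), sq_abs y₂, sq_nonneg y₂, sq_nonneg (y₁ - cc k)]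

lemma chi_other {j k : Fin 6} (h : k ≠ j) {y₁ : ℝ} (y₂ x₁ x₂ : ℝ) (h1 : |y₁ - cc j| ≤ 1 / 50) :
    chi k y₁ y₂ x₁ x₂ = 0 := by
  refine chi_far _ _ (Or.inl ?_)
  rw [abs_le] at h1
  rcases cc_sep h with h | h <;> rw [le_abs] <;> [left; right] <;> linarith

/-- The first end of a handle lies on the torus. -/
lemma compat0 (j : Fin 6) {q : ℂ × ℝ} (h1 : ‖q.1‖ = 1) (h2 : -4 ≤ q.2) (h3 : q.2 ≤ -1) :
    (‖(u0 j q).1‖ = 1 ∧ ‖(u0 j q).2‖ = 1) ∧ 9 / 10 ≤ (u0 j q).1.re ∧ 9 / 10 ≤ (u0 j q).2.re ∧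
      (Tu j q).2.1 = p0 ∧ Tu j q = To (u0 j q) := by
  have e1 : ramp (-q.2) = -q.2 := ramp_of_ge (by linarith)
  obtain ⟨a1, a2, a3⟩ := near (j := j) (ramp_nonneg _) (ramp_le (s := -q.2) (by linarith)) h1
  change |(z0 j q).re - _| ≤ _ at a1
  change |(z0 j q).im| ≤ _ at a2
  change 40000 * (((z0 j q).re - _) ^ 2 + (z0 j q).im ^ 2) = _ at a3
  obtain ⟨b1, b2⟩ := sqrt_ge (small a1)
  obtain ⟨b3, b4⟩ := sqrt_ge (a2.trans (by norm_num))
  have g1 : |(z0 j q).re| ≤ 3 / 4 := (small a1).trans (by norm_num)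
  have g2 : |(z0 j q).im| ≤ 3 / 4 := a2.trans (by norm_num)
  have n1 : (Tu j q).2.1 = p0 := by
    simp only [Tu, Ft, Fs, ramp_of_le h3, dSS_lo h3, stp_zero h3, stp_one (neg_le_neg h3 |>.trans_eq'
      (by simp)), zero_div, Complex.ofReal_zero, zero_mul, add_zero, sub_zero]
    refine npl_zero ?_
    simp only [Complex.re_ofReal_mul, Complex.im_ofReal_mul, Complex.mul_I_re, Complex.mul_I_im, e1]
    nlinarith [sq_of_norm h1]
  refine ⟨⟨norm_of_sq b2, norm_of_sq b4⟩, b1, b3, n1, Prod.ext (Prod.ext ?_ ?_)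
    (Prod.ext (n1.trans (Eq.symm ?_)) (Prod.ext ?_ (funext fun k => ?_)))⟩
  · simp only [Tu, To, u0, up, SS_lo h3, GG_mid g1, GG_mid g2]; simp
  · simp only [Tu, To, u0, up, SS_lo h3, GG_top (b1.trans' (by norm_num)),
      GG_top (b3.trans' (by norm_num)), z1, ramp_of_le h3]
    apply Complex.ext <;> simp [AA]; norm_num
  · simp only [To, T1, T2, u0, up, gg_mid g1, gg_mid g2, gg_top (b1.trans' (by norm_num)),
      gg_top (b3.trans' (by norm_num)), zero_mul, neg_zero]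
    exact npl_zero (by simp only; nlinarith)
  · simp only [Tu, To, stp_zero h3, stp_one (show 1 ≤ -q.2 by linarith)]; simp
  · have d1 : c1 k (u0 j q) = 0 := chi_far _ _ (Or.inr (le_abs.2 (Or.inl (b3.trans' (by norm_num)))))
    rcases eq_or_ne k j with rfl | hk
    · have d0 : c0 k (u0 k q) = cut (q.2 ^ 2) := by
        rw [← neg_sq, ← e1, ← a3]
        exact chi_eq (b1.trans' (by norm_num)) (b3.trans' (by norm_num))
      simp only [Tu, To, d0, d1, Pi.single_eq_same, ramp_of_le h3]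
      simp only [u0, up, Complex.eta]
      simp [z0]; left; ring
    · have d0 : c0 k (u0 j q) = 0 := chi_other hk _ _ _ a1
      simp only [Tu, To, d0, d1, Pi.single_eq_of_ne hk]
      simp [Prod.ext_iff]

/-- The second end of a handle lies on the torus. -/
lemma compat1 (j : Fin 6) {q : ℂ × ℝ} (h1 : ‖q.1‖ = 1) (h2 : q.2 ≤ 4) (h3 : 1 ≤ q.2) :
    (‖(u1 j q).1‖ = 1 ∧ ‖(u1 j q).2‖ = 1) ∧ 9 / 10 ≤ (u1 j q).1.im ∧ 9 / 10 ≤ (u1 j q).2.im ∧
      (Tu j q).2.1 = p1 ∧ Tu j q = To (u1 j q) := by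
  have e1 : ramp q.2 = q.2 := ramp_of_ge h3
  have h3' : -q.2 ≤ -1 := by linarith
  have h1' : ‖ka j * q.1‖ = 1 := by rw [norm_mul, h1, norm_ka, mul_one]
  obtain ⟨a1, a2, a3⟩ := near (j := j) (ramp_nonneg _) (ramp_le h2) h1'
  change |(z1 j q).re - _| ≤ _ at a1
  change |(z1 j q).im| ≤ _ at a2
  change 40000 * (((z1 j q).re - _) ^ 2 + (z1 j q).im ^ 2) = _ at a3
  rw [← abs_neg] at a2
  rw [← neg_sq (z1 j q).im] at a3
  obtain ⟨b1, b2⟩ := sqrt_ge (small a1)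
  obtain ⟨b3, b4⟩ := sqrt_ge (a2.trans (by norm_num))
  have g1 : |(z1 j q).re| ≤ 3 / 4 := (small a1).trans (by norm_num)
  have g2 : |-(z1 j q).im| ≤ 3 / 4 := a2.trans (by norm_num)
  have n1 : (Tu j q).2.1 = p1 := by
    simp only [Tu, Ft, Fs, ramp_of_le h3', dSS_hi h3, stp_zero h3', stp_one h3, zero_div,
      Complex.ofReal_zero, zero_mul, add_zero, sub_zero, neg_zero, ← mul_assoc (ka j)]
    refine npl_one ?_
    simp only [Complex.re_ofReal_mul, Complex.im_ofReal_mul, Complex.mul_I_re, Complex.mul_I_im, e1]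
    nlinarith [sq_of_norm h1']
  refine ⟨⟨norm_of_sq (by rw [add_comm]; exact b2), norm_of_sq (by rw [add_comm]; exact b4)⟩, b1, b3,
    n1, Prod.ext (Prod.ext ?_ ?_)
    (Prod.ext (n1.trans (Eq.symm ?_)) (Prod.ext ?_ (funext fun k => ?_)))⟩
  · simp only [Tu, To, u1, ri, SS_hi h3, GG_top (b1.trans' (by norm_num)),
      GG_top (b3.trans' (by norm_num)), z0, ramp_of_le h3']
    apply Complex.ext <;> simp [AA]; norm_num
  · simp only [Tu, To, u1, ri, SS_hi h3, GG_mid g1, GG_mid g2]; simp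
  · simp only [To, T1, T2, u1, ri, gg_mid g1, gg_mid g2, gg_top (b1.trans' (by norm_num)),
      gg_top (b3.trans' (by norm_num)), zero_mul]
    exact npl_one (by simp only; nlinarith)
  · simp only [Tu, To, stp_zero h3', stp_one h3]; simp
  · have d0 : c0 k (u1 j q) = 0 := chi_far _ _ (Or.inr (le_abs.2 (Or.inl (b3.trans' (by norm_num)))))
    rcases eq_or_ne k j with rfl | hk
    · have d1 : c1 k (u1 k q) = cut (q.2 ^ 2) := by
        rw [← e1, ← a3]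
        exact chi_eq (b1.trans' (by norm_num)) (b3.trans' (by norm_num))
      simp only [Tu, To, d0, d1, Pi.single_eq_same, ramp_of_le h3']
      simp only [u1, ri, neg_neg, Complex.eta]
      simp [z1]; left; linear_combination (-ramp q.2 * q.1) * ka_conj k
    · have d1 : c1 k (u1 j q) = 0 := chi_other hk _ _ _ a1
      simp only [Tu, To, d0, d1, Pi.single_eq_of_ne hk]
      simp [Prod.ext_iff]

lemma polar {ζ : ℂ} {c : ℝ} (h : 4 < 40000 * ((ζ.re - c) ^ 2 + ζ.im ^ 2))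
    (h' : 40000 * ((ζ.re - c) ^ 2 + ζ.im ^ 2) < 16) :
    ∃ w : ℂ, ‖w‖ = 1 ∧ ∃ r : ℝ, 2 < r ∧ r < 4 ∧ c + (r / 200 : ℝ) * w = ζ := by
  have e : ‖ζ - c‖ ^ 2 = (ζ.re - c) ^ 2 + ζ.im ^ 2 := by
    rw [Complex.sq_norm, Complex.normSq_apply]; simp; ring
  have h1 : 2 < 200 * ‖ζ - c‖ := lt_of_pow_lt_pow_left₀ 2 (by positivity) (by linarith)
  have h2 : ‖ζ - c‖ ≠ 0 := by linarith
  have h3 : (‖ζ - c‖ : ℂ) ≠ 0 := by exact_mod_cast h2
  refine ⟨(ζ - c) / ‖ζ - c‖, by simp [h2], _, h1,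
    lt_of_pow_lt_pow_left₀ 2 (by positivity) (by linarith), ?_⟩
  push_cast
  field_simp
  ring

lemma up_eq {z : ℂ} (h : ‖z‖ = 1) (h' : 0 ≤ z.re) : up z.im = z :=
  Complex.ext (by rw [up, ← sq_of_norm h, add_sub_cancel_right, sqrt_sq h']) rfl

lemma ri_eq {z : ℂ} (h : ‖z‖ = 1) (h' : 0 ≤ z.im) : ri z.re = z :=
  Complex.ext rfl (by rw [ri, ← sq_of_norm h, add_sub_cancel_left, sqrt_sq h'])

/-- The collars of the holes lie on the handles. -/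
lemma compat {j : Fin 6} {z : ℂ × ℂ} (h1 : ‖z.1‖ = 1) (h2 : ‖z.2‖ = 1)
    (h3 : ((To z).2.2.2 j).1 ≠ 0) (h4 : ((To z).2.2.2 j).1 < 1) :
    ∃ q : ℂ × ℝ, ‖q.1‖ = 1 ∧ |q.2| < 4 ∧ Tu j q = To z := by
  change c0 j z + c1 j z ≠ 0 at h3
  change c0 j z + c1 j z < 1 at h4
  have s1 := sq_of_norm h1
  have s2 := sq_of_norm h2
  by_cases h : c0 j z = 0
  · rw [h, zero_add] at h3 h4
    obtain ⟨a1, a2, a3⟩ := chi_pos (by linarith) (by linarith) h3
    rw [c1, chi_eq (by linarith) (by linarith)] at h4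
    obtain ⟨w, b1, r, b2, b3, b4⟩ := polar (ζ := ⟨z.1.re, -z.2.re⟩) (c := cc j)
      (by rw [neg_sq]; exact not_le.1 fun h => h4.ne (cut_one h)) (by rw [neg_sq]; exact a1)
    have b5 : ‖conj (ka j) * w‖ = 1 := by simp [b1, norm_ka]
    refine ⟨(conj (ka j) * w, r), b5, abs_lt.2 ⟨by linarith, b3⟩,
      (compat1 j b5 b3.le (by linarith)).2.2.2.2.trans (congrArg To ?_)⟩
    have : z1 j (conj (ka j) * w, r) = ⟨z.1.re, -z.2.re⟩ := by
      rw [z1, ← b4, ramp_of_ge (by linarith), ← mul_assoc (ka j), mul_comm (ka j), ka_conj, one_mul]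
    rw [u1, this, neg_neg, ri_eq h1 (by linarith), ri_eq h2 (by linarith)]
  · obtain ⟨a1, a2, a3⟩ := chi_pos s1 s2 h
    have h5 : c0 j z < 1 := by linarith [show 0 ≤ c1 j z from chi_nonneg _ _ _ _ _]
    rw [c0, chi_eq (by linarith) (by linarith)] at h5
    obtain ⟨w, b1, r, b2, b3, b4⟩ := polar (ζ := ⟨z.1.im, z.2.im⟩) (c := cc j)
      (not_le.1 fun h => h5.ne (cut_one h)) a1
    refine ⟨(w, -r), b1, abs_lt.2 ⟨by linarith, by linarith⟩,
      (compat0 j b1 (by linarith) (by linarith)).2.2.2.2.trans (congrArg To ?_)⟩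
    have : z0 j (w, -r) = ⟨z.1.im, z.2.im⟩ := by
      rw [z0, ← b4, neg_neg, ramp_of_ge (by linarith)]
    rw [u0, this, up_eq h1 (by linarith), up_eq h2 (by linarith)]

end Pool.Agent.P.MP_c88051_gt
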