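import Pool.Agent.P.MP_06bfdf_gt.Ramp

/-! Profile functions of the torus and of the handles, and their strict local maxima. -/

open Set Topology Filter Real
open scoped ContDiff RealInnerProductSpace

namespace Pool.Agent.P.MP_c88051_gt

open Pool.Agent.P.MP_06bfdf_gt

attribute [fun_prop] stp_smooth

@[fun_prop] lemma stp_cont : Continuous stp := stp_smooth.continuous

lemma stp_one {t : ℝ} (h : 1 ≤ t) : stp t = 1 := smoothTransition.one_of_one_le (by linarith)
lemma stp_zero {t : ℝ} (h : t ≤ -1) : stp t = 0 := smoothTransition.zero_of_nonpos (by linarith)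
lemma stp_pos {t : ℝ} (h : -1 < t) : 0 < stp t := smoothTransition.pos_of_pos (by linarith)
lemma stp_lt_one {t : ℝ} (h : t < 1) : stp t < 1 := smoothTransition.lt_one_of_lt_one (by linarith)
lemma stp_nonneg (t : ℝ) : 0 ≤ stp t := smoothTransition.nonneg _
lemma stp_le_one (t : ℝ) : stp t ≤ 1 := smoothTransition.le_one _

lemma ramp_pos {s : ℝ} (h : -1 < s) : 0 < ramp s :=
  intervalIntegral.intervalIntegral_pos_of_pos_on (stp_cont.intervalIntegrable _ _)
    (fun _ hx => stp_pos hx.1) h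

lemma ramp_tangent (a b : ℝ) : ramp a + stp a * (b - a) ≤ ramp b := by
  rcases lt_trichotomy a b with h | rfl | h
  · have := ramp_convex.le_slope_of_hasDerivAt (mem_univ a) (mem_univ b) h (ramp_hasDerivAt a)
    rw [slope_def_field, le_div_iff₀ (sub_pos.2 h)] at this
    linarith
  · simp
  · have := ramp_convex.slope_le_of_hasDerivAt (mem_univ b) (mem_univ a) h (ramp_hasDerivAt a)
    rw [slope_def_field, div_le_iff₀ (sub_pos.2 h)] at this
    linarith

/-- The identity near zero, saturating near `1` and `-1`. -/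
noncomputable def GG (y : ℝ) : ℝ := y - ramp (20 * y - 16) / 20 + ramp (-20 * y - 16) / 20

/-- The derivative of `GG`. -/
noncomputable def gg (y : ℝ) : ℝ := 1 - stp (20 * y - 16) - stp (-20 * y - 16)

@[fun_prop] lemma GG_smooth : ContDiff ℝ ∞ GG := by unfold GG; fun_prop
@[fun_prop] lemma gg_smooth : ContDiff ℝ ∞ gg := by unfold gg; fun_prop

lemma GG_deriv (y : ℝ) : HasDerivAt GG (gg y) y := by
  have h1 := (ramp_hasDerivAt (20 * y - 16)).comp y (((hasDerivAt_id y).const_mul 20).sub_const 16)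
  have h2 := (ramp_hasDerivAt (-20 * y - 16)).comp y
    (((hasDerivAt_id y).const_mul (-20)).sub_const 16)
  exact (((hasDerivAt_id y).sub (h1.div_const 20)).add (h2.div_const 20)).congr_deriv
    (by unfold gg; ring)

lemma GG_neg (y : ℝ) : GG (-y) = -GG y := by
  unfold GG; rw [show 20 * -y - 16 = -20 * y - 16 by ring, show -20 * -y - 16 = 20 * y - 16 by ring]
  ring

lemma gg_neg (y : ℝ) : gg (-y) = gg y := by
  unfold gg; rw [show 20 * -y - 16 = -20 * y - 16 by ring, show -20 * -y - 16 = 20 * y - 16 by ring]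
  ring

lemma GG_mid {y : ℝ} (h : |y| ≤ 3 / 4) : GG y = y := by
  rw [abs_le] at h
  unfold GG; rw [ramp_of_le (by linarith), ramp_of_le (by linarith)]; ring

lemma gg_mid {y : ℝ} (h : |y| ≤ 3 / 4) : gg y = 1 := by
  rw [abs_le] at h
  unfold gg; rw [stp_zero (by linarith), stp_zero (by linarith)]; ring

lemma GG_top {y : ℝ} (h : 17 / 20 ≤ y) : GG y = 4 / 5 := by
  unfold GG; rw [ramp_of_ge (by linarith), ramp_of_le (by linarith)]; ring

lemma gg_top {y : ℝ} (h : 17 / 20 ≤ y) : gg y = 0 := by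
  unfold gg; rw [stp_one (by linarith), stp_zero (by linarith)]; ring

lemma gg_abs (y : ℝ) : gg y = 1 - stp (20 * |y| - 16) := by
  rcases abs_cases y with ⟨h, h'⟩ | ⟨h, h'⟩
  · rw [h, gg, stp_zero (t := -20 * y - 16) (by linarith), sub_zero]
  · rw [h, ← gg_neg, gg, stp_zero (t := -20 * -y - 16) (by linarith), sub_zero]

lemma gg_nonneg (y : ℝ) : 0 ≤ gg y := by rw [gg_abs]; linarith [stp_le_one (20 * |y| - 16)]

lemma gg_pos {y : ℝ} (h : |y| < 17 / 20) : 0 < gg y := by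
  rw [gg_abs]; linarith [stp_lt_one (t := 20 * |y| - 16) (by linarith)]

lemma GG_ineq {y y₀ : ℝ} (h : 0 ≤ y₀ * y) : y₀ * (GG y - GG y₀) ≤ gg y₀ * (y₀ * (y - y₀)) := by
  have key : ∀ y y₀ : ℝ, 0 < y₀ → 0 ≤ y → y₀ * (GG y - GG y₀) ≤ gg y₀ * (y₀ * (y - y₀)) := by
    intro y y₀ h0 h1
    have := ramp_tangent (20 * y₀ - 16) (20 * y - 16)
    unfold GG gg
    rw [ramp_of_le (s := -20 * y - 16) (by linarith), ramp_of_le (s := -20 * y₀ - 16) (by linarith),
      stp_zero (t := -20 * y₀ - 16) (by linarith)]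
    nlinarith
  rcases lt_trichotomy y₀ 0 with h0 | rfl | h0
  · have := key (-y) (-y₀) (by linarith) (by nlinarith)
    rw [GG_neg, GG_neg, gg_neg] at this
    linarith
  · simp
  · exact key y y₀ h0 (nonneg_of_mul_nonneg_right h h0)

lemma normal_ne {c s : ℝ} (h : c ^ 2 + s ^ 2 = 1) : 0 < gg c * s ^ 2 + gg s * c ^ 2 := by
  have h1 := mul_nonneg (gg_nonneg c) (sq_nonneg s)
  have h2 := mul_nonneg (gg_nonneg s) (sq_nonneg c)
  rcases le_total (c ^ 2) (s ^ 2) with h3 | h3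
  · rw [gg_mid (y := c) (abs_le_of_sq_le_sq' (by nlinarith) (by norm_num) |> abs_le.2)]; nlinarith
  · rw [gg_mid (y := s) (abs_le_of_sq_le_sq' (by nlinarith) (by norm_num) |> abs_le.2)]; nlinarith

lemma isLocalMax_of {h : ℝ → ℝ} {t : ℝ} (H : ∀ᶠ s in 𝓝[≠] t, h s < h t) : IsLocalMax h t := by
  filter_upwards [eventually_nhdsWithin_iff.1 H] with s hs
  rcases eq_or_ne s t with rfl | e
  exacts [le_rfl, (hs e).le]

lemma sat {c : ℝ → ℝ} {d t : ℝ} (hc : HasDerivAt c d t) (h1 : c t ^ 2 + d ^ 2 = 1)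
    (h2 : gg (c t) = 0) : ∃ᶠ s in 𝓝[≠] t, GG (c s) = GG (c t) := by
  have key : ∀ (c : ℝ → ℝ) (d : ℝ), HasDerivAt c d t → c t ^ 2 + d ^ 2 = 1 → 17 / 20 ≤ c t →
      ∃ᶠ s in 𝓝[≠] t, GG (c s) = GG (c t) := by
    intro c d hc h1 h2
    refine Frequently.mono (p := fun s => 17 / 20 ≤ c s) ?_ fun s hs => by rw [GG_top hs, GG_top h2]
    rcases h2.lt_or_eq with h | h
    · exact ((hc.continuousAt.eventually (lt_mem_nhds h)).mono fun _ => le_of_lt).filter_mono
        nhdsWithin_le_nhds |>.frequently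
    · intro h3
      have := (isLocalMax_of (h := c) (h3.mono fun s hs => by
        rw [← h]; exact not_le.1 hs)).hasDerivAt_eq_zero hc
      rw [this, ← h] at h1
      norm_num at h1
  have h3 : 17 / 20 ≤ |c t| := not_lt.1 fun h => (gg_pos h).ne' h2
  rcases le_abs'.1 h3 with h | h
  · refine (key (fun s => -c s) (-d) hc.neg (by simpa using h1) (by linarith)).mono fun s hs => ?_
    simpa [GG_neg] using hs
  · exact key c d hc h1 h

lemma curve_ineq {c s c' s' : ℝ} (h1 : 0 ≤ c * c') (h2 : 0 ≤ s * s') (h : c ^ 2 + s ^ 2 = 1) :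
    gg c * s * (GG s' - GG s) + gg s * c * (GG c' - GG c) ≤ gg c * gg s * (c * c' + s * s' - 1) := by
  have a1 := mul_le_mul_of_nonneg_left (GG_ineq h2) (gg_nonneg c)
  have a2 := mul_le_mul_of_nonneg_left (GG_ineq h1) (gg_nonneg s)
  rw [← h]
  nlinarith

lemma curve_crit {α β t : ℝ} (H : ∀ᶠ s in 𝓝[≠] t,
    α * GG (sin s) + β * GG (cos s) < α * GG (sin t) + β * GG (cos t)) :
    ∃ μ, 0 < μ ∧ 0 < gg (cos t) ∧ 0 < gg (sin t) ∧ α = μ * (gg (cos t) * sin t) ∧
      β = μ * (gg (sin t) * cos t) := by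
  have d := (isLocalMax_of H).hasDerivAt_eq_zero
    ((((GG_deriv _).comp t (hasDerivAt_sin t)).const_mul α).add
      (((GG_deriv _).comp t (hasDerivAt_cos t)).const_mul β))
  have h0 := normal_ne (cos_sq_add_sin_sq t)
  obtain ⟨μ, h1, h2⟩ : ∃ μ, α = μ * (gg (cos t) * sin t) ∧ β = μ * (gg (sin t) * cos t) := by
    refine ⟨(α * sin t + β * cos t) / (gg (cos t) * sin t ^ 2 + gg (sin t) * cos t ^ 2), ?_, ?_⟩
    · rw [div_mul_eq_mul_div, eq_div_iff h0.ne']; linear_combination cos t * d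
    · rw [div_mul_eq_mul_div, eq_div_iff h0.ne']; linear_combination -sin t * d
  have sg : ∀ f : ℝ → ℝ, Continuous f → ∀ᶠ s in 𝓝[≠] t, 0 ≤ f t * f s := fun f hf => by
    rcases eq_or_ne (f t) 0 with h | h
    · simp [h]
    · exact (((continuous_const.mul hf).continuousAt.eventually
        (lt_mem_nhds (mul_self_pos.2 h))).mono fun _ => le_of_lt).filter_mono nhdsWithin_le_nhds
  refine ⟨μ, not_le.1 fun hμ => ?_, (gg_nonneg _).lt_of_ne' fun h => ?_,
    (gg_nonneg _).lt_of_ne' fun h => ?_, h1, h2⟩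
  · obtain ⟨s, a1, a2, a3⟩ := (H.and ((sg _ continuous_cos).and (sg _ continuous_sin))).exists
    have a4 := curve_ineq a2 a3 (cos_sq_add_sin_sq t)
    have a5 : cos t * cos s + sin t * sin s - 1 ≤ 0 := by rw [← cos_sub]; linarith [cos_le_one (t - s)]
    have a6 := mul_nonneg_of_nonpos_of_nonpos hμ (a4.trans (mul_nonpos_of_nonneg_of_nonpos
      (mul_nonneg (gg_nonneg _) (gg_nonneg _)) a5))
    rw [h1, h2] at a1
    nlinarith
  · obtain ⟨s, a1, a2⟩ := ((sat (hasDerivAt_cos t) (by simp) h).and_eventually H).exists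
    rw [h1, h, a1] at a2
    simp at a2
  · obtain ⟨s, a1, a2⟩ := ((sat (hasDerivAt_sin t) (by simp) h).and_eventually H).exists
    rw [h2, h, a1] at a2
    simp at a2

lemma curve_unique {α β t t' : ℝ} (H : ∀ᶠ s in 𝓝[≠] t,
    α * GG (sin s) + β * GG (cos s) < α * GG (sin t) + β * GG (cos t)) (H' : ∀ᶠ s in 𝓝[≠] t',
    α * GG (sin s) + β * GG (cos s) < α * GG (sin t') + β * GG (cos t')) :
    cos t = cos t' ∧ sin t = sin t' := by
  obtain ⟨μ, a1, a2, a3, a4, a5⟩ := curve_crit H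
  obtain ⟨μ', b1, b2, b3, b4, b5⟩ := curve_crit H'
  have sg : ∀ x y k k' : ℝ, 0 < k → 0 < k' → k * x = k' * y → 0 ≤ x * y := fun x y k k' h h' e => by
    have : k * (x * y) = k' * (y * y) := by rw [← mul_assoc, e, mul_assoc]
    exact nonneg_of_mul_nonneg_right (this ▸ mul_nonneg h'.le (mul_self_nonneg y)) h
  have s1 := sg (sin t) (sin t') _ _ (mul_pos a1 a2) (mul_pos b1 b2) (by linarith)
  have s2 := sg (cos t) (cos t') _ _ (mul_pos a1 a3) (mul_pos b1 b3) (by linarith)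
  have c1 := mul_le_mul_of_nonneg_left (curve_ineq s2 s1 (cos_sq_add_sin_sq t)) a1.le
  have c2 := mul_le_mul_of_nonneg_left (curve_ineq (c := cos t') (c' := cos t) (s := sin t')
    (s' := sin t) (by linarith) (by linarith) (cos_sq_add_sin_sq t')) b1.le
  have c3 : 0 ≤ (μ * (gg (cos t) * gg (sin t)) + μ' * (gg (cos t') * gg (sin t'))) *
      (cos t * cos t' + sin t * sin t' - 1) := by
    have e1 : μ * (gg (cos t) * sin t * (GG (sin t') - GG (sin t)) +
      gg (sin t) * cos t * (GG (cos t') - GG (cos t))) =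
      α * (GG (sin t') - GG (sin t)) + β * (GG (cos t') - GG (cos t)) := by rw [a4, a5]; ring
    have e2 : μ' * (gg (cos t') * sin t' * (GG (sin t) - GG (sin t')) +
      gg (sin t') * cos t' * (GG (cos t) - GG (cos t'))) =
      α * (GG (sin t) - GG (sin t')) + β * (GG (cos t) - GG (cos t')) := by rw [b4, b5]; ring
    nlinarith
  have c4 := nonneg_of_mul_nonneg_right c3 (by positivity)
  have := cos_sq_add_sin_sq t
  have := cos_sq_add_sin_sq t'
  constructor <;> nlinarith [sq_nonneg (cos t - cos t'), sq_nonneg (sin t - sin t')]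

lemma harmonic_pos {P Q t : ℝ} (H : ∀ᶠ s in 𝓝[≠] t, P * cos s + Q * sin s < P * cos t + Q * sin t) :
    0 < P * cos t + Q * sin t := by
  have d := (isLocalMax_of H).hasDerivAt_eq_zero
    (((hasDerivAt_cos t).const_mul P).add ((hasDerivAt_sin t).const_mul Q))
  obtain ⟨s, hs⟩ := H.exists
  have e : P * cos s + Q * sin s = (P * cos t + Q * sin t) * cos (s - t) := by
    rw [cos_sub]
    linear_combination (sin s * cos t - cos s * sin t) * d -
      (P * cos s + Q * sin s) * cos_sq_add_sin_sq t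
  by_contra h
  nlinarith [cos_le_one (s - t)]

/-- The speed of the centre of the handle. -/
noncomputable def ph (s : ℝ) : ℝ := ramp (-s) * stp s + stp (-s) * ramp s

@[fun_prop] lemma ph_smooth : ContDiff ℝ ∞ ph := by unfold ph; fun_prop

lemma ph_pos {s : ℝ} (h : s ∈ Ioo (-1 : ℝ) 1) : 0 < ph s :=
  add_pos_of_pos_of_nonneg (mul_pos (ramp_pos (by linarith [h.2])) (stp_pos h.1))
    (mul_nonneg (stp_nonneg _) (ramp_nonneg _))

lemma ph_lo {s : ℝ} (h : s ≤ -1) : ph s = 0 := by simp [ph, stp_zero h, ramp_of_le h]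

lemma ph_hi {s : ℝ} (h : 1 ≤ s) : ph s = 0 := by
  simp [ph, stp_zero (neg_le_neg h), ramp_of_le (neg_le_neg h)]

/-- The position of the centre of the handle. -/
noncomputable def SS (s : ℝ) : ℝ := (∫ t in (-1 : ℝ)..s, ph t) / ∫ t in (-1 : ℝ)..1, ph t

lemma SS_deriv (s : ℝ) : HasDerivAt SS (ph s / ∫ t in (-1 : ℝ)..1, ph t) s :=
  (ph_smooth.continuous.integral_hasStrictDerivAt (-1) s).hasDerivAt.div_const _

@[fun_prop] lemma SS_smooth : ContDiff ℝ ∞ SS := by
  rw [contDiff_infty_iff_deriv, funext fun s => (SS_deriv s).deriv]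
  exact ⟨fun s => (SS_deriv s).differentiableAt, ph_smooth.div_const _⟩

lemma SS_lo {s : ℝ} (h : s ≤ -1) : SS s = 0 := by
  rw [SS, intervalIntegral.integral_congr (g := fun _ => 0) fun t ht => ph_lo (by
    rw [uIcc_of_ge h] at ht; exact ht.2)]
  simp

lemma SS_hi {s : ℝ} (h : 1 ≤ s) : SS s = 1 := by
  have c := ph_smooth.continuous
  rw [SS, ← intervalIntegral.integral_add_adjacent_intervals (b := 1) (c.intervalIntegrable _ _)
    (c.intervalIntegrable _ _), intervalIntegral.integral_congr (a := 1) (g := fun _ => 0)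
    fun t ht => ph_hi (by rw [uIcc_of_le h] at ht; exact ht.1)]
  simp [(intervalIntegral.intervalIntegral_pos_of_pos_on (c.intervalIntegrable _ _)
    (fun _ => ph_pos) (by norm_num)).ne']

lemma handle_no_max {D q p t : ℝ} (H : ∀ᶠ s in 𝓝[≠] t,
    D * SS s + ramp (-s) * q + ramp s * p < D * SS t + ramp (-t) * q + ramp t * p) :
    ramp (-t) * q + ramp t * p ≤ 0 := by
  obtain ⟨D', d1⟩ : ∃ D', ∀ s, HasDerivAt (fun s => D * SS s + ramp (-s) * q + ramp s * p)
      (D' * ph s + (-stp (-s) * q + stp s * p)) s :=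
    ⟨D / ∫ t in (-1 : ℝ)..1, ph t, fun s => ((((SS_deriv s).const_mul D).add
      (((ramp_hasDerivAt (-s)).comp s (hasDerivAt_neg s)).mul_const q)).add
      ((ramp_hasDerivAt s).mul_const p)).congr_deriv (by ring)⟩
  have d0 := (isLocalMax_of H).hasDerivAt_eq_zero (d1 t)
  rcases le_or_gt t (-1) with h1 | h1
  · rw [ph_lo h1, stp_zero h1, stp_one (by linarith)] at d0
    rw [ramp_of_le h1, show q = 0 by linarith]; simp
  rcases le_or_gt 1 t with h2 | h2
  · rw [ph_hi h2, stp_one h2, stp_zero (by linarith)] at d0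
    rw [ramp_of_le (s := -t) (by linarith), show p = 0 by linarith]; simp
  by_contra hg
  have ds : ∀ s, HasDerivAt stp (deriv stp s) s := fun s =>
    (stp_smooth.differentiable (by simp) s).hasDerivAt
  have d2 : ∀ s ∈ Ioo (-1 : ℝ) 1, HasDerivAt (fun s => D' + (-stp (-s) * q + stp s * p) / ph s)
      ((deriv stp (-s) * stp s + stp (-s) * deriv stp s) * (ramp (-s) * q + ramp s * p) /
        ph s ^ 2) s := fun s hs => by
    have a1 := (ds (-s)).comp s (hasDerivAt_neg s)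
    have a2 := (ramp_hasDerivAt (-s)).comp s (hasDerivAt_neg s)
    refine ((((a1.neg.mul_const q).add ((ds s).mul_const p)).div
      ((a2.mul (ds s)).add (a1.mul (ramp_hasDerivAt s))) (ph_pos hs).ne').const_add D').congr_deriv ?_
    simp only [Function.comp_apply, Pi.add_apply, Pi.mul_apply, Pi.neg_apply, ph]
    congr 1; ring
  have ev : ∀ᶠ s in 𝓝 t, s ∈ Ioo (-1 : ℝ) 1 ∧ 0 < ramp (-s) * q + ramp s * p :=
    Filter.Eventually.and (Ioo_mem_nhds h1 h2) ((show Continuous fun s =>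
      ramp (-s) * q + ramp s * p by fun_prop).continuousAt.eventually (lt_mem_nhds (not_le.1 hg)))
  obtain ⟨u, hu, h3⟩ := (mem_nhdsGE_iff_exists_Icc_subset).1 (mem_nhdsWithin_of_mem_nhds
    (t := Ici t) (ev.and (eventually_nhdsWithin_iff.1 H)))
  have m1 : MonotoneOn (fun s => D' + (-stp (-s) * q + stp s * p) / ph s) (Icc t u) :=
    monotoneOn_of_hasDerivWithinAt_nonneg (convex_Icc t u)
      (fun s hs => (d2 s (h3 hs).1.1).continuousAt.continuousWithinAt)
      (fun s hs => (d2 s (h3 (interior_subset hs)).1.1).hasDerivWithinAt) fun s hs =>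
      div_nonneg (mul_nonneg (add_nonneg (mul_nonneg stp_mono.deriv_nonneg (stp_nonneg _))
        (mul_nonneg (stp_nonneg _) stp_mono.deriv_nonneg)) (h3 (interior_subset hs)).1.2.le)
        (sq_nonneg _)
  have m2 : MonotoneOn (fun s => D * SS s + ramp (-s) * q + ramp s * p) (Icc t u) :=
    monotoneOn_of_hasDerivWithinAt_nonneg (convex_Icc t u)
      (fun s _ => (d1 s).continuousAt.continuousWithinAt)
      (fun s _ => (d1 s).hasDerivWithinAt) fun s hs => by
        have hs' := interior_subset hs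
        have a1 := m1 (left_mem_Icc.2 hu.le) hs' hs'.1
        have a2 := ph_pos (h3 hs').1.1
        have a3 := (ph_pos ⟨h1, h2⟩).ne'
        simp only at a1
        rw [show D' + (-stp (-t) * q + stp t * p) / ph t = 0 by field_simp; linarith] at a1
        have := mul_nonneg a1 a2.le
        rwa [add_mul, div_mul_cancel₀ _ a2.ne'] at this
  exact not_le.2 ((h3 (right_mem_Icc.2 hu.le)).2 hu.ne')
    (m2 (left_mem_Icc.2 hu.le) (right_mem_Icc.2 hu.le) hu.le)

/-- Uniqueness of strict local maxima gives the two-piece property. -/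
lemma tpp_of_unique {X V : Type} [TopologicalSpace X] [CompactSpace X] [T2Space X]
    [NormedAddCommGroup V] [InnerProductSpace ℝ V] {f : X → V} (hf : Continuous f)
    (h : ∀ v x y, (∀ᶠ z in 𝓝 x, f z ≠ f x → ⟪v, f z⟫ < ⟪v, f x⟫) →
      (∀ᶠ z in 𝓝 y, f z ≠ f y → ⟪v, f z⟫ < ⟪v, f y⟫) → x = y) (v : V) (c : ℝ) :
    IsPreconnected {x | c ≤ ⟪v, f x⟫} := by
  have cH : Continuous fun x => ⟪v, f x⟫ := by fun_prop
  have hK : IsClosed {x | c ≤ ⟪v, f x⟫} := isClosed_le continuous_const cH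
  rw [isPreconnected_closed_iff]
  intro u w hu hw cov ⟨a, ha⟩ ⟨b, hb⟩
  by_contra dis
  rw [not_nonempty_iff_eq_empty] at dis
  obtain ⟨O₁, O₂, o1, o2, s1, s2, d⟩ := normal_separation (hK.inter hu) (hK.inter hw)
    (disjoint_iff_inter_eq_empty.2 (by rw [← dis]; ext x; simp only [mem_inter_iff]; tauto))
  obtain ⟨N₁, n1, n2, n3⟩ := normal_exists_closure_subset (hK.inter hu) o1 s1
  obtain ⟨N₂, m1, m2, m3⟩ := normal_exists_closure_subset (hK.inter hw) o2 s2
  obtain ⟨γ, hγ, gap⟩ : ∃ γ > 0, ∀ x ∈ (N₁ ∪ N₂)ᶜ, ⟪v, f x⟫ + γ ≤ c := by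
    rcases (N₁ ∪ N₂)ᶜ.eq_empty_or_nonempty with he | hne
    · exact ⟨1, one_pos, by simp [he]⟩
    obtain ⟨x, hx, hm⟩ := (n1.union m1).isClosed_compl.isCompact.exists_isMaxOn hne cH.continuousOn
    refine ⟨c - ⟪v, f x⟫, sub_pos.2 (not_le.1 fun h3 => hx ?_),
      fun y hy => by linarith [isMaxOn_iff.1 hm y hy]⟩
    exact (cov h3).imp (fun h => n2 ⟨h3, h⟩) fun h => m2 ⟨h3, h⟩
  obtain ⟨R, hR⟩ := isCompact_univ.exists_bound_of_continuousOn hf.continuousOn
  have hR0 : 0 ≤ R := (norm_nonneg _).trans (hR a trivial)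
  set δ := γ / (8 * R ^ 2 + 1) with hδ
  have hδ0 : 0 < δ := by positivity
  have hδ1 : δ * (8 * R ^ 2 + 1) = γ := by rw [hδ]; field_simp
  obtain ⟨⟨p₁, p₂⟩, hp, hm⟩ := (isClosed_closure.isCompact.prod
    isClosed_closure.isCompact).exists_isMaxOn
    ⟨(a, b), subset_closure (n2 ha), subset_closure (m2 hb)⟩
    (f := fun q : X × X => ⟪v, f q.1 + f q.2⟫ + δ * ‖f q.1 + f q.2‖ ^ 2) (by fun_prop)
  have key : ∀ (N : Set X) (p a : X) (r : V), IsOpen N → ‖r‖ ≤ R → a ∈ N → c ≤ ⟪v, f a⟫ →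
      (p ∉ N → p ∈ (N₁ ∪ N₂)ᶜ) → (∀ y ∈ N, ⟪v, f y + r⟫ + δ * ‖f y + r‖ ^ 2 ≤
        ⟪v, f p + r⟫ + δ * ‖f p + r‖ ^ 2) → ∀ᶠ z in 𝓝 p, f z ≠ f p →
        ⟪v + (2 * δ) • (f p + r), f z⟫ < ⟪v + (2 * δ) • (f p + r), f p⟫ := by
    intro N p a r oN hr ha hc hp hm
    have hpN : p ∈ N := by_contra fun h1 => by
      have h2 := gap p (hp h1)
      have h3 := hm a ha
      have h4 : ‖f p + r‖ ≤ 2 * R := (norm_add_le _ _).trans (by linarith [hR p trivial])
      have h5 : ‖f p + r‖ ^ 2 ≤ (2 * R) ^ 2 := by gcongr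
      rw [inner_add_right, inner_add_right] at h3
      nlinarith [sq_nonneg ‖f a + r‖, sq_nonneg R]
    filter_upwards [oN.mem_nhds hpN] with z hz hne
    have h1 := hm z hz
    have h2 : 0 < ‖f z - f p‖ ^ 2 := by have := norm_pos_iff.2 (sub_ne_zero.2 hne); positivity
    rw [show f z + r = (f p + r) + (f z - f p) by abel, norm_add_sq_real, inner_add_right v,
      inner_sub_right, inner_sub_right] at h1
    simp only [inner_add_left v, real_inner_smul_left]
    nlinarith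
  have k1 := key N₁ p₁ a (f p₂) n1 (hR _ trivial) (n2 ha) ha.1 (fun h1 h2 => h2.elim h1 fun h3 =>
    d.notMem_of_mem_left (n3 hp.1) (m3 (subset_closure h3))) fun y hy =>
    isMaxOn_iff.1 hm (y, p₂) ⟨subset_closure hy, hp.2⟩
  have k2 := key N₂ p₂ b (f p₁) m1 (hR _ trivial) (m2 hb) hb.1 (fun h1 h2 => h2.elim (fun h3 =>
    d.notMem_of_mem_left (n3 (subset_closure h3)) (m3 hp.2)) h1) fun y hy => by
    simpa only [add_comm (f p₁)] using isMaxOn_iff.1 hm (p₁, y) ⟨hp.1, subset_closure hy⟩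
  rw [add_comm (f p₂)] at k2
  have e : p₁ = p₂ := h _ _ _ k1 k2
  have e1 : p₁ ∈ O₁ := n3 hp.1
  have e2 : p₂ ∈ O₂ := m3 hp.2
  exact d.notMem_of_mem_left e1 (e ▸ e2)

end Pool.Agent.P.MP_c88051_gt
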