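import Pool.Agent.P.MP_c88051_gt.Bundle

/-! A circle bundle whose transition function is a sixth power carries a mod six class that is
one on the fibre. -/

open Set Filter Topology Real

namespace Pool.Agent.P.MP_c88051_gt

open Pool.Agent.Lib.Helper83 Complex

/-- A primitive sixth root of unity. -/
noncomputable def zeta : ℂ := exp (2 * π * I / (6 : ℕ))

lemma zeta_prim : IsPrimitiveRoot zeta 6 := isPrimitiveRoot_exp 6 (by norm_num)

open Classical in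
/-- Discrete logarithm. -/
noncomputable def dl (u : ℂ) : ZMod 6 := if h : ∃ i : ℕ, zeta ^ i = u then (h.choose : ZMod 6) else 0

lemma dl_pow (i : ℕ) : dl (zeta ^ i) = i := by
  have h : ∃ j : ℕ, zeta ^ j = zeta ^ i := ⟨i, rfl⟩
  rw [dl, dif_pos h, ZMod.natCast_eq_natCast_iff, zeta_prim.eq_orderOf]
  exact (zeta_prim.isOfFinOrder (by norm_num)).pow_eq_pow_iff_modEq.1 h.choose_spec

lemma dl_mul {u v : ℂ} (hu : u ^ 6 = 1) (hv : v ^ 6 = 1) : dl (u * v) = dl u + dl v := by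
  obtain ⟨i, -, rfl⟩ := zeta_prim.eq_pow_of_pow_eq_one hu
  obtain ⟨j, -, rfl⟩ := zeta_prim.eq_pow_of_pow_eq_one hv
  rw [← pow_add, dl_pow, dl_pow, dl_pow, Nat.cast_add]

lemma dl_sub {a b r c : ℂ} (hc : c ≠ 0) (ha : a ^ 6 = c) (hb : b ^ 6 = c) (hr : r ^ 6 = c) :
    dl (a / r) - dl (b / r) = dl (a / b) := by
  have hb0 : b ≠ 0 := by rintro rfl; exact hc (by simpa using hb.symm)
  rw [sub_eq_iff_eq_add, ← dl_mul (by rw [div_pow, ha, hb, div_self hc])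
    (by rw [div_pow, hb, hr, div_self hc]), div_mul_div_cancel₀ hb0]

lemma ev_const {X : Type} [TopologicalSpace X] {q : X → ℂ} {x : X} (hq : ContinuousAt q x)
    (h : ∀ᶠ y in 𝓝 x, q y ^ 6 = 1) : ∀ᶠ y in 𝓝 x, q y = q x := by
  have hf : ({u : ℂ | u ^ 6 = 1} \ {q x}).Finite := by
    refine ((finite_lt_nat 6).image fun i => zeta ^ i).subset fun u hu => ?_
    exact zeta_prim.eq_pow_of_pow_eq_one hu.1
  filter_upwards [h, hq.preimage_mem_nhds (hf.isClosed.isOpen_compl.mem_nhds fun h => h.2 rfl)]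
    with y h1 h2
  by_contra h3
  exact h2 ⟨h1, h3⟩

lemma exp_log_six {u : ℂ} (hu : u ≠ 0) : exp (log u / 6) ^ 6 = u := by
  rw [← Complex.exp_nat_mul, Nat.cast_ofNat, mul_div_cancel₀ _ (by norm_num), Complex.exp_log hu]

lemma local_root {X : Type} [TopologicalSpace X] {Θ : X → ℂ} {O : Set X} (hO : IsOpen O)
    (hΘ : ContinuousOn Θ O) {x : X} (hx : x ∈ O) (h0 : Θ x ≠ 0) :
    ∃ N, IsOpen N ∧ x ∈ N ∧ N ⊆ O ∧ ∃ r : X → ℂ, ContinuousOn r N ∧ ∀ y ∈ N, r y ^ 6 = Θ y := by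
  have h1 : ContinuousOn (fun y => Θ y / Θ x) O := hΘ.div_const _
  refine ⟨_, h1.isOpen_inter_preimage hO isOpen_slitPlane, ⟨hx, by simp [h0]⟩, inter_subset_left,
    fun y => exp (log (Θ x) / 6) * exp (log (Θ y / Θ x) / 6), continuousOn_const.mul
      (((h1.mono inter_subset_left).clog fun y hy => hy.2).div_const _).cexp, fun y hy => ?_⟩
  rw [mul_pow, exp_log_six h0, exp_log_six (slitPlane_ne_zero hy.2), mul_div_cancel₀ _ h0]

variable {R : Type} [CommRing R] {A : Type} [AddCommGroup A] [Module R A]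
  {T S : Type} [TopologicalSpace T] [TopologicalSpace S] [Nonempty T]

theorem CB.exists_root_coc (B : CB T S) {V₁ V₂ : Set S} (o₁ : IsOpen V₁) (o₂ : IsOpen V₂)
    (cov : ∀ x, x ∉ V₁ → x ∈ V₂) {Θ₁ Θ₂ : T → ℂ} (a₁ : B.Ang V₁ Θ₁) (a₂ : B.Ang V₂ Θ₂) {h : S → ℂ}
    (ch : ContinuousOn h (V₁ ∩ V₂))
    (hh : ∀ y, B.p y ∈ V₁ ∩ V₂ → Θ₁ y = h (B.p y) ^ 6 * Θ₂ y) (χ : ZMod 6 →+ A) :
    ∃ ω : Ch R T →ₗ[R] A, IsCoc ω univ ∧ ∀ y, ω (B.loop R y) = χ 1 := by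
  classical
  let Θ : T → ℂ := fun y => if B.p y ∈ V₁ then Θ₁ y else Θ₂ y
  have Θ0 : ∀ y, Θ y ≠ 0 := fun y => by
    simp only [Θ]; split_ifs with h
    exacts [a₁.ne y h, a₂.ne y (cov _ h)]
  have Θr : ∀ (θ : ℝ) y, Θ (B.rot θ y) = exp (θ * I) * Θ y := fun θ y => by
    simp only [Θ, B.p_rot, a₁.rot, a₂.rot, mul_ite]
  let ρ : T → ℂ := fun y => exp (log (Θ y) / 6)
  have ρ6 : ∀ y, ρ y ^ 6 = Θ y := fun y => exp_log_six (Θ0 y)
  let η : S → ℂ := fun x => if x ∈ V₁ then h x else 1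
  have cη : ∀ y, B.p y ∈ V₁ ∩ V₂ → ContinuousAt (fun y => η (B.p y)) y := fun y hy => by
    refine ContinuousAt.comp (g := η) ?_ B.cp.continuousAt
    refine (ch.continuousAt ((o₁.inter o₂).mem_nhds hy)).congr ?_
    filter_upwards [o₁.mem_nhds hy.1] with x hx
    exact (if_pos hx).symm
  have loc : ∀ y₀ : T, ∃ N, IsOpen N ∧ y₀ ∈ N ∧ ∃ r w : T → ℂ, ContinuousOn r N ∧
      (∀ y ∈ N, w y ^ 6 = Θ y) ∧ ((N ⊆ B.p ⁻¹' V₁ ∧ w = r) ∨
        (N ⊆ B.p ⁻¹' V₂ ∧ w = fun y => r y * η (B.p y))) := fun y₀ => by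
    by_cases h0 : B.p y₀ ∈ V₁
    · obtain ⟨N, h1, h2, h3, r, h4, h5⟩ := local_root (o₁.preimage B.cp) a₁.cont h0 (a₁.ne _ h0)
      exact ⟨N, h1, h2, r, r, h4, fun y hy => (h5 y hy).trans (if_pos (h3 hy)).symm,
        Or.inl ⟨h3, rfl⟩⟩
    · obtain ⟨N, h1, h2, h3, r, h4, h5⟩ := local_root (o₂.preimage B.cp) a₂.cont (cov _ h0)
        (a₂.ne _ (cov _ h0))
      refine ⟨N, h1, h2, r, _, h4, fun y hy => ?_, Or.inr ⟨h3, rfl⟩⟩
      simp only [η, Θ, mul_pow, h5 y hy]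
      split_ifs with h6
      · rw [hh y ⟨h6, h3 hy⟩, mul_comm]
      · simp
  choose N n1 n2 r w cr w6 hw using loc
  have w0 : ∀ i, ∀ y ∈ N i, w i y ≠ 0 := fun i y hy h0 => Θ0 y (by rw [← w6 i y hy, h0]; simp)
  have ca : ∀ i, ∀ y ∈ N i, ContinuousAt (r i) y := fun i y hy =>
    (cr i).continuousAt ((n1 i).mem_nhds hy)
  have rat : ∀ i j, ∀ y ∈ N i ∩ N j, ContinuousAt (fun y => w i y / w j y) y := by
    intro i j y hy
    have h0 := w0 j y hy.2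
    rcases hw i with ⟨h1, e1⟩ | ⟨h1, e1⟩ <;> rcases hw j with ⟨h2, e2⟩ | ⟨h2, e2⟩
    · rw [e2] at h0; rw [e1, e2]
      exact (ca i y hy.1).div (ca j y hy.2) h0
    · rw [e2] at h0; rw [e1, e2]
      exact (ca i y hy.1).div ((ca j y hy.2).mul (cη y ⟨h1 hy.1, h2 hy.2⟩)) h0
    · rw [e2] at h0; rw [e1, e2]
      exact ((ca i y hy.1).mul (cη y ⟨h2 hy.2, h1 hy.1⟩)).div (ca j y hy.2) h0
    · refine ((ca i y hy.1).div (ca j y hy.2) (by
        rw [e2] at h0; exact left_ne_zero_of_mul h0)).congr ?_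
      filter_upwards [(n1 j).mem_nhds hy.2] with y' hy'
      have := w0 j y' hy'
      rw [e2] at this
      rw [e1, e2]
      exact (mul_div_mul_right _ _ (right_ne_zero_of_mul this)).symm
  obtain ⟨ω, h1, h2⟩ := exists_coc (R := R) (S := univ) n1 (fun y _ => mem_iUnion.2 ⟨y, n2 y⟩)
    (fun i y => χ (dl (w i y / ρ y))) fun i j x hx => by
      have hn := ((n1 i).inter (n1 j)).mem_nhds ⟨hx.1.2, hx.2⟩
      filter_upwards [mem_nhdsWithin_of_mem_nhds hn, mem_nhdsWithin_of_mem_nhds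
        (ev_const (rat i j x ⟨hx.1.2, hx.2⟩) (mem_of_superset hn fun y hy => by
          show (w i y / w j y) ^ 6 = 1
          rw [div_pow, w6 i y hy.1, w6 j y hy.2, div_self (Θ0 y)]))] with y hy e
      rw [← map_sub, ← map_sub, dl_sub (Θ0 y) (w6 i y hy.1) (w6 j y hy.2) (ρ6 y), e,
        dl_sub (Θ0 x) (w6 i x hx.1.2) (w6 j x hx.2) (ρ6 x)]
  refine ⟨ω, h1, fun y₀ => ?_⟩
  have cg : Continuous fun θ => B.rot θ y₀ := B.crot.comp (continuous_id.prodMk continuous_const)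
  let W : ℝ → ℂ := fun θ => exp (θ * I / 6) * ρ y₀
  have W6 : ∀ θ, W θ ^ 6 = Θ (B.rot θ y₀) := fun θ => by
    rw [mul_pow, ρ6, Θr, ← Complex.exp_nat_mul, Nat.cast_ofNat, mul_div_cancel₀ _ (by norm_num)]
  have W0 : ∀ θ, W θ ≠ 0 := fun θ => mul_ne_zero (Complex.exp_ne_zero _) (Complex.exp_ne_zero _)
  have hp : IsPot (ω ∘ₗ push fun θ => B.rot θ y₀) univ
      fun θ => χ (dl (W θ / ρ (B.rot θ y₀))) := by
    refine (h1.pull cg.continuousOn (mapsTo_univ _ _)).of_local fun θ₀ _ => ?_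
    have hn := cg.continuousAt.preimage_mem_nhds ((n1 _).mem_nhds (n2 (B.rot θ₀ y₀)))
    have c1 : ContinuousAt (fun θ => w (B.rot θ₀ y₀) (B.rot θ y₀)) θ₀ := by
      have := (ca _ _ (n2 (B.rot θ₀ y₀))).comp (f := fun θ => B.rot θ y₀) cg.continuousAt
      rcases hw (B.rot θ₀ y₀) with ⟨-, e⟩ | ⟨-, e⟩
      · rw [e]; exact this
      · simp only [e, B.p_rot]; exact this.mul continuousAt_const
    obtain ⟨O, o1, o2, o3⟩ := mem_nhds_iff.1 (inter_mem hn (ev_const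
      (q := fun θ => W θ / w (B.rot θ₀ y₀) (B.rot θ y₀))
      (ContinuousAt.div (by simp only [W]; fun_prop) c1 (w0 _ _ (n2 _)))
      (mem_of_superset hn fun θ hθ => by
        show (W θ / w (B.rot θ₀ y₀) (B.rot θ y₀)) ^ 6 = 1
        rw [div_pow, W6, w6 _ _ hθ, div_self (Θ0 _)])))
    refine ⟨O, o2, o3, ((h2 (B.rot θ₀ y₀)).pull cg.continuousOn fun θ hθ =>
      ⟨trivial, (o1 hθ.2).1⟩).congr (χ (dl (W θ₀ / w (B.rot θ₀ y₀) (B.rot θ₀ y₀)))) fun θ hθ => ?_⟩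
    rw [← (o1 hθ.2).2, ← dl_sub (Θ0 _) (W6 θ) (w6 _ _ (o1 hθ.2).1) (ρ6 _), map_sub]
    simp
  have := hp.edge' (γ := fun t => 2 * π * t) (by fun_prop) (mapsTo_univ _ _)
  rw [CB.loop, this, ← map_sub, mul_one, mul_zero, B.rot_per, B.rot_zero,
    dl_sub (Θ0 y₀) (by rw [W6, B.rot_per]) (by rw [W6, B.rot_zero]) (ρ6 _)]
  have e : W (2 * π) / W 0 = zeta ^ 1 := by
    simp only [W, zeta]
    rw [mul_div_mul_right _ _ (Complex.exp_ne_zero _)]
    simp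
  rw [e, dl_pow, Nat.cast_one]

end Pool.Agent.P.MP_c88051_gt
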