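import Pool.Agent.P.MP_c88051_gt.Surf
import Pool.Agent.P.MP_c88051_gt.Root

/-! The normal Euler number of the surface is divisible by six. -/

open Set Topology Filter Real
open scoped ComplexConjugate
open Complex (I slitPlane)

namespace Pool.Agent.P.MP_c88051_gt

open Pool.Agent.P.MP_06bfdf_gt Pool.Agent.Lib.Helper83

section
variable {X : Type} [TopologicalSpace X] {P : X → ℂ → Prop} {N : Set X} {f g : X → ℂ}

/-- Continuous selections. -/
def Sel (P : X → ℂ → Prop) (N : Set X) : Prop := ∃ h, ContinuousOn h N ∧ ∀ x ∈ N, P x (h x)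

lemma Sel.iUnion {ι : Type} {N : ι → Set X} (o : ∀ i, IsOpen (N i))
    (d : ∀ i j x, x ∈ N i → x ∈ N j → i = j) (h : ∀ i, Sel P (N i)) : Sel P (⋃ i, N i) := by
  classical
  choose h h1 h2 using h
  let k : X → ℂ := fun x => if e : ∃ i, x ∈ N i then h e.choose x else 0
  have e : ∀ i, ∀ x ∈ N i, k x = h i x := fun i x hx => by
    have e : ∃ i, x ∈ N i := ⟨i, hx⟩
    simp only [k, dif_pos e, d _ _ x e.choose_spec hx]
  refine ⟨k, fun x hx => ?_, fun x hx => ?_⟩ <;> obtain ⟨i, hi⟩ := mem_iUnion.1 hx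
  · exact (((h1 i).congr (e i)).continuousAt ((o i).mem_nhds hi)).continuousWithinAt
  · rw [e i x hi]; exact h2 i x hi

lemma Sel.union {N N' : Set X} (o : IsOpen N) (o' : IsOpen N') (d : ∀ x ∈ N, x ∉ N')
    (h : Sel P N) (h' : Sel P N') : Sel P (N ∪ N') := by
  rw [union_eq_iUnion]
  refine Sel.iUnion (fun b => by cases b <;> assumption) (fun b c x hb hc => ?_)
    fun b => by cases b <;> assumption
  cases b <;> cases c
  exacts [rfl, (d x hc hb).elim, (d x hb hc).elim, rfl]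

/-- Existence of a continuous sixth root. -/
abbrev Rt (N : Set X) (g : X → ℂ) : Prop := Sel (fun x c => g x = c ^ 6) N

lemma Rt.congr (h : Rt N g) (e : ∀ x ∈ N, f x = g x) : Rt N f :=
  h.imp fun _ h => ⟨h.1, fun x hx => (e x hx).trans (h.2 x hx)⟩

lemma Rt.slit (hg : ContinuousOn g N) (h : ∀ x ∈ N, g x ∈ slitPlane) : Rt N g :=
  ⟨fun x => Complex.exp (Complex.log (g x) / 6), ((hg.clog h).div_const _).cexp,
    fun x hx => (exp_log_six (Complex.slitPlane_ne_zero (h x hx))).symm⟩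

lemma Rt.const (c : ℂ) : Rt N fun _ => c := by
  obtain ⟨r, hr⟩ := IsAlgClosed.exists_pow_nat_eq c (n := 6) (by norm_num)
  exact ⟨fun _ => r, continuousOn_const, fun _ _ => hr.symm⟩

lemma Rt.mul (hf : Rt N f) (hg : Rt N g) : Rt N fun x => f x * g x := by
  obtain ⟨a, a1, a2⟩ := hf
  obtain ⟨b, b1, b2⟩ := hg
  exact ⟨_, a1.mul b1, fun x hx => by simp only [a2 x hx, b2 x hx, Pi.mul_apply, mul_pow]⟩

lemma Rt.div (hf : Rt N f) (hg : Rt N g) (h0 : ∀ x ∈ N, g x ≠ 0) : Rt N fun x => f x / g x := by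
  obtain ⟨a, a1, a2⟩ := hf
  obtain ⟨b, b1, b2⟩ := hg
  exact ⟨_, a1.div b1 fun x hx h => h0 x hx (by simp [b2 x hx, h]),
    fun x hx => by simp only [a2 x hx, b2 x hx, Pi.div_apply, div_pow]⟩

lemma Rt.prod {ι : Type} (s : Finset ι) {g : ι → X → ℂ} (h : ∀ i ∈ s, Rt N (g i)) :
    Rt N fun x => ∏ i ∈ s, g i x := by
  classical
  induction s using Finset.induction_on with
  | empty => simpa using Rt.const 1
  | insert i s hi ih =>
    simp only [Finset.prod_insert hi]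
    exact (h i (by simp)).mul (ih fun j hj => h j (by simp [hj]))

lemma Rt.near {ζ : X → ℂ} {c : X → ℝ} (hζ : Continuous ζ) (hc : Continuous c) (j : Fin 6) (κ : ℂ)
    (h : ∀ x ∈ N, |(ζ x).re - cc j| < 1 / 50 ∧ 0 < c x ∧ ∏ k, (ζ x - cc k) ≠ 0) :
    Rt N fun x => κ * (c x * (ζ x - cc j)) / ∏ k, (ζ x - cc k) := by
  have e : ∀ x, ∏ k, (ζ x - cc k) = (ζ x - cc j) * ∏ k ∈ Finset.univ.erase j, (ζ x - cc k) :=
    fun x => (Finset.mul_prod_erase _ (fun k => ζ x - cc k) (Finset.mem_univ j)).symm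
  refine (((Rt.const κ).mul (Rt.slit (g := fun x => c x) (by fun_prop) fun x hx =>
    Or.inl (h x hx).2.1)).div (Rt.prod (Finset.univ.erase j) (g := fun k x => ζ x - cc k)
    fun k hk => ?_) fun x hx => right_ne_zero_of_mul (e x ▸ (h x hx).2.2)).congr fun x hx => ?_
  · rcases cc_sep (Finset.ne_of_mem_erase hk) with h1 | h1
    · exact Rt.slit (by fun_prop) fun x hx => Or.inl (by
        simp only [Complex.sub_re, Complex.ofReal_re]; linarith [(abs_lt.1 (h x hx).1).1])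
    · exact ((Rt.const (-1)).mul (Rt.slit (g := fun x => cc k - ζ x) (by fun_prop) fun x hx =>
        Or.inl (by simp only [Complex.sub_re, Complex.ofReal_re]
                   linarith [(abs_lt.1 (h x hx).1).2]))).congr fun x _ => by ring
  · have := left_ne_zero_of_mul (e x ▸ (h x hx).2.2)
    rw [e, ← mul_assoc, mul_comm _ (ζ x - cc j), mul_div_mul_left _ _ this]

lemma Rt.far {ζ : X → ℂ} {c : X → ℝ} (hζ : Continuous ζ) (hc : Continuous c)
    (h : ∀ x ∈ N, 4 / 25 < (ζ x).re ^ 2 + (ζ x).im ^ 2 ∧ 0 < c x ∧ ∏ k, (ζ x - cc k) ≠ 0) :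
    Rt N fun x => c x / ∏ k, (ζ x - cc k) := by
  have h1 : ∀ x ∈ N, 2 / 5 < ‖ζ x‖ := fun x hx => lt_of_pow_lt_pow_left₀ 2 (norm_nonneg _) (by
    rw [Complex.sq_norm, Complex.normSq_apply]; linarith [(h x hx).1])
  have h2 : ∀ x ∈ N, ζ x ≠ 0 := fun x hx => norm_pos_iff.1 (by linarith [h1 x hx])
  refine (Rt.slit (by fun_prop) fun x hx => Or.inl (h x hx).2.1).div ((Rt.mul
    (f := fun x => ζ x ^ 6) ⟨ζ, hζ.continuousOn, fun _ _ => rfl⟩ (Rt.prod Finset.univ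
    (g := fun k x => 1 + -cc k / ζ x) fun k _ => Rt.slit (continuousOn_const.add
    (continuousOn_const.div hζ.continuousOn h2)) fun x hx =>
    Complex.mem_slitPlane_of_norm_lt_one ?_)).congr fun x hx => ?_) fun x hx => (h x hx).2.2
  · rw [norm_div, norm_neg, Complex.norm_real, div_lt_one (by linarith [h1 x hx])]
    linarith [h1 x hx, show ‖cc k‖ ≤ 1 / 4 from abs_le.2 (cc_le k)]
  · rw [← Fin.prod_const, ← Finset.prod_mul_distrib]
    exact Finset.prod_congr rfl fun k _ => by field_simp [h2 x hx]; ring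

end

/-- Positive away from the region of the holes. -/
noncomputable def bb (y₁ y₂ x₁ x₂ : ℝ) : ℝ :=
  max 0 (max (max (1 / 2 - x₁) (1 / 2 - x₂)) (y₁ ^ 2 + y₂ ^ 2 - 4 / 25))

lemma bb_eq {y₁ y₂ x₁ x₂ : ℝ} : bb y₁ y₂ x₁ x₂ = 0 ↔
    1 / 2 ≤ x₁ ∧ 1 / 2 ≤ x₂ ∧ y₁ ^ 2 + y₂ ^ 2 ≤ 4 / 25 := by
  simp only [bb, max_eq_left_iff, max_le_iff, sub_nonpos, and_assoc]

lemma bb_zero {j : Fin 6} {y₁ y₂ x₁ x₂ : ℝ} (h1 : x₁ ^ 2 + y₁ ^ 2 = 1) (h2 : x₂ ^ 2 + y₂ ^ 2 = 1)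
    (h : chi j y₁ y₂ x₁ x₂ ≠ 0) : bb y₁ y₂ x₁ x₂ = 0 := by
  obtain ⟨a, b, c⟩ := chi_pos h1 h2 h
  have := cc_le j
  exact bb_eq.2 ⟨by linarith, by linarith, by nlinarith [sq_nonneg (y₁ - 2 * cc j)]⟩

noncomputable def be (x : EE) : ℝ := (1 - sg x) *
  (bb x.2.2.1.1.im x.2.2.1.2.im x.2.2.1.1.re x.2.2.1.2.re *
    bb x.2.2.1.1.re x.2.2.1.2.re x.2.2.1.1.im x.2.2.1.2.im)

@[fun_prop] lemma be_cont : Continuous be := by unfold be bb; fun_prop

/-- Transverse fields near the handles and far from them, and on the two flat regions. -/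
noncomputable def a1 (x : EE) : ℂ × ℂ :=
  ∑ j, (I * (x.2.2.2 j).2.2, -I * ka j * (x.2.2.2 j).2.1) + be x • ao x.2.2.1
noncomputable def a2 (x : EE) : ℂ × ℂ :=
  (I * ∏ k, ((⟨x.2.2.1.1.re, -x.2.2.1.2.re⟩ : ℂ) - cc k),
    -I * ∏ k, ((⟨x.2.2.1.1.im, x.2.2.1.2.im⟩ : ℂ) - cc k))

@[fun_prop] lemma a1_cont : Continuous a1 := by unfold a1 ao; fun_prop
@[fun_prop] lemma a2_cont : Continuous a2 := by unfold a2; fun_prop

lemma be_pos {x : EE} (hx : x ∈ SU) (h : 0 < be x) : ∃ z : ℂ × ℂ, (‖z.1‖ = 1 ∧ ‖z.2‖ = 1) ∧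
    x = To z ∧ ∀ j, x.2.2.2 j = 0 := by
  obtain ⟨z, a, rfl⟩ := mem_To hx (sub_pos.1 (pos_of_mul_pos_left h
    (mul_nonneg (le_max_left _ _) (le_max_left _ _))))
  have b := mul_ne_zero_iff.1 (right_ne_zero_of_mul h.ne')
  have s1 := sq_of_norm a.1
  have s2 := sq_of_norm a.2
  refine ⟨z, a, rfl, fun j => ?_⟩
  have d0 : c0 j z = 0 := by_contra fun h => b.1 (bb_zero s1 s2 h)
  have d1 : c1 j z = 0 := by_contra fun h => b.2 (bb_zero (by rwa [add_comm]) (by rwa [add_comm]) h)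
  simp [To, d0, d1, Prod.ext_iff]

lemma a1_far {x : EE} (hx : x ∈ SU) (h : 0 < be x) : a1 x = be x • ao x.2.2.1 := by
  obtain ⟨z, -, -, b⟩ := be_pos hx h
  simp [a1, b]

lemma be_zero {x : EE} (hx : x ∈ SU) {j : Fin 6} (h : 0 < (x.2.2.2 j).1) : be x = 0 := by
  refine le_antisymm (not_lt.1 fun h1 => ?_) ?_
  · obtain ⟨z, -, -, b⟩ := be_pos hx h1
    simp [b] at h
  · obtain ⟨q, -, -, rfl⟩ := mem_Tu hx h.ne'
    exact mul_nonneg (by rw [sg_Tu]; exact sub_nonneg.2 (stp_le_one _))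
      (mul_nonneg (le_max_left _ _) (le_max_left _ _))

lemma a1_near {x : EE} (hx : x ∈ SU) {j : Fin 6} (h : 0 < (x.2.2.2 j).1) :
    a1 x = (I * (x.2.2.2 j).2.2, -I * ka j * (x.2.2.2 j).2.1) := by
  rw [a1, be_zero hx h, zero_smul, add_zero, Finset.sum_eq_single j _ (by simp)]
  obtain ⟨q, -, -, rfl⟩ := mem_Tu hx h.ne'
  intro k _ hk
  simp [Tu, hk]

lemma a1_Tu (j : Fin 6) {q : ℂ × ℝ} (h1 : ‖q.1‖ = 1) (h2 : |q.2| < 4) :
    a1 (Tu j q) = cut (q.2 ^ 2) • ww j q := by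
  rw [a1_near (Tu_mem j h1 h2.le) (Tu_Y j h1 h2).1]
  simp only [Tu, Pi.single_eq_same, ww, Prod.smul_mk, Complex.real_smul]
  congr 1 <;> ring

lemma a1_ne {x : EE} (hx : x ∈ SU) (h : (∃ j, 0 < (x.2.2.2 j).1) ∨ 0 < be x) :
    JJ x (mk (a1 x)) ≠ 0 := by
  rcases h with ⟨j, h⟩ | h
  · obtain ⟨q, a, b, rfl⟩ := mem_Tu hx h.ne'
    rw [a1_Tu j a b, map_smul, map_smul]
    exact smul_ne_zero (cut_pos (by nlinarith [abs_lt.1 b])).ne' (ind_Tu j a).hodge_ne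
  · rw [a1_far hx h, map_smul, map_smul]
    obtain ⟨z, a, rfl, -⟩ := be_pos hx h
    exact smul_ne_zero h.ne' (ind_To a.1 a.2).hodge_ne

lemma flat {x y : ℝ} (y' : ℝ) (h : x ^ 2 + y ^ 2 = 1) (h1 : 0 < x) (h2 : y ^ 2 + y' ^ 2 < 1 / 4) :
    17 / 20 ≤ x ∧ |y| ≤ 3 / 4 :=
  ⟨by nlinarith [sq_nonneg y'], abs_le_of_sq_le_sq (by nlinarith [sq_nonneg y']) (by norm_num)⟩

/-- The two flat regions. -/
def R0 : Set EE := {x | sg x < 1 ∧ 0 < x.2.2.1.1.re ∧ 0 < x.2.2.1.2.re ∧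
  x.2.2.1.1.im ^ 2 + x.2.2.1.2.im ^ 2 < 1 / 4}
def R1 : Set EE := {x | sg x < 1 ∧ 0 < x.2.2.1.1.im ∧ 0 < x.2.2.1.2.im ∧
  x.2.2.1.1.re ^ 2 + x.2.2.1.2.re ^ 2 < 1 / 4}

lemma prod_ne {y₁ y₂ x₁ x₂ s : ℝ} (h1 : 1 / 2 ≤ x₁) (h2 : 1 / 2 ≤ x₂) (hs : s = 0 → y₂ = 0)
    (h : ∀ k, chi k y₁ y₂ x₁ x₂ < 1) : ∏ k, ((⟨y₁, s⟩ : ℂ) - cc k) ≠ 0 :=
  Finset.prod_ne_zero_iff.2 fun k _ h0 => (h k).ne (by
    rw [sub_eq_zero] at h0
    rw [chi_eq h1 h2, hs (congrArg Complex.im h0), show y₁ = cc k from congrArg Complex.re h0]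
    exact cut_one (by norm_num))

lemma R0_spec {x : EE} (hx : x ∈ SU) (h : x ∈ R0) : JJ x = hodge p0 ∧
    17 / 20 ≤ x.2.2.1.1.re ∧ 17 / 20 ≤ x.2.2.1.2.re ∧
    ∏ k, ((⟨x.2.2.1.1.im, x.2.2.1.2.im⟩ : ℂ) - cc k) ≠ 0 ∧ ∀ j, 0 < (x.2.2.2 j).1 →
      |x.2.2.1.1.im - cc j| < 1 / 50 ∧ (x.2.2.2 j).2.1 =
        200 * ((x.2.2.2 j).1 * (⟨x.2.2.1.1.im, x.2.2.1.2.im⟩ - cc j)) := by
  obtain ⟨z, a, rfl⟩ := mem_To hx h.1
  obtain ⟨b1, g1⟩ := flat _ (sq_of_norm a.1) h.2.1 h.2.2.2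
  obtain ⟨b2, g2⟩ := flat _ (sq_of_norm a.2) h.2.2.1 (by rw [add_comm]; exact h.2.2.2)
  have d1 : ∀ j, c1 j z = 0 := fun j => chi_far _ _ (Or.inr (le_abs.2 (Or.inl (by linarith))))
  have d0 : ∀ j, ((To z).2.2.2 j).1 = c0 j z := fun j => by simp [To, d1]
  refine ⟨congrArg hodge ?_, b1, b2, prod_ne (x₁ := z.1.re) (x₂ := z.2.re) (by linarith)
    (by linarith) id fun k => (d0 k).symm.trans_lt ((To_le k z).trans_lt h.1), fun j hj => ?_⟩
  · simp only [To, T1, T2, gg_mid g1, gg_mid g2, gg_top b1, gg_top b2, zero_mul, neg_zero]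
    exact npl_zero (by simp only; nlinarith)
  · rw [d0] at hj ⊢
    have := (chi_pos (sq_of_norm a.1) (sq_of_norm a.2) hj.ne').1
    exact ⟨abs_lt_of_sq_lt_sq (by simp only [To]; nlinarith [sq_nonneg z.2.im]) (by norm_num),
      by simp only [To]; ring⟩

lemma R1_spec {x : EE} (hx : x ∈ SU) (h : x ∈ R1) : JJ x = hodge p1 ∧
    17 / 20 ≤ x.2.2.1.1.im ∧ 17 / 20 ≤ x.2.2.1.2.im ∧
    ∏ k, ((⟨x.2.2.1.1.re, -x.2.2.1.2.re⟩ : ℂ) - cc k) ≠ 0 ∧ ∀ j, 0 < (x.2.2.2 j).1 →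
      |x.2.2.1.1.re - cc j| < 1 / 50 ∧ (x.2.2.2 j).2.2 =
        200 * conj (ka j) * ((x.2.2.2 j).1 * (⟨x.2.2.1.1.re, -x.2.2.1.2.re⟩ - cc j)) := by
  obtain ⟨z, a, rfl⟩ := mem_To hx h.1
  have s1 := (add_comm _ _).trans (sq_of_norm a.1)
  have s2 := (add_comm _ _).trans (sq_of_norm a.2)
  obtain ⟨b1, g1⟩ := flat _ s1 h.2.1 h.2.2.2
  obtain ⟨b2, g2⟩ := flat _ s2 h.2.2.1 (by rw [add_comm]; exact h.2.2.2)
  have d1 : ∀ j, c0 j z = 0 := fun j => chi_far _ _ (Or.inr (le_abs.2 (Or.inl (by linarith))))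
  have d0 : ∀ j, ((To z).2.2.2 j).1 = c1 j z := fun j => by simp [To, d1]
  refine ⟨congrArg hodge ?_, b1, b2, prod_ne (x₁ := z.1.im) (x₂ := z.2.im) (by linarith)
    (by linarith) neg_eq_zero.1 fun k => (d0 k).symm.trans_lt ((To_le k z).trans_lt h.1),
    fun j hj => ?_⟩
  · simp only [To, T1, T2, gg_mid g1, gg_mid g2, gg_top b1, gg_top b2, zero_mul]
    exact npl_one (by simp only; nlinarith)
  · rw [d0] at hj ⊢
    have := (chi_pos s1 s2 hj.ne').1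
    exact ⟨abs_lt_of_sq_lt_sq (by simp only [To]; nlinarith [sq_nonneg z.2.re]) (by norm_num),
      by simp only [To]; ring⟩

lemma R0_open : IsOpen R0 := IsOpen.and (isOpen_lt sg_cont continuous_const) (IsOpen.and
  (isOpen_lt continuous_const (by fun_prop)) (IsOpen.and (isOpen_lt continuous_const (by fun_prop))
  (isOpen_lt (by fun_prop) continuous_const)))

lemma R1_open : IsOpen R1 := IsOpen.and (isOpen_lt sg_cont continuous_const) (IsOpen.and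
  (isOpen_lt continuous_const (by fun_prop)) (IsOpen.and (isOpen_lt continuous_const (by fun_prop))
  (isOpen_lt (by fun_prop) continuous_const)))

lemma a2_ne {x : EE} (hx : x ∈ SU) (h : x ∈ R0 ∪ R1) : JJ x (mk (a2 x)) ≠ 0 := by
  rcases h with h | h
  · obtain ⟨a, -, -, b, -⟩ := R0_spec hx h
    rw [a, hodge_p0]
    exact fun h0 => mul_ne_zero Complex.I_ne_zero (mul_ne_zero (by simp) b)
      (congrArg Prod.snd (mk_eq_zero h0))
  · obtain ⟨a, -, -, b, -⟩ := R1_spec hx h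
    rw [a, hodge_p1]
    exact fun h0 => mul_ne_zero (by simp) (mul_ne_zero Complex.I_ne_zero b)
      (congrArg Prod.fst (mk_eq_zero h0))

lemma cover {x : EE} (h : ¬((∃ j, 0 < (x.2.2.2 j).1) ∨ 0 < be x)) : x ∈ R0 ∪ R1 := by
  rw [not_or] at h
  have h1 := (SU_cov x).resolve_right h.1
  rcases mul_eq_zero.1 (le_antisymm (nonpos_of_mul_nonpos_right (not_lt.1 h.2) (sub_pos.2 h1))
    (mul_nonneg (le_max_left _ _) (le_max_left _ _))) with h2 | h2 <;> obtain ⟨a, b, c⟩ := bb_eq.1 h2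
  · exact Or.inl ⟨h1, by linarith, by linarith, by linarith⟩
  · exact Or.inr ⟨h1, by linarith, by linarith, by linarith⟩

theorem root_coc {R : Type} [CommRing R] {A : Type} [AddCommGroup A] [Module R A]
    (χ : ZMod 6 →+ A) :
    ∃ ω : Ch R MM.T →ₗ[R] A, IsCoc ω univ ∧ ∀ y, ω (MM.B.loop R y) = χ 1 := by
  let A : Fin 6 → Set SU := fun j => {x | 0 < (x.1.2.2.2 j).1}
  let B : Set SU := {x | 0 < be x}
  have oA : ∀ j, IsOpen (A j) := fun j => isOpen_lt continuous_const (by fun_prop)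
  have oB : IsOpen B := isOpen_lt continuous_const (by fun_prop)
  have glue : ∀ (P : SU → ℂ → Prop) (N : Set SU), IsOpen N → (∀ j, Sel P (A j ∩ N)) →
      Sel P (B ∩ N) → Sel P (((⋃ j, A j) ∪ B) ∩ N) := fun P N oN h1 h2 => by
    rw [union_inter_distrib_right, iUnion_inter]
    refine Sel.union (isOpen_iUnion fun j => (oA j).inter oN) (oB.inter oN) (fun x hx hx' => ?_)
      (Sel.iUnion (fun j => (oA j).inter oN) (fun j k x hj hk => ?_) h1) h2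
    · obtain ⟨j, hj⟩ := mem_iUnion.1 hx
      exact hx'.1.ne' (be_zero x.2 hj.1)
    · obtain ⟨q, -, -, e⟩ := mem_Tu x.2 hj.1.ne'
      by_contra hne
      have := hk.1
      simp only [A, mem_ofPred, ← e] at this
      simp [Tu, Ne.symm hne] at this
  have o0 := R0_open.preimage (continuous_subtype_val (p := (· ∈ SU)))
  have o1 := R1_open.preimage (continuous_subtype_val (p := (· ∈ SU)))
  obtain ⟨h, h1, h2⟩ : Sel (fun x c => ∀ y, MM.B.p y = x → MM.Th (fun x => mk (a1 x)) y =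
      c ^ 6 * MM.Th (fun x => mk (a2 x)) y)
      (((⋃ j, A j) ∪ B) ∩ (Subtype.val ⁻¹' R0 ∪ Subtype.val ⁻¹' R1)) := by
    rw [inter_union_distrib_left]
    refine Sel.union (((isOpen_iUnion oA).union oB).inter o0)
      (((isOpen_iUnion oA).union oB).inter o1)
      (fun x hx hx' => by nlinarith [(R0_spec x.2 hx.2).2.1, hx'.2.2.2.2, sq_nonneg x.1.2.2.1.2.re])
      ?_ ?_
    · obtain ⟨h, h1, h2⟩ : Rt (((⋃ j, A j) ∪ B) ∩ Subtype.val ⁻¹' R0)
          fun x => (a1 x).2 / (a2 x).2 := by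
        refine glue _ _ o0 (fun j => (Rt.near (ζ := fun x : SU => ⟨x.1.2.2.1.1.im, x.1.2.2.1.2.im⟩)
          (c := fun x => (x.1.2.2.2 j).1) (by fun_prop) (by fun_prop) j (200 * ka j) fun x hx =>
          ⟨((R0_spec x.2 hx.2).2.2.2.2 j hx.1).1, hx.1, (R0_spec x.2 hx.2).2.2.2.1⟩).congr
          fun x hx => ?_) ((Rt.far (ζ := fun x : SU => ⟨x.1.2.2.1.1.im, x.1.2.2.1.2.im⟩)
          (c := fun x => be x * x.1.2.2.1.2.re) (by fun_prop) (by fun_prop) fun x hx =>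
          ⟨?_, mul_pos hx.1 hx.2.2.2.1, (R0_spec x.2 hx.2).2.2.2.1⟩).congr fun x hx => ?_)
        · rw [a1_near x.2 hx.1, ((R0_spec x.2 hx.2).2.2.2.2 j hx.1).2, a2, mul_assoc,
            mul_div_mul_left _ _ (by simp)]
          congr 1; ring
        · obtain ⟨-, b1, b2, -⟩ := R0_spec x.2 hx.2
          exact not_le.1 fun h => left_ne_zero_of_mul (right_ne_zero_of_mul hx.1.ne')
            (bb_eq.2 ⟨by linarith, by linarith, h⟩)
        · rw [a1_far x.2 hx.1, a2, ← mul_div_mul_left ((be x * x.1.2.2.1.2.re : ℝ) : ℂ) _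
            (show -I ≠ 0 by simp)]
          congr 1; apply Complex.ext <;> simp [ao]
      refine ⟨fun x => conj (h x), by fun_prop, ?_⟩
      rintro _ hx y rfl
      obtain ⟨e, -, -, b, -⟩ := R0_spec y.2.1 hx.2
      have := h2 _ hx
      simp only at this
      rw [div_eq_iff (show (a2 (MM.B.p y)).2 ≠ 0 from mul_ne_zero (by simp) b)] at this
      simp only [Surf.Th, show MM.J y.1.1 = hodge p0 from e, th_p0, this, map_mul, map_pow]
      ring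
    · obtain ⟨h, h1, h2⟩ : Rt (((⋃ j, A j) ∪ B) ∩ Subtype.val ⁻¹' R1)
          fun x => (a1 x).1 / (a2 x).1 := by
        refine glue _ _ o1 (fun j => (Rt.near (ζ := fun x : SU => ⟨x.1.2.2.1.1.re, -x.1.2.2.1.2.re⟩)
          (c := fun x => (x.1.2.2.2 j).1) (by fun_prop) (by fun_prop) j (200 * conj (ka j))
          fun x hx => ⟨((R1_spec x.2 hx.2).2.2.2.2 j hx.1).1, hx.1,
          (R1_spec x.2 hx.2).2.2.2.1⟩).congr fun x hx => ?_)
          ((Rt.far (ζ := fun x : SU => ⟨x.1.2.2.1.1.re, -x.1.2.2.1.2.re⟩)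
          (c := fun x => be x * x.1.2.2.1.2.im) (by fun_prop) (by fun_prop) fun x hx =>
          ⟨?_, mul_pos hx.1 hx.2.2.2.1, (R1_spec x.2 hx.2).2.2.2.1⟩).congr fun x hx => ?_)
        · rw [a1_near x.2 hx.1, ((R1_spec x.2 hx.2).2.2.2.2 j hx.1).2, a2,
            mul_div_mul_left _ _ Complex.I_ne_zero]
        · obtain ⟨-, b1, b2, -⟩ := R1_spec x.2 hx.2
          rw [neg_sq]
          exact not_le.1 fun h => right_ne_zero_of_mul (right_ne_zero_of_mul hx.1.ne')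
            (bb_eq.2 ⟨by linarith, by linarith, h⟩)
        · rw [a1_far x.2 hx.1, a2, ← mul_div_mul_left ((be x * x.1.2.2.1.2.im : ℝ) : ℂ) _
            Complex.I_ne_zero]
          congr 1; apply Complex.ext <;> simp [ao]
      refine ⟨h, h1, ?_⟩
      rintro _ hx y rfl
      obtain ⟨e, -, -, b, -⟩ := R1_spec y.2.1 hx.2
      have := h2 _ hx
      simp only at this
      rw [div_eq_iff (show (a2 (MM.B.p y)).1 ≠ 0 from mul_ne_zero Complex.I_ne_zero b)] at this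
      simp only [Surf.Th, show MM.J y.1.1 = hodge p1 from e, th_p1, this]
      ring
  exact MM.B.exists_root_coc ((isOpen_iUnion oA).union oB) (o0.union o1)
    (fun x hx => cover fun h => hx (h.imp (fun h => mem_iUnion.2 h) id))
    (MM.ang (by fun_prop) fun x hx => a1_ne x.2 (hx.imp (fun h => mem_iUnion.1 h) id))
    (MM.ang (by fun_prop) fun x hx => a2_ne x.2 hx) h1 (fun y hy => h2 _ hy y rfl) χ

end Pool.Agent.P.MP_c88051_gt
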