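import Pool.Agent.P.MP_c88051_gt.Tube
import Pool.Agent.Lib.Helper83.Bridge

/-! A thin tube around a surface with the two-piece property is a tight immersion. -/

open Set Topology Filter Real
open scoped ContDiff RealInnerProductSpace

namespace Pool.Agent.P.MP_c88051_gt

open Pool.Agent.Lib.Helper83

lemma Chart.fderiv_inj {P E : Type} [NormedAddCommGroup P] [NormedSpace ℝ P] [NormedAddCommGroup E]
    [NormedSpace ℝ E] {S : Set E} (C : Chart P S) {w : P} (hw : w ∈ C.W) {a : P}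
    (h : fderiv ℝ C.ψ w a = 0) : a = 0 := by
  have h2 : DifferentiableAt ℝ C.ρ (C.ψ w) :=
    (C.sρ.contDiffAt (C.oO.mem_nhds (C.mem w hw).2.1)).differentiableAt (by simp)
  have h4 : C.ρ ∘ C.ψ =ᶠ[𝓝 w] id := by
    filter_upwards [C.oW.mem_nhds hw] with w' a using (C.mem w' a).2.2
  have := congrArg (fun L => L a) (h4.fderiv_eq (𝕜 := ℝ))
  simpa [fderiv_comp w h2 (C.diffAt hw), h] using this.symm

lemma hasDerivAt_line {P E : Type} [NormedAddCommGroup P] [NormedSpace ℝ P] [NormedAddCommGroup E]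
    [NormedSpace ℝ E] {g : P → E} {u : P} (h : DifferentiableAt ℝ g u) (w : P) :
    HasDerivAt (fun t : ℝ => g (u + t • w)) (fderiv ℝ g u w) 0 := by
  have h1 : HasDerivAt (fun t : ℝ => u + t • w) w 0 := by
    simpa using ((hasDerivAt_id (0 : ℝ)).smul_const w).const_add u
  exact h.hasFDerivAt.comp_hasDerivAt_of_eq 0 h1 (by simp)

lemma joined_of_locC {X : Type} [TopologicalSpace X] (hX : LocC X) {U : Set X} (oU : IsOpen U)
    (cU : IsPreconnected U) : ∀ a ∈ U, ∀ b ∈ U, JoinedIn U a b := fun _ ha _ hb =>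
  cU.induction₂' (JoinedIn U) (fun x hx => by
    obtain ⟨N, h1, h2, h3, h4⟩ := hX x U (oU.mem_nhds hx)
    filter_upwards [mem_nhdsWithin_of_mem_nhds (h1.mem_nhds h2)] with y hy
    exact ⟨h4.joined continuousOn_id h3 h2 hy, h4.joined continuousOn_id h3 hy h2⟩)
    (fun _ _ _ _ _ _ => JoinedIn.trans) ha hb

lemma closed_of_open {X : Type} [TopologicalSpace X] [CompactSpace X] [T2Space X] {g : X → ℝ}
    (hg : Continuous g) (h : ∀ c, IsPreconnected {x | c < g x}) (c : ℝ) :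
    IsPreconnected {x | c ≤ g x} := by
  have hK : IsClosed {x | c ≤ g x} := isClosed_le continuous_const hg
  rw [isPreconnected_iff_subset_of_disjoint_closed]
  intro u v hu hv cov dis
  obtain ⟨O₁, O₂, o1, o2, s1, s2, d⟩ := normal_separation (hK.inter hu) (hK.inter hv)
    (disjoint_iff_inter_eq_empty.2 (by rw [← dis]; ext x; simp only [mem_inter_iff]; tauto))
  obtain ⟨c', h1, h2⟩ : ∃ c' < c, {x | c' < g x} ⊆ O₁ ∪ O₂ := by
    rcases (O₁ ∪ O₂)ᶜ.eq_empty_or_nonempty with he | hne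
    · exact ⟨c - 1, by linarith, by rw [compl_empty_iff.1 he]; exact subset_univ _⟩
    obtain ⟨x, hx, hm⟩ := (o1.union o2).isClosed_compl.isCompact.exists_isMaxOn hne hg.continuousOn
    refine ⟨g x, not_le.1 fun h3 => hx ?_, fun y hy => by_contra fun h4 => not_le.2 hy (isMaxOn_iff.1 hm _ h4)⟩
    exact (cov h3).imp (fun h => s1 ⟨h3, h⟩) fun h => s2 ⟨h3, h⟩
  refine ((h c').subset_or_subset o1 o2 d h2).imp (fun h3 x hx => ?_) fun h3 x hx => ?_
  · exact (cov hx).resolve_right fun h4 => d.notMem_of_mem_left (h3 (h1.trans_le hx)) (s2 ⟨hx, h4⟩)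
  · exact (cov hx).resolve_left fun h4 => d.notMem_of_mem_left (s1 ⟨hx, h4⟩) (h3 (h1.trans_le hx))

namespace IsJ
variable {J : E4 →L[ℝ] E4} (h : IsJ J)
include h

lemma inner_eq {ν : E4} (h2 : J (J ν) = -ν) (v : E4) : ⟪v, ν⟫ = ⟪J v, J ν⟫ := by
  rw [h.skew, h2, inner_neg_right, neg_neg]

lemma abs_inner_le {ν : E4} (h1 : ‖ν‖ = 1) (h2 : J (J ν) = -ν) (v : E4) : |⟪v, ν⟫| ≤ ‖J v‖ := by
  have := abs_real_inner_le_norm (J v) (J ν)
  rwa [h.norm_J h2, h1, mul_one, ← h.inner_eq h2] at this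

lemma neg_ne {v : E4} (hv : J v ≠ 0) : J (-J v) ≠ 0 := by
  rwa [map_neg, ← norm_ne_zero_iff, norm_neg, h.norm_JJ, norm_ne_zero_iff]

lemma inner_rt {v : E4} (hv : J v ≠ 0) (θ : ℝ) :
    ⟪v, rt J θ (nrm J (-J v))⟫ = ‖J v‖ * cos θ := by
  have h1 := h.skew v (J v)
  have h2 := norm_ne_zero_iff.2 hv
  rw [real_inner_self_eq_norm_sq] at h1
  simp only [rt, nrm, map_neg, norm_neg, h.norm_JJ, map_smul, h.cube, neg_neg, inner_add_right,
    real_inner_smul_right, inner_neg_right, h.inner_self, ← h1]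
  field_simp; ring

end IsJ

namespace Surf

variable {E : Type} [NormedAddCommGroup E] [NormedSpace ℝ E] (M : Surf E)

/-- The tube map. -/
noncomputable def F (ε : ℝ) : E × E4 →L[ℝ] E4 :=
  M.f.comp (ContinuousLinearMap.fst ℝ _ _) + ε • ContinuousLinearMap.snd ℝ _ _

lemma F_apply (ε : ℝ) (q : E × E4) : M.F ε q = M.f q.1 + ε • q.2 := rfl

/-- Extreme heights of the normal circle. -/
noncomputable def g (ε : ℝ) (v : E4) (x : M.S) : ℝ := ⟪v, M.f x⟫ + ε * ‖M.J x v‖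

@[fun_prop] lemma g_cont (ε : ℝ) (v : E4) : Continuous (M.g ε v) := by unfold g; fun_prop

variable {K ε : ℝ} (hK : ∀ i, ∀ u ∈ (M.C i).W, ∀ w,
    ‖M.J (fderiv ℝ (M.C i).ψ u w)‖ ≤ K * ‖M.f (fderiv ℝ (M.C i).ψ u w)‖)
include hK

lemma imm (h0 : 0 < ε) (hε : 2 * K * ε < 1) (i : M.ι × E4) (q : (ℝ × ℝ) × ℝ)
    (hq : q ∈ (M.CT i).W) : Function.Injective fun a => M.F ε (fderiv ℝ (M.CT i).ψ q a) := by
  refine (injective_iff_map_eq_zero ((M.F ε).comp (fderiv ℝ (M.CT i).ψ q))).2 fun a ha => ?_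
  have d := hasDerivAt_line ((M.CT i).diffAt hq) a
  have df : HasDerivAt (fun t : ℝ => ((M.CT i).ψ (q + t • a)).1) (fderiv ℝ (M.CT i).ψ q a).1 0 :=
    (ContinuousLinearMap.fst ℝ E E4).hasFDerivAt.comp_hasDerivAt 0 d
  have ds : HasDerivAt (fun t : ℝ => ((M.CT i).ψ (q + t • a)).2) (fderiv ℝ (M.CT i).ψ q a).2 0 :=
    (ContinuousLinearMap.snd ℝ E E4).hasFDerivAt.comp_hasDerivAt 0 d
  have e1 : (fderiv ℝ (M.CT i).ψ q a).1 = fderiv ℝ (M.C i.1).ψ q.1 a.1 :=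
    df.unique (hasDerivAt_line ((M.C i.1).diffAt hq.1) a.1)
  have dJ := M.J.hasFDerivAt.comp_hasDerivAt 0 df
  have d2 := dJ.clm_apply (dJ.clm_apply ds)
  have ev : ∀ᶠ t : ℝ in 𝓝 0, q + t • a ∈ (M.CT i).W :=
    (show ContinuousAt (fun t : ℝ => q + t • a) 0 by fun_prop).preimage_mem_nhds
      ((M.CT i).oW.mem_nhds (by simpa using hq))
  have e2 := d2.unique (ds.neg.congr_of_eventuallyEq
    (ev.mono fun t ht => ((M.CT i).mem _ ht).1.2.2))
  obtain ⟨h1, h2, h3⟩ := ((M.CT i).mem _ hq).1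
  have hJ := M.isJ _ h1
  have e3 : M.J ((M.CT i).ψ q).1 (M.f (fderiv ℝ (M.CT i).ψ q a).1) = 0 :=
    (M.tan i.1 _ hq.1 _).2 ⟨a.1, by rw [e1]⟩
  have e4 := hK i.1 _ hq.1 a.1
  rw [← e1] at e4
  simp only [Function.comp_apply, zero_smul, add_zero, ContinuousLinearMap.comp_apply,
    F_apply] at e2 ha
  refine (M.CT i).fderiv_inj hq ?_
  have e5 := M.inj i.1 _ hq.1 (a₁ := a.1) (a₂ := 0)
  simp only [← e1, map_zero] at e5
  generalize fderiv ℝ (M.CT i).ψ q a = D at *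
  generalize (M.CT i).ψ q = y at *
  have e6 : M.f D.1 = -(ε • D.2) := eq_neg_of_add_eq_zero_left ha
  rw [e6, map_neg, map_smul, neg_eq_zero, smul_eq_zero, or_iff_right h0.ne'] at e3
  rw [e3, add_zero] at e2
  have e7 : ‖D.2‖ ≤ ‖M.J D.1‖ + ‖M.J D.1‖ := by
    rw [← norm_neg, ← e2]
    refine (norm_add_le _ _).trans (add_le_add ?_ ((hJ.norm_le _).trans ?_))
    · simpa [hJ.norm_J h3, h2] using (M.J D.1).le_opNorm (M.J y.1 y.2)
    · simpa [h2] using (M.J D.1).le_opNorm y.2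
  rw [e6, norm_neg, norm_smul, Real.norm_of_nonneg h0.le] at e4
  have e8 : D.2 = 0 := by
    rw [← norm_le_zero_iff]
    by_contra h
    nlinarith
  rw [e8, smul_zero, neg_zero] at e6
  exact Prod.ext (by rw [e1, e5 e6, map_zero]; rfl) e8

lemma first_order {δ : ℝ} (hδ : |δ| * K < 1) (v : E4) (x : M.S) (hx : v + M.J x (M.J x v) ≠ 0) :
    ∃ᶠ y : M.S in 𝓝 x, ⟪v, M.f x⟫ < ⟪v, M.f y⟫ ∧ M.g δ v x ≤ M.g δ v y := by
  obtain ⟨i, hi⟩ := M.cov x x.2
  obtain ⟨h1, h2⟩ := (M.C i).inv x x.2 hi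
  have hJ := M.isJ x x.2
  set q := v + M.J x (M.J x v) with hq
  set p := -M.J x (M.J x v) with hp
  have Jq : M.J x q = 0 := by rw [hq, map_add, hJ.cube, add_neg_cancel]
  obtain ⟨w, hw⟩ := (M.tan i _ h1 q).1 (by rw [h2, Jq])
  have d := hasDerivAt_line ((M.C i).diffAt h1) w
  have hk := hK i _ h1 w
  rw [hw] at hk
  set ξ := fderiv ℝ (M.C i).ψ ((M.C i).ρ x) w
  set X : ℝ → E := fun t => (M.C i).ψ ((M.C i).ρ x + t • w) with hX
  have X0 : X 0 = x := by simp [hX, h2]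
  have ev : ∀ᶠ t : ℝ in 𝓝 0, (M.C i).ρ x + t • w ∈ (M.C i).W :=
    (show ContinuousAt (fun t : ℝ => (M.C i).ρ x + t • w) 0 by fun_prop).preimage_mem_nhds
      ((M.C i).oW.mem_nhds (by simpa using h1))
  have vq : ⟪v, q⟫ = ‖q‖ ^ 2 := by
    rw [← real_inner_self_eq_norm_sq]
    conv_rhs => rw [hq, inner_add_left, ← hq, hJ.skew, Jq]
    simp
  have dJ := M.J.hasFDerivAt.comp_hasDerivAt 0 d
  have d1 : HasDerivAt (fun t => ⟪v, M.f (X t)⟫) (‖q‖ ^ 2) 0 := by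
    have := (innerSL ℝ v).hasFDerivAt.comp_hasDerivAt 0 (M.f.hasFDerivAt.comp_hasDerivAt 0 d)
    rw [innerSL_apply_apply, hw, vq] at this
    exact this
  have np : ‖M.J x p‖ = ‖p‖ := hJ.norm_J (by rw [hp, map_neg, map_neg, hJ.cube (M.J x v), neg_neg])
  have d2 : HasDerivAt (fun t => ‖M.J (X t) p‖) 0 0 := by
    rcases eq_or_ne p 0 with h0 | h0
    · simpa [h0] using hasDerivAt_const (0 : ℝ) (0 : ℝ)
    have h3 : DifferentiableAt ℝ (fun t => ‖M.J (X t) p‖) 0 :=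
      (dJ.clm_apply (hasDerivAt_const 0 p)).differentiableAt.norm ℝ (by
        rwa [Function.comp_apply, X0, ← norm_ne_zero_iff, np, norm_ne_zero_iff])
    have h4 : IsLocalMax (fun t => ‖M.J (X t) p‖) 0 := ev.mono fun t ht => by
      simp only [X0, np]
      exact (M.isJ _ ((M.C i).mem _ ht).1).norm_le p
    exact h3.hasDerivAt.congr_deriv (h4.hasDerivAt_eq_zero h3.hasDerivAt)
  have d3 : HasDerivAt (fun t => M.J (X t) q) (M.J ξ q) 0 := by
    simpa using dJ.clm_apply (hasDerivAt_const 0 q)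
  have hq0 : 0 < ‖q‖ ^ 2 := by have := norm_pos_iff.2 hx; positivity
  have s1 := d1.tendsto_slope_zero_right
  have s4 := (s1.add (d2.tendsto_slope_zero_right.const_mul |δ|)).sub
    (d3.tendsto_slope_zero_right.norm.const_mul |δ|)
  have lt : 0 < ‖q‖ ^ 2 + |δ| * 0 - |δ| * ‖M.J ξ q‖ := by
    have h5 := mul_le_mul_of_nonneg_left (((M.J ξ).le_opNorm q).trans
      (mul_le_mul_of_nonneg_right hk (norm_nonneg q))) (abs_nonneg δ)
    nlinarith
  have tX : Tendsto (fun t : ℝ => (M.C i).par x ((M.C i).ρ x + t • w)) (𝓝[>] 0) (𝓝 x) := by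
    rw [tendsto_subtype_rng]
    refine ((X0 ▸ d.continuousAt.tendsto : Tendsto X (𝓝 0) (𝓝 x)).congr'
      (ev.mono fun t ht => ((M.C i).par_val x ht).symm)).mono_left nhdsWithin_le_nhds
  refine tX.frequently (Eventually.frequently ?_)
  filter_upwards [s1.eventually (lt_mem_nhds hq0), s4.eventually (lt_mem_nhds lt),
    mem_nhdsWithin_of_mem_nhds ev, self_mem_nhdsWithin] with t t1 t2 t3 t4
  have t5 : (0 : ℝ) < t⁻¹ := inv_pos.2 t4
  simp only [g, (M.C i).par_val x t3]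
  change _ < ⟪v, M.f (X t)⟫ ∧ _ ≤ ⟪v, M.f (X t)⟫ + δ * ‖M.J (X t) v‖
  simp only [zero_add, X0, Jq, sub_zero, smul_eq_mul, norm_smul, Real.norm_of_nonneg t5.le] at t1 t2
  have t6 : 0 < ⟪v, M.f (X t)⟫ - ⟪v, M.f x⟫ + |δ| * (‖M.J (X t) p‖ - ‖M.J x p‖) -
      |δ| * ‖M.J (X t) q‖ := (mul_pos_iff_of_pos_left t5).1 (by linarith)
  refine ⟨sub_pos.1 ((mul_pos_iff_of_pos_left t5).1 t1), ?_⟩
  have t7 : M.J (X t) v = M.J (X t) p + M.J (X t) q := by rw [← map_add, hp, hq]; congr 1; abel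
  have t8 := abs_norm_sub_norm_le (M.J (X t) v) (M.J (X t) p)
  rw [t7, add_sub_cancel_left, ← t7] at t8
  have t9 := (M.isJ _ ((M.C i).mem _ t3).1).norm_le p
  have t10 : ‖M.J x v‖ = ‖p‖ := by rw [hp, norm_neg, hJ.norm_JJ]
  have t11 : |‖M.J (X t) v‖ - ‖p‖| ≤ ‖p‖ - ‖M.J (X t) p‖ + ‖M.J (X t) q‖ := by
    rw [abs_le] at t8 ⊢
    constructor <;> linarith [t8.1, t8.2]
  have t12 := neg_abs_le (δ * (‖M.J (X t) v‖ - ‖p‖))
  rw [abs_mul] at t12
  rw [np] at t6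
  rw [t10]
  nlinarith [mul_le_mul_of_nonneg_left t11 (abs_nonneg δ)]

lemma open_conn {δ : ℝ} (hδ : |δ| * K < 1) (v : E4) (c : ℝ) :
    IsPreconnected {x | c < M.g δ v x} := by
  have cH : Continuous fun x : M.S => ⟪v, M.f x⟫ := by fun_prop
  obtain ⟨z, -, hz⟩ := isCompact_univ.exists_isMaxOn univ_nonempty cH.continuousOn
  have key : ∀ O₁ O₂ : Set M.S, IsOpen O₁ → IsOpen O₂ → {x | c < M.g δ v x} ⊆ O₁ ∪ O₂ →
      {x | c < M.g δ v x} ∩ (O₁ ∩ O₂) = ∅ → ∀ y₀ ∈ O₁, c < M.g δ v y₀ →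
      z ∈ O₁ ∧ c < M.g δ v z := by
    intro O₁ O₂ o1 o2 cov dis y₀ hy₀ hc
    obtain ⟨c', c1, c2⟩ := exists_between hc
    have nd : ∀ y ∈ O₁, c' ≤ M.g δ v y → y ∉ O₂ := fun y h1 h2 h3 =>
      eq_empty_iff_forall_notMem.1 dis y ⟨c1.trans_le h2, h1, h3⟩
    have hc' : IsClosed ({y | c' ≤ M.g δ v y} ∩ O₂ᶜ) :=
      (isClosed_le continuous_const (M.g_cont δ v)).inter o2.isClosed_compl
    obtain ⟨y, hy, hm⟩ := hc'.isCompact.exists_isMaxOn ⟨y₀, c2.le, nd _ hy₀ c2.le⟩ cH.continuousOn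
    have crit : ∀ y' ∈ {y | c' ≤ M.g δ v y} ∩ O₂ᶜ, ⟪v, M.f y⟫ ≤ ⟪v, M.f y'⟫ → y' ∈ O₁ ∧
        ‖M.J y' v‖ = ‖v‖ := fun y' hy' hle => by
      have h1 : y' ∈ O₁ := (cov (c1.trans_le hy'.1)).resolve_right hy'.2
      refine ⟨h1, (M.isJ _ y'.2).norm_J (eq_neg_of_add_eq_zero_right (by_contra fun h => ?_))⟩
      obtain ⟨y'', ⟨h2, h3⟩, h4⟩ :=
        ((M.first_order hK hδ v y' h).and_eventually (o1.mem_nhds h1)).exists
      have := hm ⟨hy'.1.trans h3, nd _ h4 (hy'.1.trans h3)⟩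
      simp only [mem_ofPred_eq] at this
      linarith
    have loc : ∀ y' ∈ {y | c' ≤ M.g δ v y} ∩ O₂ᶜ, ⟪v, M.f y⟫ ≤ ⟪v, M.f y'⟫ →
        ∀ᶠ y'' : M.S in 𝓝 y', ⟪v, M.f y⟫ ≤ ⟪v, M.f y''⟫ → y'' ∈ {y | c' ≤ M.g δ v y} ∩ O₂ᶜ := by
      intro y' hy' hle
      obtain ⟨h1, h2⟩ := crit y' hy' hle
      rcases le_total 0 δ with h | h
      · have h3 : c' < M.g δ v y' := by
          have h4 := hm ⟨c2.le, nd _ hy₀ c2.le⟩
          have h5 := mul_le_mul_of_nonneg_left ((M.isJ _ y₀.2).norm_le v) h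
          simp only [g, mem_ofPred_eq, h2] at c2 h4 ⊢
          linarith
        filter_upwards [o1.mem_nhds h1, (M.g_cont δ v).continuousAt.eventually (lt_mem_nhds h3)]
          with y'' h4 h5 _
        exact ⟨h5.le, nd _ h4 h5.le⟩
      · filter_upwards [o1.mem_nhds h1] with y'' h4 h5
        have h6 : c' ≤ M.g δ v y'' := by
          have h7 := mul_le_mul_of_nonpos_left ((M.isJ _ y''.2).norm_le v) h
          have h8 := hm hy'
          have h9 := hy'.1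
          simp only [g, mem_ofPred_eq, h2] at h8 h9 ⊢
          linarith
        exact ⟨h6, nd _ h4 h6⟩
    have hz' : z ∈ {y | c' ≤ M.g δ v y} ∩ O₂ᶜ := by
      refine (M.tpp v ⟪v, M.f y⟫).induction₂' (fun a b => a ∈ {y | c' ≤ M.g δ v y} ∩ O₂ᶜ →
        b ∈ {y | c' ≤ M.g δ v y} ∩ O₂ᶜ) (fun a ha => ?_) (fun _ _ _ _ _ _ h h' h'' => h' (h h''))
        (x := y) (mem_ofPred.2 le_rfl) (hz (mem_univ y)) hy
      by_cases h : a ∈ {y | c' ≤ M.g δ v y} ∩ O₂ᶜ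
      · filter_upwards [mem_nhdsWithin_of_mem_nhds (loc a h ha), self_mem_nhdsWithin] with b h1 h2
        exact ⟨fun _ => h1 h2, fun _ => h⟩
      · filter_upwards [mem_nhdsWithin_of_mem_nhds (hc'.isOpen_compl.mem_nhds h)] with b h1
        exact ⟨fun h2 => (h h2).elim, fun h2 => (h1 h2).elim⟩
    exact ⟨(crit z hz' (hz (mem_univ y))).1, c1.trans_le hz'.1⟩
  intro O₁ O₂ o1 o2 cov ⟨a, ha⟩ ⟨b, hb⟩
  by_contra h
  rw [not_nonempty_iff_eq_empty] at h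
  have h1 := key O₁ O₂ o1 o2 cov h a ha.2 ha.1
  have h2 := key O₂ O₁ o2 o1 (by rwa [union_comm]) (by rwa [inter_comm O₂]) b hb.2 hb.1
  exact eq_empty_iff_forall_notMem.1 h z ⟨h1.2, h1.1, h2.1⟩

omit hK in
lemma ht_eq (ε : ℝ) (v : E4) (y : M.T) : ⟪v, M.F ε y⟫ = ⟪v, M.f (M.B.p y)⟫ + ε * ⟪v, y.1.2⟫ := by
  rw [F_apply, inner_add_right, real_inner_smul_right]; rfl

omit hK in
lemma base (v : E4) (x : M.S) : ∃ y₀, M.B.p y₀ = x ∧
    (∀ θ, ⟪v, (M.B.rot θ y₀).1.2⟫ = ‖M.J x v‖ * cos θ) ∧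
    ∀ y, M.B.p y = x → ∃ θ ∈ Icc (-π) π, y = M.B.rot θ y₀ := by
  have hJ := M.isJ x x.2
  have key : ∀ a, M.J x a ≠ 0 → (∀ θ, ⟪v, rt (M.J x) θ (nrm (M.J x) a)⟫ = ‖M.J x v‖ * cos θ) →
      ∃ y₀, M.B.p y₀ = x ∧ (∀ θ, ⟪v, (M.B.rot θ y₀).1.2⟫ = ‖M.J x v‖ * cos θ) ∧
      ∀ y, M.B.p y = x → ∃ θ ∈ Icc (-π) π, y = M.B.rot θ y₀ := fun a ha h => by
    refine ⟨⟨_, M.nrm_mem x.2 ha⟩, rfl, h, ?_⟩
    rintro y rfl
    exact ⟨_, ⟨(Complex.arg_mem_Ioc _).1.le, (Complex.arg_mem_Ioc _).2⟩,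
      Subtype.ext (Prod.ext rfl (hJ.th_spec ha y.2.2.1 y.2.2.2).2.symm)⟩
  by_cases hv : M.J x v = 0
  · obtain ⟨a, ha⟩ := hJ.nz
    exact key a ha fun θ => by rw [hJ.inner_eq (IsJ.JJ_rt (hJ.JJ_nrm a) θ), hv]; simp
  · exact key _ (hJ.neg_ne hv) (hJ.inner_rt hv)

omit hK in
lemma abs_le (v : E4) (y : M.T) : |⟪v, y.1.2⟫| ≤ ‖M.J (M.B.p y) v‖ :=
  (M.isJ _ y.2.1).abs_inner_le y.2.2.1 y.2.2.2 v

omit hK in
lemma star_cos {a θ t : ℝ} (ha : 0 ≤ a) (hθ : θ ∈ Icc (-π) π) (ht : t ∈ Icc (0 : ℝ) 1) :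
    a * cos θ ≤ a * cos (t * θ) := by
  refine mul_le_mul_of_nonneg_left ?_ ha
  rw [← cos_abs θ, ← cos_abs (t * θ), abs_mul, abs_of_nonneg ht.1]
  exact cos_le_cos_of_nonneg_of_le_pi (mul_nonneg ht.1 (abs_nonneg _)) (_root_.abs_le.2 hθ)
    (mul_le_of_le_one_left (abs_nonneg _) ht.2)

lemma closed_T (h0 : 0 < ε) (hε : ε * K < 1) (v : E4) (c : ℝ) :
    IsPreconnected {y : M.T | c ≤ ⟪v, M.F ε y⟫} := by
  have hK' : IsClosed {y : M.T | c ≤ ⟪v, M.F ε y⟫} := isClosed_le continuous_const (by fun_prop)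
  have h1 := closed_of_open (M.g_cont ε v) (M.open_conn hK (by rwa [abs_of_pos h0]) v) c
  rw [isPreconnected_iff_subset_of_disjoint_closed] at h1 ⊢
  intro u w hu hw cov dis
  have fib : ∀ y y', y ∈ {y : M.T | c ≤ ⟪v, M.F ε y⟫} ∩ u → y' ∈ {y : M.T | c ≤ ⟪v, M.F ε y⟫} ∩ w →
      M.B.p y ≠ M.B.p y' := by
    intro y y' hy hy' e
    obtain ⟨y₀, e0, e1, e2⟩ := M.base v (M.B.p y')
    have j : ∀ y, M.B.p y = M.B.p y' → c ≤ ⟪v, M.F ε y⟫ →
        JoinedIn {y : M.T | c ≤ ⟪v, M.F ε y⟫} y₀ y := fun y h h' => by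
      obtain ⟨θ, h2, rfl⟩ := e2 y h
      have := joined_of (F := {y : M.T | c ≤ ⟪v, M.F ε y⟫}) (γ := fun t => M.B.rot (t * θ) y₀)
        (M.B.rot_cont (by fun_prop) continuousOn_const) fun t ht => by
          rw [M.ht_eq, e1, M.B.p_rot] at h'
          rw [mem_ofPred, M.ht_eq, e1, M.B.p_rot]
          linarith [mul_le_mul_of_nonneg_left (star_cos (norm_nonneg (M.J (M.B.p y') v)) h2 ht) h0.le]
      simpa [M.B.rot_zero] using this
    obtain ⟨γ, hγ⟩ := (j y e hy.1).symm.trans (j y' rfl hy'.1)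
    rcases isPreconnected_iff_subset_of_disjoint_closed.1 (isPreconnected_range γ.continuous) u w hu
      hw ((range_subset_iff.2 hγ).trans cov) (subset_eq_empty (inter_subset_inter_left _
      (range_subset_iff.2 hγ)) dis) with h | h
    · exact eq_empty_iff_forall_notMem.1 dis y' ⟨hy'.1, h γ.target_mem_range, hy'.2⟩
    · exact eq_empty_iff_forall_notMem.1 dis y ⟨hy.1, hy.2, h γ.source_mem_range⟩
  have up : ∀ y : M.T, c ≤ ⟪v, M.F ε y⟫ → c ≤ M.g ε v (M.B.p y) := fun y hy => by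
    rw [M.ht_eq] at hy
    linarith [mul_le_mul_of_nonneg_left ((le_abs_self _).trans (M.abs_le v y)) h0.le,
      show M.g ε v (M.B.p y) = _ + _ from rfl]
  refine (h1 _ _ ((hK'.inter hu).isCompact.image M.B.cp).isClosed
    ((hK'.inter hw).isCompact.image M.B.cp).isClosed (fun x hx => ?_) ?_).imp
    (fun h y hy => ?_) fun h y hy => ?_
  · obtain ⟨y₀, e0, e1, -⟩ := M.base v x
    have h2 : c ≤ ⟪v, M.F ε y₀⟫ := by
      have := e1 0
      rw [M.B.rot_zero, cos_zero, mul_one] at this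
      rw [M.ht_eq, this, e0]; exact hx
    exact (cov h2).imp (fun h => ⟨y₀, ⟨h2, h⟩, e0⟩) fun h => ⟨y₀, ⟨h2, h⟩, e0⟩
  · refine eq_empty_iff_forall_notMem.2 ?_
    rintro x ⟨-, ⟨y, hy, e⟩, y', hy', e'⟩
    exact fib y y' hy hy' (e.trans e'.symm)
  · obtain ⟨y', hy', e⟩ := h (up y hy)
    exact (cov hy).resolve_right fun h => fib y' y hy' ⟨hy, h⟩ e
  · obtain ⟨y', hy', e⟩ := h (up y hy)
    exact (cov hy).resolve_left fun h => fib y y' ⟨hy, h⟩ hy' e.symm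

theorem tight (h0 : 0 < ε) (hε : ε * K < 1) {c₂ : Ch (ZMod 2) M.T →ₗ[ZMod 2] ZMod 2}
    (hc₂ : IsCoc c₂ univ) (hc₂' : ∀ y, c₂ (M.B.loop (ZMod 2) y) = 1) (v : E4) (c : ℝ) (k : ℕ) :
    ∀ z ∈ sub (ZMod 2) {y : M.T | c < ⟪v, M.F ε y⟫} (k + 1), z ∈ Bd (ZMod 2) univ (k + 1) →
      z ∈ Bd (ZMod 2) {y : M.T | c < ⟪v, M.F ε y⟫} (k + 1) := by
  intro z hz hb
  have oU : IsOpen {y : M.T | c < ⟪v, M.F ε y⟫} := isOpen_lt continuous_const (by fun_prop)
  have cT := univ_charts M.CT M.CT_cov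
  have cS := univ_charts M.C M.cov
  obtain _ | _ | k := k
  · refine zero_bd (joined_of_locC (locC_of cT) oU (isPreconnected_of_forall_pair fun a ha b hb =>
      ⟨{y : M.T | min ⟪v, M.F ε a⟫ ⟪v, M.F ε b⟫ ≤ ⟪v, M.F ε y⟫},
        fun y hy => mem_ofPred.2 ((lt_min (mem_ofPred.1 ha) (mem_ofPred.1 hb)).trans_le hy), mem_ofPred.2 (min_le_left _ _),
        mem_ofPred.2 (min_le_right _ _),
        M.closed_T hK h0 hε v _⟩)) hz (bd_Bd hb)
  · have hε' : |-ε| * K < 1 := by rwa [abs_neg, abs_of_pos h0]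
    have full : ∀ y : M.T, c < M.g (-ε) v (M.B.p y) → c < ⟪v, M.F ε y⟫ := fun y hy => by
      rw [M.ht_eq]
      linarith [mul_le_mul_of_nonneg_left (neg_le_of_abs_le (M.abs_le v y)) h0.le,
        show M.g (-ε) v (M.B.p y) = _ + _ from rfl]
    have up : ∀ y : M.T, c < ⟪v, M.F ε y⟫ → c < M.g ε v (M.B.p y) := fun y hy => by
      rw [M.ht_eq] at hy
      linarith [mul_le_mul_of_nonneg_left ((le_abs_self _).trans (M.abs_le v y)) h0.le,
        show M.g ε v (M.B.p y) = _ + _ from rfl]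
    refine CB.inj_one (locC_of cS) M.exists_frame oU (fun y hy => ?_)
      (isOpen_lt continuous_const (M.g_cont (-ε) v)) (M.open_conn hK hε' v c)
      (fun y => ⟨fun h θ => full _ h, fun h => ?_⟩) hc₂ hc₂' (fun z hz hb => ?_) hz hb
    · by_cases hA : c < M.g (-ε) v (M.B.p y)
      · obtain ⟨a, ha⟩ := (M.isJ _ (M.B.p y).2).nz
        refine ⟨{x | M.J x a ≠ 0 ∧ c < M.g (-ε) v x}, ((isOpen_ne_fun (by fun_prop)
          continuous_const).inter (isOpen_lt continuous_const (M.g_cont _ v))).mem_nhds ⟨ha, hA⟩,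
          M.frame (a := fun _ => a) continuousOn_const fun _ h => h.1, fun x hx θ _ _ t _ =>
          full _ ?_⟩
        rw [M.B.p_rot, CB.Frame.ps _ x hx]; exact hx.2
      · have hv : M.J (M.B.p y) v ≠ 0 := fun h => hA (by
          have := up y hy
          simp only [g, h, norm_zero, mul_zero] at this ⊢
          exact this)
        refine ⟨{x | M.J x v ≠ 0 ∧ c < M.g ε v x}, ((isOpen_ne_fun (by fun_prop)
          continuous_const).inter (isOpen_lt continuous_const (M.g_cont _ v))).mem_nhds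
          ⟨hv, up y hy⟩, M.frame (a := fun x => -M.J x v) (by fun_prop)
          fun x h => (M.isJ x x.2).neg_ne h.1, fun x hx θ hθ h t ht => ?_⟩
        have val : ∀ θ, ⟪v, M.F ε (M.B.rot θ (M.sec (fun x => -M.J x v) x))⟫ =
            ⟪v, M.f x⟫ + ε * (‖M.J x v‖ * cos θ) := fun θ => by
          have e := M.sec_val (a := fun x => -M.J x v) ((M.isJ x x.2).neg_ne hx.1)
          rw [← (M.isJ x x.2).inner_rt hx.1, F_apply, inner_add_right, real_inner_smul_right]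
          show ⟪v, M.f (M.sec _ x).1.1⟫ + ε * ⟪v, rt (M.J (M.sec _ x).1.1) θ (M.sec _ x).1.2⟫ = _
          rw [e]
        show c < ⟪v, M.F ε (M.B.rot _ (M.sec _ x))⟫
        rw [val]
        refine lt_of_lt_of_le ?_ (add_le_add_right (mul_le_mul_of_nonneg_left
          (star_cos (norm_nonneg _) hθ ht) h0.le) _)
        rcases h with rfl | h
        · rw [cos_zero, mul_one]; exact hx.2
        · rw [← val]; exact h
    · obtain ⟨y₀, e0, e1, e2⟩ := M.base v (M.B.p y)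
      obtain ⟨θ, -, e3⟩ := e2 y rfl
      have := h (π - θ)
      rw [mem_ofPred, M.ht_eq, M.B.p_rot] at this
      conv at this => rhs; rhs; rw [e3, M.B.rot_add, e1, sub_add_cancel, cos_pi]
      simp only [mem_ofPred_eq, g]
      linarith
    · have e : M.B.p '' {y : M.T | c < ⟪v, M.F ε y⟫} = {x | c < M.g ε v x} := by
        refine Subset.antisymm (image_subset_iff.2 up) fun x hx => ?_
        obtain ⟨y₀, e0, e1, -⟩ := M.base v x
        have := e1 0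
        rw [M.B.rot_zero, cos_zero, mul_one] at this
        exact ⟨y₀, by rw [mem_ofPred, M.ht_eq, this, e0]; exact hx, e0⟩
      rw [e] at hz ⊢
      refine inj_of_compl QQ_one.succ cS (by norm_num) (isOpen_lt continuous_const (M.g_cont ε v))
        ?_ le_rfl hz hb
      convert closed_of_open (M.g_cont (-ε) (-v)) (M.open_conn hK hε' (-v)) (-c) using 1
      ext x
      simp only [g, mem_compl_iff, mem_ofPred_eq, not_lt, inner_neg_left, map_neg, norm_neg]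
      constructor <;> intro h <;> linarith
  · refine inj_of_compl QQ_one.succ.succ cT (by norm_num) oU ?_ (by omega) hz hb
    convert M.closed_T hK h0 hε (-v) (-c) using 1
    ext y
    simp

end Surf

end Pool.Agent.P.MP_c88051_gt
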