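import Pool.Agent.P.MP_c88051_gt.Maps
import Pool.Agent.P.MP_c88051_gt.Tube2

/-! The surface of genus seven and its charts. -/

open Set Topology Filter Real
open scoped ContDiff ComplexConjugate RealInnerProductSpace
open Complex (I slitPlane)

namespace Pool.Agent.P.MP_c88051_gt

open Pool.Agent.P.MP_06bfdf_gt

/-- The point of the unit circle with angle `t`. -/
noncomputable def ex (t : ℝ) : ℂ := Complex.exp (t * I)

@[fun_prop] lemma ex_smooth : ContDiff ℝ ∞ ex := by unfold ex; fun_prop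
@[fun_prop] lemma ex_cont : Continuous ex := ex_smooth.continuous
@[simp] lemma norm_ex (t : ℝ) : ‖ex t‖ = 1 := Complex.norm_exp_ofReal_mul_I t
@[simp] lemma ex_re (t : ℝ) : (ex t).re = cos t := Complex.exp_ofReal_mul_I_re t
@[simp] lemma ex_im (t : ℝ) : (ex t).im = sin t := Complex.exp_ofReal_mul_I_im t
lemma ex_add (s t : ℝ) : ex (s + t) = ex s * ex t := by
  rw [ex, ex, ex, ← Complex.exp_add]; push_cast; ring_nf
@[simp] lemma ex_zero : ex 0 = 1 := by simp [ex]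
lemma ex_arg (u : ℂ) : ‖u‖ * ex (Complex.arg u) = u := Complex.norm_mul_exp_arg_mul_I u

lemma ex_deriv (t : ℝ) : HasDerivAt ex (ex t * I) t := by
  have := ((hasDerivAt_id t).ofReal_comp.mul_const I).cexp
  rw [Complex.ofReal_one, one_mul] at this
  exact this

/-- The angle near `α`. -/
noncomputable def an (α : ℝ) (u : ℂ) : ℝ := α + Complex.arg (u * ex (-α))

lemma an_ex {α t r : ℝ} (h : |t - α| < π) (hr : 0 < r) :
    r * ex t * ex (-α) ∈ slitPlane ∧ an α (r * ex t) = t := by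
  rw [abs_lt] at h
  have h1 : Complex.arg (r * ex t * ex (-α)) = t - α := by
    rw [mul_assoc, ← ex_add, Complex.arg_real_mul _ hr, ex, Complex.arg_exp_mul_I,
      ← sub_eq_add_neg, toIocMod_eq_self]
    exact ⟨by linarith, by linarith⟩
  refine ⟨Complex.mem_slitPlane_iff_arg.2 ⟨by rw [h1]; exact h.2.ne, ?_⟩, by rw [an, h1]; ring⟩
  rw [← norm_ne_zero_iff]; simp [hr.ne']

lemma ex_an {α : ℝ} {u : ℂ} (h : u * ex (-α) ∈ slitPlane) :
    |an α u - α| < π ∧ ‖u‖ * ex (an α u) = u := by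
  refine ⟨by
    rw [an, add_sub_cancel_left, abs_lt]
    exact ⟨(Complex.arg_mem_Ioc _).1, lt_of_le_of_ne (Complex.arg_mem_Ioc _).2
      (Complex.slitPlane_arg_ne_pi h)⟩, ?_⟩
  have := ex_arg (u * ex (-α))
  rw [norm_mul, norm_ex, mul_one] at this
  rw [an, ex_add, mul_left_comm, this, mul_left_comm, ← ex_add]; simp

lemma an_smooth {X : Type} [NormedAddCommGroup X] [NormedSpace ℝ X] {g : X → ℂ} {x : X} {α : ℝ}
    (hg : ContDiffAt ℝ ∞ g x) (h : g x * ex (-α) ∈ slitPlane) :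
    ContDiffAt ℝ ∞ (fun x => an α (g x)) x :=
  contDiffAt_const.add (ContDiffAt.comp (g := Complex.arg) x (contDiffAt_arg h) (by fun_prop))

lemma exists_slit {u : ℂ} (h : u ≠ 0) : u * ex (-Complex.arg u) ∈ slitPlane := by
  simpa only [ex_arg] using (an_ex (α := Complex.arg u) (t := Complex.arg u) (by simp [pi_pos])
    (norm_pos_iff.2 h)).1

lemma open_slit {X : Type} [TopologicalSpace X] {g : X → ℂ} (hg : Continuous g) :
    IsOpen {x | g x ∈ slitPlane} := Complex.isOpen_slitPlane.preimage hg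

/-- Sum of the cut-off coordinates. -/
noncomputable def sg (x : EE) : ℝ := ∑ j, (x.2.2.2 j).1

@[fun_prop] lemma sg_cont : Continuous sg := by unfold sg; fun_prop

lemma sg_Tu (j : Fin 6) (q : ℂ × ℝ) : sg (Tu j q) = cut (q.2 ^ 2) := by
  rw [sg, Finset.sum_eq_single j (fun k _ hk => by simp [Tu, hk]) (by simp)]
  simp [Tu]

lemma To_nonneg (j : Fin 6) (z : ℂ × ℂ) : 0 ≤ ((To z).2.2.2 j).1 :=
  add_nonneg (chi_nonneg _ _ _ _ _) (chi_nonneg _ _ _ _ _)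

lemma To_le (j : Fin 6) (z : ℂ × ℂ) : ((To z).2.2.2 j).1 ≤ sg (To z) :=
  Finset.single_le_sum (fun k _ => To_nonneg k z) (Finset.mem_univ j)

/-- The surface. -/
def SU : Set EE := To '' {z | ‖z.1‖ = 1 ∧ ‖z.2‖ = 1 ∧ sg (To z) ≤ 1 / 2} ∪
  ⋃ j, Tu j '' {q | ‖q.1‖ = 1 ∧ 1 / 2 ≤ cut (q.2 ^ 2)}

lemma abs_lt_of_cut {s : ℝ} (h : cut (s ^ 2) ≠ 0) : |s| < 4 :=
  abs_lt_of_sq_lt_sq (not_le.1 fun h' => h (cut_zero (by linarith))) (by norm_num)

lemma Tu_To (j : Fin 6) {q : ℂ × ℝ} (h1 : ‖q.1‖ = 1) (h2 : |q.2| ≤ 4) (h3 : cut (q.2 ^ 2) < 1) :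
    ∃ z : ℂ × ℂ, (‖z.1‖ = 1 ∧ ‖z.2‖ = 1) ∧ Tu j q = To z := by
  have h4 : 4 < q.2 ^ 2 := not_le.1 fun h => h3.ne (cut_one h)
  rw [abs_le] at h2
  rcases le_total q.2 0 with h | h
  · obtain ⟨a, -, -, -, b⟩ := compat0 j h1 h2.1 (by nlinarith)
    exact ⟨_, a, b⟩
  · obtain ⟨a, -, -, -, b⟩ := compat1 j h1 h2.2 (by nlinarith)
    exact ⟨_, a, b⟩

lemma Tu_mem (j : Fin 6) {q : ℂ × ℝ} (h1 : ‖q.1‖ = 1) (h2 : |q.2| ≤ 4) : Tu j q ∈ SU := by
  rcases le_total (1 / 2) (cut (q.2 ^ 2)) with h | h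
  · exact Or.inr (mem_iUnion.2 ⟨j, q, ⟨h1, h⟩, rfl⟩)
  · obtain ⟨z, a, b⟩ := Tu_To j h1 h2 (by linarith)
    exact Or.inl ⟨z, ⟨a.1, a.2, by rw [← b, sg_Tu]; exact h⟩, b.symm⟩

lemma To_mem {z : ℂ × ℂ} (h1 : ‖z.1‖ = 1) (h2 : ‖z.2‖ = 1) (h3 : sg (To z) < 1) : To z ∈ SU := by
  by_cases h : ∀ j, ((To z).2.2.2 j).1 = 0
  · exact Or.inl ⟨z, ⟨h1, h2, by simp [sg, h]⟩, rfl⟩
  · obtain ⟨j, hj⟩ := not_forall.1 h
    obtain ⟨q, a, b, c⟩ := compat h1 h2 hj ((To_le j z).trans_lt h3)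
    exact c ▸ Tu_mem j a b.le

lemma mem_To {x : EE} (hx : x ∈ SU) (h : sg x < 1) :
    ∃ z : ℂ × ℂ, (‖z.1‖ = 1 ∧ ‖z.2‖ = 1) ∧ x = To z := by
  rcases hx with ⟨z, a, rfl⟩ | hx
  · exact ⟨z, ⟨a.1, a.2.1⟩, rfl⟩
  · obtain ⟨j, q, a, rfl⟩ := mem_iUnion.1 hx
    exact Tu_To j a.1 (abs_lt_of_cut (by linarith [a.2])).le (by rwa [← sg_Tu j])

lemma mem_Tu {x : EE} (hx : x ∈ SU) {j : Fin 6} (h : (x.2.2.2 j).1 ≠ 0) :
    ∃ q : ℂ × ℝ, ‖q.1‖ = 1 ∧ |q.2| < 4 ∧ Tu j q = x := by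
  rcases hx with ⟨z, a, rfl⟩ | hx
  · exact compat a.1 a.2.1 h ((To_le j z).trans_lt (by linarith [a.2.2]))
  · obtain ⟨k, q, a, rfl⟩ := mem_iUnion.1 hx
    obtain rfl : j = k := by_contra fun hk => h (by simp [Tu, hk])
    exact ⟨q, a.1, abs_lt_of_cut (by linarith [a.2]), rfl⟩

lemma SU_cov (x : EE) : sg x < 1 ∨ ∃ j, 0 < (x.2.2.2 j).1 := by
  by_contra! h
  linarith [h.1, show sg x ≤ 0 from Finset.sum_nonpos fun j _ => h.2 j]

lemma SU_cpt : IsCompact SU := by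
  refine IsCompact.union (IsCompact.image_of_continuousOn ?_ fun z hz =>
    (To_smooth hz.1 hz.2.1).continuousAt.continuousWithinAt) (isCompact_iUnion fun j =>
    IsCompact.image_of_continuousOn ?_ fun q hq => (Tu_smooth j hq.1
      (abs_lt_of_cut (by linarith [hq.2])).le).continuousAt.continuousWithinAt)
  · refine ((isCompact_sphere (0 : ℂ) 1).prod (isCompact_sphere (0 : ℂ) 1)).of_isClosed_subset
      (IsClosed.and (isClosed_eq (by fun_prop) continuous_const) (IsClosed.and (isClosed_eq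
      (by fun_prop) continuous_const) (isClosed_le ?_ continuous_const))) fun z hz => by
      simpa using ⟨hz.1, hz.2.1⟩
    have := cut_smooth.continuous
    simp only [sg, To, c0, c1, chi]; fun_prop
  · have := cut_smooth.continuous
    refine ((isCompact_sphere (0 : ℂ) 1).prod (isCompact_Icc (a := (-4 : ℝ))
      (b := 4))).of_isClosed_subset (IsClosed.and (isClosed_eq (by fun_prop) continuous_const)
      (isClosed_le continuous_const (by fun_prop))) fun z hz => ⟨by simpa using hz.1,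
      abs_le.1 (abs_lt_of_cut (by linarith [hz.2])).le⟩

/-- Parametrisations by angles. -/
noncomputable def pTo (t : ℝ × ℝ) : EE := To (ex t.1, ex t.2)
noncomputable def pTu (j : Fin 6) (t : ℝ × ℝ) : EE := Tu j (ex t.1, t.2)

lemma pTo_smooth : ContDiff ℝ ∞ pTo := contDiff_iff_contDiffAt.2 fun t =>
  ContDiffAt.comp (g := To) t (To_smooth (norm_ex _) (norm_ex _)) (by fun_prop)

lemma pTu_smooth (j : Fin 6) {t : ℝ × ℝ} (h : |t.2| ≤ 4) : ContDiffAt ℝ ∞ (pTu j) t :=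
  ContDiffAt.comp (g := Tu j) t (Tu_smooth j (norm_ex _) h) (by fun_prop)

/-- Charts of the torus. -/
noncomputable def CTo (α : ℝ × ℝ) : Chart (ℝ × ℝ) SU where
  W := {t | |t.1 - α.1| < π ∧ |t.2 - α.2| < π ∧ sg (pTo t) < 1}
  O := {x | sg x < 1 ∧ x.2.2.1.1 * ex (-α.1) ∈ slitPlane ∧ x.2.2.1.2 * ex (-α.2) ∈ slitPlane}
  ψ := pTo
  ρ x := (an α.1 x.2.2.1.1, an α.2 x.2.2.1.2)
  oW := IsOpen.and (isOpen_lt (by fun_prop) continuous_const) (IsOpen.and (isOpen_lt (by fun_prop)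
    continuous_const) (isOpen_lt (sg_cont.comp pTo_smooth.continuous) continuous_const))
  oO := IsOpen.and (isOpen_lt sg_cont continuous_const) (IsOpen.and (open_slit (by fun_prop))
    (open_slit (by fun_prop)))
  sψ := pTo_smooth.contDiffOn
  sρ x hx := ContDiffAt.contDiffWithinAt (ContDiffAt.prodMk (an_smooth (by fun_prop) hx.2.1)
    (an_smooth (by fun_prop) hx.2.2))
  mem t ht := by
    have a := an_ex ht.1 one_pos
    have b := an_ex ht.2.1 one_pos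
    rw [Complex.ofReal_one, one_mul] at a b
    exact ⟨To_mem (norm_ex _) (norm_ex _) ht.2.2, ⟨ht.2.2, a.1, b.1⟩, Prod.ext a.2 b.2⟩
  inv x hx hO := by
    obtain ⟨z, h, rfl⟩ := mem_To hx hO.1
    have a := ex_an (u := z.1) hO.2.1
    have b := ex_an (u := z.2) hO.2.2
    rw [h.1, Complex.ofReal_one, one_mul] at a
    rw [h.2, Complex.ofReal_one, one_mul] at b
    have e : pTo (an α.1 z.1, an α.2 z.2) = To z := by rw [pTo, a.2, b.2]
    exact ⟨⟨a.1, b.1, (congrArg sg e).trans_lt hO.1⟩, e⟩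

lemma Tu_Y (j : Fin 6) {q : ℂ × ℝ} (h1 : ‖q.1‖ = 1) (h2 : |q.2| < 4) :
    0 < ((Tu j q).2.2.2 j).1 ∧ (∃ r : ℝ, 0 < r ∧
      ((Tu j q).2.2.2 j).2.1 + ((Tu j q).2.2.2 j).2.2 = r * q.1) ∧
      ((((Tu j q).2.2.2 j).2.2 - ((Tu j q).2.2.2 j).2.1) *
        conj (((Tu j q).2.2.2 j).2.1 + ((Tu j q).2.2.2 j).2.2)).re /
        (‖((Tu j q).2.2.2 j).2.1 + ((Tu j q).2.2.2 j).2.2‖ * ((Tu j q).2.2.2 j).1) = q.2 := by
  have a1 : 0 < cut (q.2 ^ 2) := cut_pos (by nlinarith [abs_lt.1 h2])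
  have a2 := ramp_sum_pos q.2
  have a3 := mul_pos a1 a2
  have e : (cut (q.2 ^ 2) * (ramp (-q.2) * q.1) + cut (q.2 ^ 2) * (ramp q.2 * q.1) : ℂ) =
      (cut (q.2 ^ 2) * (ramp (-q.2) + ramp q.2) : ℝ) * q.1 := by push_cast; ring
  have e' : (cut (q.2 ^ 2) * (ramp q.2 * q.1) - cut (q.2 ^ 2) * (ramp (-q.2) * q.1) : ℂ) =
      (cut (q.2 ^ 2) * q.2 : ℝ) * q.1 := by rw [ramp_symm q.2]; push_cast; ring
  simp only [Tu, Pi.single_eq_same, e, e']
  refine ⟨a1, ⟨_, a3, rfl⟩, ?_⟩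
  rw [map_mul, Complex.conj_ofReal, mul_mul_mul_comm, Complex.mul_conj', norm_mul, h1,
    Complex.norm_of_nonneg a3.le, ← Complex.ofReal_pow, ← Complex.ofReal_mul, ← Complex.ofReal_mul,
    Complex.ofReal_re]
  field_simp

/-- Charts of the handles. -/
noncomputable def CTu (i : Fin 6 × ℝ) : Chart (ℝ × ℝ) SU where
  W := {t | |t.1 - i.2| < π ∧ |t.2| < 4}
  O := {x | 0 < (x.2.2.2 i.1).1 ∧
    ((x.2.2.2 i.1).2.1 + (x.2.2.2 i.1).2.2) * ex (-i.2) ∈ slitPlane}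
  ψ := pTu i.1
  ρ x := (an i.2 ((x.2.2.2 i.1).2.1 + (x.2.2.2 i.1).2.2),
    (((x.2.2.2 i.1).2.2 - (x.2.2.2 i.1).2.1) * conj ((x.2.2.2 i.1).2.1 + (x.2.2.2 i.1).2.2)).re /
      (‖(x.2.2.2 i.1).2.1 + (x.2.2.2 i.1).2.2‖ * (x.2.2.2 i.1).1))
  oW := IsOpen.and (isOpen_lt (by fun_prop) continuous_const)
    (isOpen_lt (by fun_prop) continuous_const)
  oO := IsOpen.and (isOpen_lt continuous_const (by fun_prop)) (open_slit (by fun_prop))
  sψ t ht := (pTu_smooth _ ht.2.le).contDiffWithinAt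
  sρ x hx := by
    have h := left_ne_zero_of_mul (Complex.slitPlane_ne_zero hx.2)
    exact ContDiffAt.contDiffWithinAt (ContDiffAt.prodMk (an_smooth (by fun_prop) hx.2)
      (ContDiffAt.div (by fun_prop) (ContDiffAt.mul (ContDiffAt.norm ℝ (by fun_prop) h)
      (by fun_prop)) (mul_ne_zero (norm_ne_zero_iff.2 h) hx.1.ne')))
  mem t ht := by
    obtain ⟨a, ⟨r, b, c⟩, d⟩ := Tu_Y i.1 (q := (ex t.1, t.2)) (norm_ex _) ht.2
    have e := an_ex ht.1 b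
    rw [← c] at e
    exact ⟨Tu_mem _ (norm_ex _) ht.2.le, ⟨a, e.1⟩, Prod.ext e.2 d⟩
  inv x hx hO := by
    obtain ⟨q, h1, h2, rfl⟩ := mem_Tu hx hO.1.ne'
    obtain ⟨a, ⟨r, b, c⟩, d⟩ := Tu_Y i.1 h1 h2
    have e := ex_an hO.2
    refine ⟨⟨e.1, by rw [d]; exact h2⟩, congrArg (Tu i.1) (Prod.ext ?_ d)⟩
    rw [c, norm_mul, h1, mul_one, Complex.norm_of_nonneg b.le] at e
    rw [c]
    exact mul_left_cancel₀ (Complex.ofReal_ne_zero.2 b.ne') e.2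

/-- The immersion and the normal rotation. -/
noncomputable def ff : EE →L[ℝ] E4 := mk.comp (ContinuousLinearMap.fst ℝ _ _)
noncomputable def JJ : EE →L[ℝ] E4 →L[ℝ] E4 :=
  hodge.comp ((ContinuousLinearMap.fst ℝ _ _).comp (ContinuousLinearMap.snd ℝ _ _))

lemma line1 {V : Type} [NormedAddCommGroup V] [NormedSpace ℝ V] {ψ : ℝ × ℝ → V} {u : ℝ × ℝ}
    (hd : DifferentiableAt ℝ ψ u) : HasDerivAt (fun t => ψ (t, u.2)) (fderiv ℝ ψ u (1, 0)) u.1 :=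
  hd.hasFDerivAt.comp_hasDerivAt u.1 ((hasDerivAt_id u.1).prodMk (hasDerivAt_const u.1 u.2))

lemma line2 {V : Type} [NormedAddCommGroup V] [NormedSpace ℝ V] {ψ : ℝ × ℝ → V} {u : ℝ × ℝ}
    (hd : DifferentiableAt ℝ ψ u) : HasDerivAt (fun t => ψ (u.1, t)) (fderiv ℝ ψ u (0, 1)) u.2 :=
  hd.hasFDerivAt.comp_hasDerivAt u.2 ((hasDerivAt_const u.2 u.1).prodMk (hasDerivAt_id u.2))

lemma inj_tan {ψ : ℝ × ℝ → EE} {u : ℝ × ℝ} (hd : DifferentiableAt ℝ ψ u) {a b : ℂ × ℂ} {c : E4}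
    (ha : HasDerivAt (fun t => (ψ (t, u.2)).1) a u.1)
    (hb : HasDerivAt (fun t => (ψ (u.1, t)).1) b u.2)
    (hp : (ψ u).2.1 = npl (mk a) (mk b)) (hi : Ind (mk a) (mk b) c) :
    (Function.Injective fun w => ff (fderiv ℝ ψ u w)) ∧
      ∀ v, JJ (ψ u) v = 0 ↔ ∃ w, ff (fderiv ℝ ψ u w) = v := by
  have e : ∀ w : ℝ × ℝ, ff (fderiv ℝ ψ u w) = w.1 • mk a + w.2 • mk b := fun w => by
    have e1 := (hasFDerivAt_fst.comp_hasDerivAt u.1 (line1 hd)).unique ha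
    have e2 := (hasFDerivAt_fst.comp_hasDerivAt u.2 (line2 hd)).unique hb
    conv_lhs => rw [show w = w.1 • (1, 0) + w.2 • (0, 1) by simp]
    rw [← e1, ← e2, map_add, map_add, map_smul, map_smul, map_smul, map_smul]
    rfl
  refine ⟨(injective_iff_map_eq_zero (ff.comp (fderiv ℝ ψ u))).2 fun w hw => ?_, fun v => ?_⟩
  · have := hi w.1 w.2 0 (by rw [← e, zero_smul, add_zero]; exact hw)
    exact Prod.ext this.1 this.2.1
  · simp only [e]
    rw [← hodge_npl_eq_zero hi.pl_ne, ← hp]; rfl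

lemma hd_mk {f g : ℝ → ℝ} {a b t : ℝ} (hf : HasDerivAt f a t) (hg : HasDerivAt g b t) :
    HasDerivAt (fun t => (⟨f t, g t⟩ : ℂ)) ⟨a, b⟩ t := by
  simp only [mk_eq]; exact hf.ofReal_comp.add (hg.ofReal_comp.mul_const I)

lemma To_tan (u : ℝ × ℝ) : (Function.Injective fun w => ff (fderiv ℝ pTo u w)) ∧
    ∀ v, JJ (pTo u) v = 0 ↔ ∃ w, ff (fderiv ℝ pTo u w) = v := by
  refine inj_tan (pTo_smooth.differentiable (by simp) u) ?_ ?_ rfl (ind_To (norm_ex _) (norm_ex _))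
  · simp only [pTo, To, T1, ex_re, ex_im]
    exact (hd_mk ((GG_deriv _).comp _ (hasDerivAt_sin _)) (hasDerivAt_const _ _)).prodMk
      (hd_mk (((GG_deriv _).comp _ (hasDerivAt_cos _)).congr_deriv (by ring)) (hasDerivAt_const _ _))
  · simp only [pTo, To, T2, ex_re, ex_im]
    exact (hd_mk (hasDerivAt_const _ _) ((GG_deriv _).comp _ (hasDerivAt_sin _))).prodMk
      (hd_mk (hasDerivAt_const _ _) (((GG_deriv _).comp _ (hasDerivAt_cos _)).neg.congr_deriv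
      (by ring)))

lemma Tu_tan (j : Fin 6) {u : ℝ × ℝ} (h : |u.2| ≤ 4) :
    (Function.Injective fun w => ff (fderiv ℝ (pTu j) u w)) ∧
    ∀ v, JJ (pTu j u) v = 0 ↔ ∃ w, ff (fderiv ℝ (pTu j) u w) = v := by
  refine inj_tan ((pTu_smooth j h).differentiableAt (by simp)) ?_ ?_ rfl (ind_Tu j (norm_ex _))
  · simp only [pTu, Tu, Ft, z0, z1]
    exact ((((ex_deriv _).const_mul _).const_add _).sub_const _).prodMk
      (((((ex_deriv _).const_mul _).const_mul _).const_add _).sub_const _)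
  · simp only [pTu, Tu, Fs, z0, z1]
    have d := (SS_deriv u.2).differentiableAt.hasDerivAt.ofReal_comp
    exact (((((((ramp_hasDerivAt _).comp _ (hasDerivAt_neg u.2)).div_const 200).congr_deriv
      (by ring)).ofReal_comp.mul_const _).const_add _).sub (d.mul_const _)).prodMk
      ((((((ramp_hasDerivAt u.2).div_const 200).ofReal_comp.mul_const _).const_add _).sub
      ((d.const_sub 1).mul_const _)).congr_deriv (by ring))

lemma slm_chart {E : Type} [NormedAddCommGroup E] [NormedSpace ℝ E] {S : Set E}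
    (C : Chart (ℝ × ℝ) S) (f : E →L[ℝ] E4) (x : S) (hx : x.1 ∈ C.O)
    (inj : ∀ u ∈ C.W, Function.Injective fun w => f (fderiv ℝ C.ψ u w)) {v : E4}
    (h : ∀ᶠ z : S in 𝓝 x, f z ≠ f x → ⟪v, f z⟫ < ⟪v, f x⟫) : ∃ u ∈ C.W, C.ψ u = x ∧
    (∀ᶠ s in 𝓝[≠] u.1, ⟪v, f (C.ψ (s, u.2))⟫ < ⟪v, f (C.ψ u)⟫) ∧
      ∀ᶠ s in 𝓝[≠] u.2, ⟪v, f (C.ψ (u.1, s))⟫ < ⟪v, f (C.ψ u)⟫ := by
  obtain ⟨h1, h2⟩ := C.inv x x.2 hx
  have h3 : ∀ᶠ w in 𝓝 (C.ρ x), f (C.ψ w) ≠ f x → ⟪v, f (C.ψ w)⟫ < ⟪v, f x⟫ := by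
    filter_upwards [((C.e x).tendsto_symm hx).eventually h, C.oW.mem_nhds h1] with w a b
    rwa [show (((C.e x).symm w : S) : E) = C.ψ w from C.par_val x b] at a
  have d := f.differentiableAt.comp _ (C.diffAt h1)
  have e : ∀ w, w ≠ 0 → fderiv ℝ (f ∘ C.ψ) (C.ρ x) w ≠ 0 := fun w hw h0 => hw (inj _ h1 (by
    rw [fderiv_comp _ f.differentiableAt (C.diffAt h1), f.fderiv] at h0
    simpa using h0))
  refine ⟨_, h1, h2, ?_, ?_⟩
  · rw [h2]
    filter_upwards [(line1 d).eventually_ne (c := f x) (e _ (by simp)), nhdsWithin_le_nhds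
      ((show ContinuousAt (fun s => (s, (C.ρ x).2)) (C.ρ x).1 by fun_prop).eventually h3)]
      with s a b using b a
  · rw [h2]
    filter_upwards [(line2 d).eventually_ne (c := f x) (e _ (by simp)), nhdsWithin_le_nhds
      ((show ContinuousAt (fun s => ((C.ρ x).1, s)) (C.ρ x).2 by fun_prop).eventually h3)]
      with s a b using b a

lemma cov_To {x : EE} (hx : x ∈ SU) (h : sg x < 1) : ∃ α, x ∈ (CTo α).O := by
  obtain ⟨z, a, rfl⟩ := mem_To hx h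
  exact ⟨(Complex.arg z.1, Complex.arg z.2), h, exists_slit (by rw [← norm_ne_zero_iff]; simp [To, a.1]),
    exists_slit (by rw [← norm_ne_zero_iff]; simp [To, a.2])⟩

lemma cov_Tu {x : EE} (hx : x ∈ SU) {j : Fin 6} (h : 0 < (x.2.2.2 j).1) :
    ∃ α, x ∈ (CTu (j, α)).O := by
  obtain ⟨q, a, b, rfl⟩ := mem_Tu hx h.ne'
  obtain ⟨-, ⟨r, c, d⟩, -⟩ := Tu_Y j a b
  exact ⟨Complex.arg _, h, exists_slit (d.trans_ne (by rw [← norm_ne_zero_iff]; simp [a, c.ne']))⟩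

lemma ht_To (v : E4) (t : ℝ × ℝ) : ⟪v, ff (pTo t)⟫ = (v 0 * GG (sin t.1) + v 2 * GG (cos t.1)) +
    (v 1 * GG (sin t.2) + -v 3 * GG (cos t.2)) := by
  simp [inner4, ff, pTo, To, mk_apply]; ring

lemma ht_Tu (j : Fin 6) (v : E4) : ∃ c D P Q P' Q' : ℝ, ∀ t : ℝ × ℝ, ⟪v, ff (pTu j t)⟫ =
    c + (D * SS t.2 + ramp (-t.2) * (P * cos t.1 + Q * sin t.1) +
      ramp t.2 * (P' * cos t.1 + Q' * sin t.1)) := by
  refine ⟨v 0 * cc j + v 2 * (cc j - (AA j).re) + v 3 * (AA j).im,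
    -v 0 * (AA j).re - v 1 * (AA j).im + v 2 * (AA j).re - v 3 * (AA j).im, v 0 / 200, v 1 / 200,
    (v 2 * (ka j).re + v 3 * (ka j).im) / 200, (v 3 * (ka j).re - v 2 * (ka j).im) / 200,
    fun t => ?_⟩
  simp [inner4, ff, pTu, Tu, mk_apply, z0, z1]; ring

lemma slm_To {v : E4} {x : SU} (h : ∀ᶠ z : SU in 𝓝 x, ff z ≠ ff x → ⟪v, ff z⟫ < ⟪v, ff x⟫) :
    ∃ u, pTo u = x ∧ (∀ᶠ s in 𝓝[≠] u.1, v 0 * GG (sin s) + v 2 * GG (cos s) <
      v 0 * GG (sin u.1) + v 2 * GG (cos u.1)) ∧ ∀ᶠ s in 𝓝[≠] u.2,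
      v 1 * GG (sin s) + -v 3 * GG (cos s) < v 1 * GG (sin u.2) + -v 3 * GG (cos u.2) := by
  rcases SU_cov x with h1 | ⟨j, h1⟩
  · obtain ⟨α, hα⟩ := cov_To x.2 h1
    obtain ⟨u, -, a, b, c⟩ := slm_chart (CTo α) ff x hα (fun u _ => (To_tan u).1) h
    simp only [CTo, ht_To, add_lt_add_iff_left, add_lt_add_iff_right] at b c
    exact ⟨u, a, b, c⟩
  · obtain ⟨α, hα⟩ := cov_Tu x.2 h1
    obtain ⟨u, -, -, b, c⟩ := slm_chart (CTu (j, α)) ff x hα (fun u hu => (Tu_tan j hu.2.le).1) h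
    obtain ⟨c₀, D, P, Q, P', Q', e⟩ := ht_Tu j v
    simp only [CTu, e, add_lt_add_iff_left] at b c
    have h2 := handle_no_max c
    have h3 := harmonic_pos (P := ramp (-u.2) * P + ramp u.2 * P')
      (Q := ramp (-u.2) * Q + ramp u.2 * Q') (b.mono fun s hs => by linarith)
    linarith

/-- The immersed surface. -/
noncomputable def MM : Surf EE where
  S := SU
  ι := (ℝ × ℝ) ⊕ (Fin 6 × ℝ)
  C := Sum.elim CTo CTu
  f := ff
  J := JJ
  cpt := SU_cpt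
  ne := ⟨_, Tu_mem 0 (q := (1, 0)) (by simp) (by simp)⟩
  cov x hx := by
    rcases SU_cov x with h | ⟨j, h⟩
    · obtain ⟨α, hα⟩ := cov_To hx h
      exact ⟨Sum.inl α, hα⟩
    · obtain ⟨α, hα⟩ := cov_Tu hx h
      exact ⟨Sum.inr (j, α), hα⟩
  isJ x hx := by
    rcases hx with ⟨z, a, rfl⟩ | hx
    · exact isJ_npl (ind_To a.1 a.2.1).pl_ne
    · obtain ⟨j, q, a, rfl⟩ := mem_iUnion.1 hx
      exact isJ_npl (ind_Tu j a.1).pl_ne
  inj i u hu := by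
    rcases i with α | i
    exacts [(To_tan u).1, (Tu_tan i.1 hu.2.le).1]
  tan i u hu := by
    rcases i with α | i
    exacts [(To_tan u).2, (Tu_tan i.1 hu.2.le).2]
  tpp v c := by
    have : CompactSpace SU := isCompact_iff_compactSpace.1 SU_cpt
    refine tpp_of_unique (f := fun x : SU => ff x) (by fun_prop) (fun v x y hx hy => ?_) v c
    obtain ⟨u, a, b, c⟩ := slm_To hx
    obtain ⟨u', a', b', c'⟩ := slm_To hy
    have e1 := curve_unique b b'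
    have e2 := curve_unique c c'
    refine Subtype.ext (a.symm.trans (Eq.trans (congrArg To (Prod.ext ?_ ?_)) a'))
    · exact Complex.ext (by simp [e1.1]) (by simp [e1.2])
    · exact Complex.ext (by simp [e2.1]) (by simp [e2.2])

end Pool.Agent.P.MP_c88051_gt
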