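import Pool.Agent.P.MP_c88051_gt.Roots

/-! Twelve times the fibre of the normal circle bundle bounds. -/

open Set Topology Filter Real
open scoped ComplexConjugate
open Complex (I)

namespace Pool.Agent.P.MP_c88051_gt

open Pool.Agent.P.MP_06bfdf_gt Pool.Agent.Lib.Helper83

open Classical in
/-- The normal direction defined by a transverse field. -/
noncomputable def sc (a : EE → ℂ × ℂ) (x : EE) : MM.T :=
  if h : (x, nrm (JJ x) (mk (a x))) ∈ MM.T then ⟨_, h⟩ else Classical.arbitrary _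

lemma sc_val {a : EE → ℂ × ℂ} {x : EE} (hx : x ∈ SU) (h : JJ x (mk (a x)) ≠ 0) :
    (sc a x).1 = (x, nrm (JJ x) (mk (a x))) := by
  rw [sc, dif_pos (show (x, nrm (JJ x) (mk (a x))) ∈ MM.T from MM.nrm_mem hx h)]

lemma sc_cont {X : Type} [TopologicalSpace X] {a : EE → ℂ × ℂ} (ca : Continuous a) {γ : X → EE}
    {K : Set X} (cγ : ContinuousOn γ K) (h : ∀ t ∈ K, γ t ∈ SU ∧ JJ (γ t) (mk (a (γ t))) ≠ 0) :
    ContinuousOn (fun t => sc a (γ t)) K := by
  rw [Topology.IsInducing.subtypeVal.continuousOn_iff]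
  refine ContinuousOn.congr (f := fun t => (γ t, nrm (JJ (γ t)) (mk (a (γ t))))) ?_
    fun t ht => sc_val (h t ht).1 (h t ht).2
  have h1 : ContinuousOn (fun t => JJ (γ t) (mk (a (γ t)))) K :=
    ContinuousOn.clm_apply (by fun_prop) (by fun_prop)
  exact cγ.prodMk ((h1.norm.inv₀ fun t ht => norm_ne_zero_iff.2 (h t ht).2).smul h1)

lemma sc_rot {a b : EE → ℂ × ℂ} {x : EE} (hx : x ∈ SU) (ha : JJ x (mk (a x)) ≠ 0)
    (hb : JJ x (mk (b x)) ≠ 0) {θ : ℝ}
    (h : rt (JJ x) θ (nrm (JJ x) (mk (a x))) = nrm (JJ x) (mk (b x))) :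
    MM.B.rot θ (sc a x) = sc b x := by
  refine Subtype.ext ?_
  show ((sc a x).1.1, rt (JJ (sc a x).1.1) θ (sc a x).1.2) = _
  rw [sc_val hx ha, sc_val hx hb, h]

/-- Sections over the torus and over the handles. -/
noncomputable def GT (t : ℝ × ℝ) : MM.T := sc (fun x => ao x.2.2.1) (pTo t)
noncomputable def GH (j : Fin 6) (t : ℝ × ℝ) : MM.T := sc a1 (pTu j t)

/-- Outside the holes. -/
def Gd (y₁ y₂ x₁ x₂ : ℝ) : Prop := ∀ j, 0 < x₁ → 0 < x₂ → 4 < 40000 * ((y₁ - cc j) ^ 2 + y₂ ^ 2)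
def Good (t : ℝ × ℝ) : Prop :=
  Gd (sin t.1) (sin t.2) (cos t.1) (cos t.2) ∧ Gd (cos t.1) (cos t.2) (sin t.1) (sin t.2)

lemma gd_big {y₁ y₂ x₁ x₂ : ℝ} (h : 1 / 2 ≤ y₂ ^ 2) : Gd y₁ y₂ x₁ x₂ := fun j _ _ => by
  nlinarith [sq_nonneg (y₁ - cc j)]

lemma gd_ring (j : Fin 6) {a b x₁ x₂ : ℝ} (h : a ^ 2 + b ^ 2 = 1) :
    Gd (cc j + 3 / 200 * a) (3 / 200 * b) x₁ x₂ := fun k _ _ => by
  have h1 : |a| ≤ 1 := abs_le_of_sq_le_sq (by nlinarith) zero_le_one
  rw [abs_le] at h1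
  rcases eq_or_ne j k with rfl | e
  · nlinarith
  · rcases cc_sep e with e | e <;> nlinarith

lemma Gd.mono {y₁ y₂ x₁ x₂ y x : ℝ} (h : Gd y₁ y₂ x₁ x₂)
    (e : 0 < x → 0 < x₂ ∧ y₂ ^ 2 ≤ y ^ 2 ∨ 1 / 2 ≤ y ^ 2) : Gd y₁ y x₁ x := fun j a b =>
  (e b).elim (fun c => by linarith [h j a c.1, c.2]) fun c => gd_big c j a b

lemma Gd.lt {y₁ y₂ x₁ x₂ : ℝ} (h : Gd y₁ y₂ x₁ x₂) (h1 : x₁ ^ 2 + y₁ ^ 2 = 1)
    (h2 : x₂ ^ 2 + y₂ ^ 2 = 1) (j : Fin 6) (h0 : chi j y₁ y₂ x₁ x₂ ≠ 0) :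
    chi j y₁ y₂ x₁ x₂ < 1 ∧ chi j x₁ x₂ y₁ y₂ = 0 := by
  obtain ⟨-, a, b⟩ := chi_pos h1 h2 h0
  refine ⟨?_, chi_far _ _ (Or.inr (le_abs.2 (Or.inl (by linarith))))⟩
  rw [chi_eq (by linarith) (by linarith)]
  exact stp_lt_one (by linarith [h j (by linarith) (by linarith)])

lemma Good.lt {t : ℝ × ℝ} (h : Good t) : sg (pTo t) < 1 := by
  by_cases h0 : ∀ j, ((pTo t).2.2.2 j).1 = 0
  · simp [sg, h0]
  obtain ⟨j, hj⟩ := not_forall.1 h0
  have h1 : ((pTo t).2.2.2 j).1 < 1 := by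
    simp only [pTo, To, c0, c1, ex_re, ex_im] at hj ⊢
    by_cases h2 : chi j (sin t.1) (sin t.2) (cos t.1) (cos t.2) = 0
    · rw [h2, zero_add] at hj ⊢
      exact (h.2.lt (sin_sq_add_cos_sq _) (sin_sq_add_cos_sq _) j hj).1
    · obtain ⟨a, b⟩ := h.1.lt (cos_sq_add_sin_sq _) (cos_sq_add_sin_sq _) j h2
      rwa [b, add_zero]
  obtain ⟨q, -, -, e⟩ := compat (z := (ex t.1, ex t.2)) (norm_ex _) (norm_ex _) hj h1
  rw [pTo, ← e] at h1 ⊢
  rw [sg_Tu]
  simpa [Tu] using h1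

lemma Good.ne {t : ℝ × ℝ} (h : Good t) :
    pTo t ∈ SU ∧ JJ (pTo t) (mk (ao (pTo t).2.2.1)) ≠ 0 :=
  ⟨To_mem (norm_ex _) (norm_ex _) h.lt, (ind_To (norm_ex _) (norm_ex _)).hodge_ne⟩

lemma GT_cont : ContinuousOn GT {t | Good t} :=
  sc_cont (by unfold ao; fun_prop) pTo_smooth.continuous.continuousOn fun _ h => Good.ne h

lemma GH_ne (j : Fin 6) {t : ℝ × ℝ} (h : |t.2| < 4) :
    pTu j t ∈ SU ∧ JJ (pTu j t) (mk (a1 (pTu j t))) ≠ 0 :=
  ⟨Tu_mem j (norm_ex _) h.le, a1_ne (Tu_mem j (norm_ex _) h.le)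
    (Or.inl ⟨j, (Tu_Y j (norm_ex _) h).1⟩)⟩

lemma GH_cont (j : Fin 6) : ContinuousOn (GH j) {t | |t.2| < 4} :=
  sc_cont a1_cont (fun _ h => (pTu_smooth j (le_of_lt h)).continuousAt.continuousWithinAt)
    fun _ h => GH_ne j h

lemma ex_per (t : ℝ) : ex (t + 2 * π) = ex t := by
  apply Complex.ext <;> simp

/-- Loops around the holes. -/
noncomputable def l0 (j : Fin 6) (θ : ℝ) : ℝ × ℝ :=
  (arcsin (cc j + 3 / 200 * cos θ), arcsin (3 / 200 * sin θ))
noncomputable def l1 (j : Fin 6) (θ : ℝ) : ℝ × ℝ :=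
  (arccos (cc j + 3 / 200 * cos θ), arccos (3 / 200 * -sin θ))

@[fun_prop] lemma l0_cont (j : Fin 6) : Continuous (l0 j) := by unfold l0; fun_prop
@[fun_prop] lemma l1_cont (j : Fin 6) : Continuous (l1 j) := by unfold l1; fun_prop

lemma bnd (j : Fin 6) (θ : ℝ) : (-1 ≤ cc j + 3 / 200 * cos θ ∧ cc j + 3 / 200 * cos θ ≤ 1) ∧
    (-1 ≤ 3 / 200 * sin θ ∧ 3 / 200 * sin θ ≤ 1) ∧ -1 ≤ 3 / 200 * -sin θ ∧ 3 / 200 * -sin θ ≤ 1 := by
  have := cc_le j
  have := neg_one_le_cos θ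
  have := cos_le_one θ
  have := neg_one_le_sin θ
  have := sin_le_one θ
  refine ⟨⟨?_, ?_⟩, ⟨?_, ?_⟩, ?_, ?_⟩ <;> linarith

lemma good_l0 (j : Fin 6) (θ : ℝ) : Good (l0 j θ) := by
  obtain ⟨a, b, -⟩ := bnd j θ
  refine ⟨?_, gd_big ?_⟩
  · simp only [l0, sin_arcsin a.1 a.2, sin_arcsin b.1 b.2]
    exact gd_ring j (cos_sq_add_sin_sq θ)
  · simp only [l0, cos_sq', sin_arcsin b.1 b.2]
    nlinarith [sin_sq_le_one θ]

lemma good_l1 (j : Fin 6) (θ : ℝ) : Good (l1 j θ) := by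
  obtain ⟨a, -, b⟩ := bnd j θ
  refine ⟨gd_big ?_, ?_⟩
  · simp only [l1, sin_sq, cos_arccos b.1 b.2]
    nlinarith [sin_sq_le_one θ]
  · simp only [l1, cos_arccos a.1 a.2, cos_arccos b.1 b.2]
    exact gd_ring j (by simp)

lemma ex_ka (j : Fin 6) : ex (Complex.arg (ka j)) = ka j := by
  simpa [norm_ka] using ex_arg (ka j)

lemma end0 (j : Fin 6) (θ : ℝ) :
    MM.B.rot (Complex.arg (ka j) + θ) (GT (l0 j θ)) = GH j (θ, -3) := by
  obtain ⟨a, b, -⟩ := bnd j θ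
  obtain ⟨-, -, c, d, e⟩ := compat0 j (q := (ex θ, -3)) (norm_ex _) (by norm_num) (by norm_num)
  have r : ramp (- -3) = 3 := by rw [neg_neg]; exact ramp_of_ge (by norm_num)
  have f : u0 j (ex θ, -3) = (ex (l0 j θ).1, ex (l0 j θ).2) := by
    refine Prod.ext ?_ ?_ <;> apply Complex.ext <;>
    simp only [u0, up, z0, r, l0, ex_re, ex_im, cos_arcsin, sin_arcsin a.1 a.2, sin_arcsin b.1 b.2,
      Complex.add_re, Complex.add_im, Complex.ofReal_re, Complex.ofReal_im, Complex.re_ofReal_mul,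
      Complex.im_ofReal_mul, zero_add]
  have g : pTu j (θ, -3) = pTo (l0 j θ) := e.trans (congrArg To f)
  have h := GH_ne j (t := (θ, -3)) (by norm_num [abs_lt])
  have J : JJ (pTu j (θ, -3)) = hodge p0 := congrArg hodge d
  have k := (good_l0 j θ).ne.2
  rw [GT, ← g] at *
  refine sc_rot h.1 k h.2 ?_
  rw [J, pTu, a1_Tu j (norm_ex _) (by norm_num [abs_lt]), e, ao, ww, Prod.smul_mk,
    nrm_p0 (u := 1) (r := (u0 j (ex θ, -3)).2.re) _ (by linarith) (by simp)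
      (by apply Complex.ext <;> simp [To]), nrm_p0 (u := ka j * ex θ) (r := cut ((-3) ^ 2) * 3) _
      (mul_pos (cut_pos (by norm_num)) (by norm_num)) (by simp [norm_ka]) (by
        simp only [r, Complex.real_smul]; push_cast
        linear_combination (-cut ((-3) ^ 2) * ka j * 3 * ex θ) * Complex.I_mul_I), rt_p0, mul_one,
    ← ex, ex_add, ex_ka]

lemma end1 (j : Fin 6) (θ : ℝ) :
    MM.B.rot (θ - Complex.arg (ka j)) (GH j (θ - Complex.arg (ka j), 3)) = GT (l1 j θ) := by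
  obtain ⟨a, -, b⟩ := bnd j θ
  obtain ⟨-, -, c, d, e⟩ := compat1 j (q := (ex (θ - Complex.arg (ka j)), 3)) (norm_ex _)
    (by norm_num) (by norm_num)
  have r : ramp 3 = 3 := ramp_of_ge (by norm_num)
  have r' : ka j * ex (θ - Complex.arg (ka j)) = ex θ := by
    nth_rw 1 [← ex_ka]; rw [← ex_add, add_sub_cancel]
  have f : u1 j (ex (θ - Complex.arg (ka j)), 3) = (ex (l1 j θ).1, ex (l1 j θ).2) := by
    refine Prod.ext ?_ ?_ <;> apply Complex.ext <;>
    simp only [u1, ri, z1, r, r', l1, ex_re, ex_im, sin_arccos, cos_arccos a.1 a.2,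
      cos_arccos b.1 b.2, Complex.add_re, Complex.add_im, Complex.ofReal_re, Complex.ofReal_im,
      Complex.re_ofReal_mul, Complex.im_ofReal_mul, zero_add, ← mul_neg]
  have g : pTu j (θ - Complex.arg (ka j), 3) = pTo (l1 j θ) := e.trans (congrArg To f)
  have h := GH_ne j (t := (θ - Complex.arg (ka j), 3)) (by norm_num [abs_lt])
  have J : JJ (pTu j (θ - Complex.arg (ka j), 3)) = hodge p1 := congrArg hodge d
  have k := (good_l1 j θ).ne.2
  rw [GT, ← g] at *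
  refine sc_rot h.1 h.2 k ?_
  rw [J, pTu, a1_Tu j (norm_ex _) (by norm_num [abs_lt]), e, ao, ww, Prod.smul_mk,
    nrm_p1 (u := ex (θ - Complex.arg (ka j)) * 1)
      (r := cut (3 ^ 2) * 3) _ (mul_pos (cut_pos (by norm_num)) (by norm_num)) (by simp) (by
        simp only [r, Complex.real_smul]; push_cast
        linear_combination (-cut (3 ^ 2) * 3 * ex (θ - Complex.arg (ka j))) * Complex.I_mul_I),
    nrm_p1 (u := 1) (r := (u1 j (ex (θ - Complex.arg (ka j)), 3)).2.im) _ (by linarith) (by simp)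
      (by apply Complex.ext <;> simp [To])]
  exact rt_p1 _ _

variable {R : Type} [CommRing R] {A : Type} [AddCommGroup A] [Module R A]

lemma tele {D : ℝ → A} (h : ∀ a b, a ≤ b → (∀ s ∈ Icc a b, ∀ j, 0 < cos s →
    4 < 40000 * (sin s - cc j) ^ 2) → D a = D b) :
    ∑ j, (D (arcsin (cc j - 3 / 200)) - D (arcsin (cc j + 3 / 200))) =
      D (-(3 * π / 4)) - D (5 * π / 4) := by
  have g : ∀ u v : ℝ, -1 ≤ u → u ≤ v → v ≤ 1 → (∀ j, cc j + 3 / 200 ≤ u ∨ v ≤ cc j - 3 / 200) →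
      D (arcsin u) = D (arcsin v) := fun u v h1 h2 h3 h4 => h _ _ (arcsin_le_arcsin h2) fun s hs j _ => by
    have a := (arcsin_le_iff_le_sin ⟨h1, h2.trans h3⟩ ⟨(neg_pi_div_two_le_arcsin u).trans hs.1,
      hs.2.trans (arcsin_le_pi_div_two v)⟩).1 hs.1
    have b := (le_arcsin_iff_sin_le ⟨(neg_pi_div_two_le_arcsin u).trans hs.1,
      hs.2.trans (arcsin_le_pi_div_two v)⟩ ⟨h1.trans h2, h3⟩).1 hs.2
    rcases h4 j with c | c <;> nlinarith
  have p := pi_pos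
  have a0 := h (-(3 * π / 4)) (-(π / 2)) (by linarith) fun s hs _ h0 => (not_le.2 h0 (by
    rw [← cos_neg]; exact cos_nonpos_of_pi_div_two_le_of_le (by linarith [hs.2])
      (by linarith [hs.1]))).elim
  have a8 := h (π / 2) (5 * π / 4) (by linarith) fun s hs _ h0 => (not_le.2 h0
    (cos_nonpos_of_pi_div_two_le_of_le hs.1 (by linarith [hs.2]))).elim
  have a1 := g (-1) (cc 0 - 3 / 200) le_rfl (by norm_num [cc]) (by norm_num [cc])
    fun j => by fin_cases j <;> norm_num [cc]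
  have a2 := g (cc 0 + 3 / 200) (cc 1 - 3 / 200) (by norm_num [cc]) (by norm_num [cc])
    (by norm_num [cc]) fun j => by fin_cases j <;> norm_num [cc]
  have a3 := g (cc 1 + 3 / 200) (cc 2 - 3 / 200) (by norm_num [cc]) (by norm_num [cc])
    (by norm_num [cc]) fun j => by fin_cases j <;> norm_num [cc]
  have a4 := g (cc 2 + 3 / 200) (cc 3 - 3 / 200) (by norm_num [cc]) (by norm_num [cc])
    (by norm_num [cc]) fun j => by fin_cases j <;> norm_num [cc]
  have a5 := g (cc 3 + 3 / 200) (cc 4 - 3 / 200) (by norm_num [cc]) (by norm_num [cc])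
    (by norm_num [cc]) fun j => by fin_cases j <;> norm_num [cc]
  have a6 := g (cc 4 + 3 / 200) (cc 5 - 3 / 200) (by norm_num [cc]) (by norm_num [cc])
    (by norm_num [cc]) fun j => by fin_cases j <;> norm_num [cc]
  have a7 := g (cc 5 + 3 / 200) 1 (by norm_num [cc]) (by norm_num [cc]) le_rfl
    fun j => by fin_cases j <;> norm_num [cc]
  rw [arcsin_neg_one] at a1
  rw [arcsin_one] at a7
  rw [Fin.sum_univ_six, a0, a1, a2, a3, a4, a5, a6, a7, a8]
  abel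

variable {ω : Ch R MM.T →ₗ[R] A} (hω : IsCoc ω univ)
include hω

lemma split2 {g : ℝ → MM.T} (hg : Continuous g) : ω (edge R fun s => g (2 * π * s)) =
    ω (edge R fun t => g (π * t)) + ω (edge R fun t => g (π + π * t)) := by
  obtain ⟨ψ, hψ⟩ := (hω.pull hg.continuousOn (mapsTo_univ _ univ)).pot_convex convex_univ
  rw [hψ.edge' (by fun_prop) (mapsTo_univ _ _), hψ.edge' (by fun_prop) (mapsTo_univ _ _),
    hψ.edge' (by fun_prop) (mapsTo_univ _ _)]
  simp [two_mul]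

lemma strip {a b c : ℝ} (hc : c ∈ Icc a b) (h0 : ∀ s, Good (s, c))
    (h1 : ∀ s, ∀ t ∈ Icc a b, ∀ t' ∈ uIcc t c, Good (s, t) → Good (s, t')) :
    ∃ ψ, IsPot (ω ∘ₗ push GT) {t | t.2 ∈ Icc a b ∧ Good t} ψ := by
  have h := hω.pull GT_cont (mapsTo_univ _ _)
  obtain ⟨ψ, hψ⟩ := (h.mono (S' := univ ×ˢ {c}) fun t ht => by
    rw [show t = (t.1, c) from Prod.ext rfl ht.2]; exact h0 _).pot_convex
    (convex_univ.prod (convex_singleton c))
  refine (h.mono fun _ h => h.2).pot_deform (H := fun q => (q.1.1, (1 - q.2) * q.1.2 + q.2 * c))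
    (by fun_prop) (fun q hq => ?_) (by simp) (by simp) hψ
  have : (1 - q.2) * q.1.2 + q.2 * c ∈ uIcc q.1.2 c := convex_uIcc _ _ left_mem_uIcc right_mem_uIcc
    (sub_nonneg.2 hq.2.2) hq.2.1 (by ring)
  exact ⟨uIcc_subset_Icc hq.1.1 hc this, h1 _ _ hq.1.1 _ this hq.1.2⟩

lemma torus_rel : ∑ j, ω (edge R fun s => GT (l1 j (2 * π * s))) =
    ∑ j, ω (edge R fun s => GT (l0 j (2 * π * s))) := by
  have p := pi_pos
  obtain ⟨ψ₁, h₁⟩ := strip hω (a := 0) (b := π / 2) (c := π / 4) ⟨by linarith, by linarith⟩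
    (fun s => ⟨gd_big (by simp [div_pow]; norm_num), gd_big (by simp [div_pow]; norm_num)⟩)
    fun s t ht t' ht' h => by
      have e1 : sin (π / 4) ^ 2 = 1 / 2 := by simp [div_pow]; norm_num
      have e2 : cos (π / 4) ^ 2 = 1 / 2 := by simp [div_pow]; norm_num
      have m1 : ∀ u v, 0 ≤ u → u ≤ v → v ≤ π / 2 → sin u ^ 2 ≤ sin v ^ 2 ∧ cos v ^ 2 ≤ cos u ^ 2 :=
        fun u v a b c => by
          have := pow_le_pow_left₀ (sin_nonneg_of_nonneg_of_le_pi a (by linarith))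
            (sin_le_sin_of_le_of_le_pi_div_two (by linarith) c b) 2
          exact ⟨this, by rw [cos_sq', cos_sq']; linarith⟩
      rcases mem_uIcc.1 ht' with ⟨a, b⟩ | ⟨a, b⟩
      · exact ⟨h.1.mono fun _ => Or.inl ⟨cos_pos_of_mem_Ioo ⟨by linarith [ht.1], by linarith⟩,
          (m1 _ _ ht.1 a (by linarith)).1⟩, gd_big (e2 ▸ (m1 _ _ (ht.1.trans a) b (by linarith)).2)⟩
      · exact ⟨gd_big (e1 ▸ (m1 _ _ (by linarith) a (b.trans ht.2)).1), h.2.mono fun _ => Or.inl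
          ⟨sin_pos_of_pos_of_lt_pi (by linarith) (by linarith [ht.2]),
          (m1 _ _ (by linarith) b ht.2).2⟩⟩
  have n1 : ∀ t, π ≤ t → t ≤ 2 * π → sin t ≤ 0 := fun t a b => by
    rw [← sin_sub_two_pi]; exact sin_nonpos_of_nonpos_of_neg_pi_le (by linarith) (by linarith)
  have n2 : ∀ t, π / 2 ≤ t → t ≤ π + π / 2 → cos t ≤ 0 := fun t => cos_nonpos_of_pi_div_two_le_of_le
  obtain ⟨ψ₂, h₂⟩ := strip hω (a := π / 2) (b := 2 * π) (c := π) ⟨by linarith, by linarith⟩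
    (fun s => ⟨fun _ _ h => by norm_num at h, gd_big (by norm_num)⟩)
    fun s t ht t' ht' h => by
      rcases mem_uIcc.1 ht' with ⟨a, b⟩ | ⟨a, b⟩
      · refine ⟨fun _ _ c => (not_le.2 c (n2 _ (ht.1.trans a) (by linarith))).elim,
          h.2.mono fun c => Or.inl ?_⟩
        have : sin t' ≤ sin t := by
          rw [← sin_pi_sub, ← sin_pi_sub t]
          exact sin_le_sin_of_le_of_le_pi_div_two (by linarith) (by linarith [ht.1]) (by linarith)
        exact ⟨c.trans_le this, by rw [cos_sq', cos_sq']; nlinarith⟩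
      · refine ⟨h.1.mono fun c => Or.inl ?_, fun _ _ c => (not_le.2 c (n1 _ a (b.trans ht.2))).elim⟩
        have : cos t' ≤ cos t := by
          rw [← cos_two_pi_sub, ← cos_two_pi_sub t]
          exact cos_le_cos_of_nonneg_of_le_pi (by linarith [ht.2]) (by linarith) (by linarith)
        exact ⟨c.trans_le this, by rw [sin_sq, sin_sq]; nlinarith⟩
  have per1 : ∀ s t, GT (s + 2 * π, t) = GT (s, t) := fun s t => by simp only [GT, pTo, ex_per]
  have per2 : ∀ t : ℝ × ℝ, GT t = GT (t.1, t.2 + 2 * π) := fun t => by simp only [GT, pTo, ex_per]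
  have seg : ∀ a b : ℝ, a ≤ b → ∀ t ∈ Icc (0 : ℝ) 1, (1 - t) * a + t * b ∈ Icc a b :=
    fun a b h t ht => ⟨by nlinarith [ht.1], by nlinarith [ht.2]⟩
  have rowB := tele (D := fun s => ψ₁ (s, 0) - ψ₂ (s, 0 + 2 * π)) fun a b hab h => by
    have g : ∀ s ∈ Icc a b, Good (s, 0) := fun s hs =>
      ⟨fun j c _ => by simpa using h s hs j c, gd_big (by norm_num)⟩
    have e1 := h₁.edge' (γ := fun t => ((1 - t) * a + t * b, 0)) (by fun_prop) fun t ht =>
      ⟨⟨le_rfl, by linarith⟩, g _ (seg a b hab t ht)⟩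
    have e2 := h₂.edge' (γ := fun t => ((1 - t) * a + t * b, 0 + 2 * π)) (by fun_prop) fun t ht =>
      ⟨⟨by linarith, by linarith⟩, by simpa [Good] using g _ (seg a b hab t ht)⟩
    simp only [per2 (_, 0), e2, sub_self, sub_zero, zero_mul, one_mul, zero_add b,
      add_zero] at e1
    linear_combination (norm := abel) e1
  have rowA := tele (D := fun s => ψ₁ (π / 2 - s, π / 2) - ψ₂ (π / 2 - s, π / 2))
    fun a b hab h => by
    have g : ∀ s ∈ Icc a b, Good (π / 2 - s, π / 2) := fun s hs =>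
      ⟨gd_big (by norm_num), fun j c _ => by
        simpa [cos_pi_div_two_sub] using h s hs j (by simpa [sin_pi_div_two_sub] using c)⟩
    have e1 := h₁.edge' (γ := fun t => (π / 2 - ((1 - t) * a + t * b), π / 2)) (by fun_prop)
      fun t ht => ⟨⟨by linarith, le_rfl⟩, g _ (seg a b hab t ht)⟩
    have e2 := h₂.edge' (γ := fun t => (π / 2 - ((1 - t) * a + t * b), π / 2)) (by fun_prop)
      fun t ht => ⟨⟨le_rfl, by linarith⟩, g _ (seg a b hab t ht)⟩
    simp only [e2, sub_self, sub_zero, zero_mul, one_mul, zero_add, add_zero] at e1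
    linear_combination (norm := abel) e1
  have cG : ∀ l : ℝ → ℝ × ℝ, Continuous l → (∀ θ, Good (l θ)) → Continuous fun θ => GT (l θ) :=
    fun l h h' => GT_cont.comp_continuous h h'
  have s1 : ∀ t ∈ Icc (0 : ℝ) 1, 0 ≤ sin (π * t) := fun t ht =>
    sin_nonneg_of_nonneg_of_le_pi (mul_nonneg p.le ht.1) (by nlinarith [ht.2])
  have hole0 : ∀ j, ω (edge R fun s => GT (l0 j (2 * π * s))) =
      (ψ₁ (arcsin (cc j - 3 / 200), 0) - ψ₂ (arcsin (cc j - 3 / 200), 0 + 2 * π)) -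
      (ψ₁ (arcsin (cc j + 3 / 200), 0) - ψ₂ (arcsin (cc j + 3 / 200), 0 + 2 * π)) := fun j => by
    rw [split2 hω (cG _ (l0_cont j) (good_l0 j)), h₁.edge' (by fun_prop) fun t ht =>
      ⟨⟨arcsin_nonneg.2 (by linarith [s1 t ht]), arcsin_le_pi_div_two _⟩, good_l0 j _⟩]
    simp only [per2 (l0 j (π + _))]
    rw [h₂.edge' (γ := fun t => ((l0 j (π + π * t)).1, (l0 j (π + π * t)).2 + 2 * π)) (by fun_prop)
      fun t ht => ⟨⟨by linarith [neg_pi_div_two_le_arcsin (3 / 200 * sin (π + π * t)), show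
        (l0 j (π + π * t)).2 = arcsin (3 / 200 * sin (π + π * t)) from rfl], add_le_of_nonpos_left
        (arcsin_nonpos.2 (by rw [add_comm, sin_add_pi]; linarith [s1 t ht]))⟩,
        by simpa [Good] using good_l0 j (π + π * t)⟩]
    simp [l0, ← two_mul, ← sub_eq_add_neg]
    abel
  have hole1 : ∀ j, ω (edge R fun s => GT (l1 j (2 * π * s))) =
      -((ψ₁ (π / 2 - arcsin (cc j - 3 / 200), π / 2) - ψ₂ (π / 2 - arcsin (cc j - 3 / 200), π / 2)) -
      (ψ₁ (π / 2 - arcsin (cc j + 3 / 200), π / 2) -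
        ψ₂ (π / 2 - arcsin (cc j + 3 / 200), π / 2))) := fun j => by
    rw [split2 hω (cG _ (l1_cont j) (good_l1 j)), h₂.edge' (by fun_prop) fun t ht =>
      ⟨⟨not_lt.1 fun h => by linarith [s1 t ht, arccos_lt_pi_div_two.1 h],
        (arccos_le_pi _).trans (by linarith)⟩, good_l1 j _⟩, h₁.edge' (by fun_prop) fun t ht =>
      ⟨⟨arccos_nonneg _, arccos_le_pi_div_two.2 (by
        rw [add_comm, sin_add_pi]; linarith [s1 t ht])⟩, good_l1 j _⟩]
    simp [l1, ← two_mul, ← sub_eq_add_neg, arccos]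
    abel
  have v0 : ∀ t, Good (5 * π / 4, t) := fun t =>
    ⟨fun _ c => (not_le.2 c (n2 _ (by linarith) (by linarith))).elim,
      fun _ c => (not_le.2 c (n1 _ (by linarith) (by linarith))).elim⟩
  have q : 5 * π / 4 = -(3 * π / 4) + 2 * π := by ring
  have v1 : ∀ t, Good (-(3 * π / 4), t) := fun t => by simpa [Good, q] using v0 t
  have vert : ∀ (a b : ℝ) (ψ : ℝ × ℝ → A), a ≤ b → IsPot (ω ∘ₗ push GT) {t | t.2 ∈ Icc a b ∧ Good t} ψ →
      ψ (5 * π / 4, b) - ψ (5 * π / 4, a) = ψ (-(3 * π / 4), b) - ψ (-(3 * π / 4), a) :=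
    fun a b ψ hab h => by
    have e1 := h.edge' (γ := fun t => (5 * π / 4, (1 - t) * a + t * b)) (by fun_prop)
      fun t ht => ⟨seg a b hab t ht, v0 _⟩
    have e2 := h.edge' (γ := fun t => (-(3 * π / 4), (1 - t) * a + t * b)) (by fun_prop)
      fun t ht => ⟨seg a b hab t ht, v1 _⟩
    rw [q] at e1 ⊢
    simp only [per1, e2] at e1
    simpa using e1.symm
  have w1 := vert _ _ _ (by linarith) h₁
  have w2 := vert _ _ _ (by linarith) h₂
  simp only [hole0, hole1, Finset.sum_neg_distrib, rowA, rowB]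
  simp only [zero_add, show π / 2 - -(3 * π / 4) = 5 * π / 4 by ring, show π / 2 - 5 * π / 4 = -(3 * π / 4) by ring]
  linear_combination (norm := abel) -w1 - w2

theorem twelve {m : A} (hm : ∀ y, ω (MM.B.loop R y) = m) : 12 • m = 0 := by
  have key : ∀ j, ω (edge R fun s => GT (l1 j (2 * π * s))) =
      ω (edge R fun s => GT (l0 j (2 * π * s))) + 2 • m := fun j => by
    have e0 := MM.B.twist hω hm (β := fun s => GT (l0 j (2 * π * s)))
      (GT_cont.comp (by fun_prop) fun s _ => good_l0 j _) (by simp [l0])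
      (θ := fun s => Complex.arg (ka j) + 2 * π * s) (by fun_prop) (by simp)
    have e1 := MM.B.twist hω hm (β := fun s => GH j (2 * π * s - Complex.arg (ka j), 3))
      ((GH_cont j).comp (by fun_prop) fun s _ => by norm_num [abs_lt])
      (by simp only [GH, pTu]; rw [← ex_per]; congr 4; ring)
      (θ := fun s => 2 * π * s - Complex.arg (ka j)) (by fun_prop) (by ring)
    have e2 := loop_htpy hω (Γ := fun q => GH j (2 * π * q.1 - q.2 * Complex.arg (ka j), -3 + 6 * q.2))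
      ((GH_cont j).comp (by fun_prop) fun q hq => (abs_lt (a := -3 + 6 * q.2)).2
        ⟨by linarith [hq.2.1], by linarith [hq.2.2]⟩) (mapsTo_univ _ _)
      fun u _ => by simp only [GH, pTu]; rw [← ex_per]; congr 4; ring
    simp only [end0] at e0
    simp only [end1] at e1
    simp only [zero_mul, sub_zero, mul_zero, add_zero, one_mul, mul_one,
      show (-3 : ℝ) + 6 = 3 by norm_num] at e2
    rw [e1, ← e2, e0, two_nsmul, add_assoc]
  have := torus_rel hω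
  simp only [key, Finset.sum_add_distrib, add_eq_left, Finset.sum_const, Finset.card_univ,
    Fintype.card_fin, ← mul_nsmul] at this
  exact this

end Pool.Agent.P.MP_c88051_gt
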