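import Pool.Agent.P.MP_c88051_gt.Chart

/-! The unit normal circle bundle of an oriented immersed surface in Euclidean four-space. -/

open Set Topology Filter Real
open scoped ContDiff RealInnerProductSpace

namespace Pool.Agent.P.MP_c88051_gt

abbrev E4 := EuclideanSpace ℝ (Fin 4)

/-- `J` kills a plane and rotates the orthogonal plane by a right angle. -/
structure IsJ (J : E4 →L[ℝ] E4) : Prop where
  skew : ∀ a b, ⟪J a, b⟫ = -⟪a, J b⟫
  cube : ∀ a, J (J (J a)) = -J a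
  rk : ∀ n ν, J (J n) = -n → ‖n‖ = 1 → J (J ν) = -ν → ν = ⟪ν, n⟫ • n + ⟪ν, J n⟫ • J n
  nz : ∃ a, J a ≠ 0

namespace IsJ
variable {J : E4 →L[ℝ] E4} (h : IsJ J)
include h

lemma inner_self (a : E4) : ⟪a, J a⟫ = 0 := by
  have := h.skew a a
  rw [real_inner_comm] at this
  linarith

lemma norm_JJ (a : E4) : ‖J (J a)‖ = ‖J a‖ := by
  have := h.skew (J a) (J (J a))
  rw [h.cube, inner_neg_right, neg_neg, real_inner_self_eq_norm_sq,
    real_inner_self_eq_norm_sq] at this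
  exact (sq_eq_sq₀ (norm_nonneg _) (norm_nonneg _)).1 this

lemma norm_le (a : E4) : ‖J a‖ ≤ ‖a‖ := by
  have h1 := h.skew a (J a)
  rw [real_inner_self_eq_norm_sq] at h1
  have h2 := abs_real_inner_le_norm a (J (J a))
  rw [h.norm_JJ] at h2
  by_contra h3
  nlinarith [neg_abs_le ⟪a, J (J a)⟫, norm_nonneg a]

lemma norm_J {ν : E4} (h2 : J (J ν) = -ν) : ‖J ν‖ = ‖ν‖ := by
  rw [← h.norm_JJ, h2, norm_neg]

lemma norm_rot {ν : E4} (h2 : J (J ν) = -ν) (a b : ℝ) :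
    ‖a • ν + b • J ν‖ ^ 2 = (a ^ 2 + b ^ 2) * ‖ν‖ ^ 2 := by
  rw [norm_add_sq_real, inner_smul_left, inner_smul_right, h.inner_self, norm_smul, norm_smul,
    h.norm_J h2]
  simp [mul_pow]; ring

end IsJ

/-- The unit vector in the direction of `J a`. -/
noncomputable def nrm (J : E4 →L[ℝ] E4) (a : E4) : E4 := ‖J a‖⁻¹ • J a

/-- The angular coordinate of `ν` with respect to `J a`. -/
noncomputable def th (J : E4 →L[ℝ] E4) (a ν : E4) : ℂ := ⟨⟪ν, J a⟫, ⟪ν, J (J a)⟫⟩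

/-- Rotation in the normal plane. -/
noncomputable def rt (J : E4 →L[ℝ] E4) (θ : ℝ) (ν : E4) : E4 := cos θ • ν + sin θ • J ν

lemma norm_nrm {J : E4 →L[ℝ] E4} {a : E4} (h : J a ≠ 0) : ‖nrm J a‖ = 1 := by
  rw [nrm, norm_smul, norm_inv, norm_norm, inv_mul_cancel₀ (norm_ne_zero_iff.2 h)]

namespace IsJ
variable {J : E4 →L[ℝ] E4} (h : IsJ J)
include h

lemma JJ_nrm (a : E4) : J (J (nrm J a)) = -nrm J a := by
  simp only [nrm, map_smul, h.cube, smul_neg]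

omit h in
lemma JJ_rt {ν : E4} (h2 : J (J ν) = -ν) (θ : ℝ) : J (J (rt J θ ν)) = -rt J θ ν := by
  simp only [rt, map_add, map_smul, h2, map_neg]; module

lemma norm_rt {ν : E4} (h1 : ‖ν‖ = 1) (h2 : J (J ν) = -ν) (θ : ℝ) : ‖rt J θ ν‖ = 1 := by
  have := h.norm_rot h2 (cos θ) (sin θ)
  rw [h1, cos_sq_add_sin_sq, one_mul] at this
  exact (sq_eq_sq₀ (norm_nonneg _) zero_le_one).1 this

lemma th_rt (a ν : E4) (θ : ℝ) :
    th J a (rt J θ ν) = Complex.exp (θ * Complex.I) * th J a ν := by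
  apply Complex.ext <;>
  simp only [th, rt, inner_add_left, real_inner_smul_left, h.skew, h.cube, inner_neg_right,
    Complex.mul_re, Complex.mul_im, Complex.exp_ofReal_mul_I_re, Complex.exp_ofReal_mul_I_im] <;>
  ring

lemma th_nrm (a : E4) : th J a (nrm J a) = ‖J a‖ := by
  apply Complex.ext
  · simp only [th, nrm, real_inner_smul_left, real_inner_self_eq_norm_sq, Complex.ofReal_re]
    rcases eq_or_ne ‖J a‖ 0 with h0 | h0
    · simp [h0]
    · field_simp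
  · simp [th, nrm, real_inner_smul_left, h.inner_self]

lemma th_spec {a ν : E4} (ha : J a ≠ 0) (h1 : ‖ν‖ = 1) (h2 : J (J ν) = -ν) :
    th J a ν ≠ 0 ∧ rt J (Complex.arg (th J a ν)) (nrm J a) = ν := by
  have e := h.rk _ ν (h.JJ_nrm a) (norm_nrm ha) h2
  have hn := h.norm_rot (h.JJ_nrm a) ⟪ν, nrm J a⟫ ⟪ν, J (nrm J a)⟫
  rw [← e, h1, norm_nrm ha] at hn
  have hp := norm_pos_iff.2 ha
  have e1 : (th J a ν).re = ‖J a‖ * ⟪ν, nrm J a⟫ := by
    simp only [th, nrm, real_inner_smul_right]; field_simp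
  have e2 : (th J a ν).im = ‖J a‖ * ⟪ν, J (nrm J a)⟫ := by
    simp only [th, nrm, map_smul, real_inner_smul_right]; field_simp
  have e3 : ‖th J a ν‖ = ‖J a‖ := by
    rw [← sq_eq_sq₀ (norm_nonneg _) (norm_nonneg _), Complex.sq_norm, Complex.normSq_apply, e1, e2]
    linear_combination (-‖J a‖ ^ 2) * hn
  have e4 : th J a ν ≠ 0 := by rw [← norm_pos_iff, e3]; exact hp
  refine ⟨e4, ?_⟩
  rw [rt, Complex.cos_arg e4, Complex.sin_arg, e1, e2, e3, mul_div_cancel_left₀ _ hp.ne',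
    mul_div_cancel_left₀ _ hp.ne', ← e]

end IsJ

@[fun_prop] lemma th_cont {X : Type} [TopologicalSpace X] {J : X → E4 →L[ℝ] E4} {a ν : X → E4}
    {s : Set X} (hJ : ContinuousOn J s) (ha : ContinuousOn a s) (hν : ContinuousOn ν s) :
    ContinuousOn (fun x => th (J x) (a x) (ν x)) s := by
  have : ∀ x, th (J x) (a x) (ν x) =
      (⟪ν x, J x (a x)⟫ : ℝ) + (⟪ν x, J x (J x (a x))⟫ : ℝ) * Complex.I := fun x => by
    apply Complex.ext <;> simp [th]
  simp only [this]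
  exact (Complex.continuous_ofReal.comp_continuousOn (hν.inner (𝕜 := ℝ) (hJ.clm_apply ha))).add
    ((Complex.continuous_ofReal.comp_continuousOn
      (hν.inner (𝕜 := ℝ) (hJ.clm_apply (hJ.clm_apply ha)))).mul continuousOn_const)

/-- A compact oriented surface immersed in four-space with the two-piece property. -/
structure Surf (E : Type) [NormedAddCommGroup E] [NormedSpace ℝ E] where
  S : Set E
  ι : Type
  C : ι → Chart (ℝ × ℝ) S
  f : E →L[ℝ] E4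
  J : E →L[ℝ] E4 →L[ℝ] E4
  cpt : IsCompact S
  ne : S.Nonempty
  cov : ∀ x ∈ S, ∃ i, x ∈ (C i).O
  isJ : ∀ x ∈ S, IsJ (J x)
  inj : ∀ i, ∀ u ∈ (C i).W, Function.Injective fun w => f (fderiv ℝ (C i).ψ u w)
  tan : ∀ i, ∀ u ∈ (C i).W, ∀ a, J ((C i).ψ u) a = 0 ↔ ∃ w, f (fderiv ℝ (C i).ψ u w) = a
  tpp : ∀ v c, IsPreconnected {x : S | c ≤ ⟪v, f x⟫}

namespace Surf

variable {E : Type} [NormedAddCommGroup E] [NormedSpace ℝ E] (M : Surf E)

/-- The unit normal bundle. -/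
def T : Set (E × E4) := {q | q.1 ∈ M.S ∧ ‖q.2‖ = 1 ∧ M.J q.1 (M.J q.1 q.2) = -q.2}

lemma T_cpt : IsCompact M.T := by
  refine (M.cpt.prod (isCompact_sphere (0 : E4) 1)).of_isClosed_subset ?_
    fun q hq => ⟨hq.1, by simpa using hq.2.1⟩
  exact (M.cpt.isClosed.preimage continuous_fst).inter ((isClosed_eq (by fun_prop)
    continuous_const).inter (isClosed_eq (by fun_prop) (by fun_prop)))

lemma nrm_mem {x : E} (hx : x ∈ M.S) {a : E4} (ha : M.J x a ≠ 0) : (x, nrm (M.J x) a) ∈ M.T :=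
  ⟨hx, norm_nrm ha, (M.isJ x hx).JJ_nrm a⟩

instance : Nonempty M.S := M.ne.to_subtype

instance : Nonempty M.T := by
  obtain ⟨x, hx⟩ := M.ne
  obtain ⟨a, ha⟩ := (M.isJ x hx).nz
  exact ⟨⟨_, M.nrm_mem hx ha⟩⟩

instance : CompactSpace M.S := isCompact_iff_compactSpace.1 M.cpt

instance : CompactSpace M.T := isCompact_iff_compactSpace.1 M.T_cpt

/-- The circle bundle structure. -/
noncomputable def B : CB M.T M.S where
  p y := ⟨y.1.1, y.2.1⟩
  rot θ y := ⟨(y.1.1, rt (M.J y.1.1) θ y.1.2), y.2.1, (M.isJ _ y.2.1).norm_rt y.2.2.1 y.2.2.2 θ,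
    IsJ.JJ_rt y.2.2.2 θ⟩
  cp := by fun_prop
  crot := Continuous.subtype_mk (by unfold rt; fun_prop) _
  p_rot _ _ := rfl
  rot_zero y := by ext1; simp [rt]
  rot_add a b y := by
    ext1; ext1
    · rfl
    · simp only [rt, map_add, map_smul, y.2.2.2, cos_add, sin_add]; module
  rot_per y := by ext1; simp [rt]

open Classical in
/-- The section defined by a vector field that is nowhere tangent. -/
noncomputable def sec (a : M.S → E4) (x : M.S) : M.T :=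
  if h : M.J x (a x) ≠ 0 then ⟨_, M.nrm_mem x.2 h⟩ else Classical.arbitrary _

lemma sec_val {a : M.S → E4} {x : M.S} (h : M.J x (a x) ≠ 0) :
    (M.sec a x).1 = (x.1, nrm (M.J x) (a x)) := by rw [sec, dif_pos h]

lemma sec_cont {a : M.S → E4} {N : Set M.S} (ca : ContinuousOn a N)
    (h : ∀ x ∈ N, M.J x (a x) ≠ 0) : ContinuousOn (M.sec a) N := by
  rw [Topology.IsInducing.subtypeVal.continuousOn_iff]
  refine ContinuousOn.congr (f := fun x : M.S => (x.1, nrm (M.J x) (a x))) ?_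
    fun x hx => M.sec_val (h x hx)
  have h1 : ContinuousOn (fun x : M.S => M.J x (a x)) N := ContinuousOn.clm_apply (by fun_prop) ca
  exact continuous_subtype_val.continuousOn.prodMk
    ((h1.norm.inv₀ fun x hx => norm_ne_zero_iff.2 (h x hx)).smul h1)

/-- The angular coordinate defined by a vector field. -/
noncomputable def Th (a : M.S → E4) (y : M.T) : ℂ := th (M.J y.1.1) (a (M.B.p y)) y.1.2

lemma ang {a : M.S → E4} {N : Set M.S} (ca : ContinuousOn a N)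
    (h : ∀ x ∈ N, M.J x (a x) ≠ 0) : M.B.Ang N (M.Th a) where
  cont := th_cont (by fun_prop) (ca.comp M.B.cp.continuousOn fun _ h => h) (by fun_prop)
  ne y hy := ((M.isJ _ y.2.1).th_spec (h _ hy) y.2.2.1 y.2.2.2).1
  rot θ y := (M.isJ _ y.2.1).th_rt _ _ θ

/-- The trivialisation defined by a vector field that is nowhere tangent. -/
noncomputable def frame {a : M.S → E4} {N : Set M.S} (ca : ContinuousOn a N)
    (h : ∀ x ∈ N, M.J x (a x) ≠ 0) : M.B.Frame N where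
  s := M.sec a
  Θ := M.Th a
  ang := M.ang ca h
  cs := M.sec_cont ca h
  ps x hx := Subtype.ext (congrArg Prod.fst (M.sec_val (h x hx)))
  eq y hy := by
    have h1 := M.sec_val (h _ hy)
    have h2 := congrArg Prod.fst h1
    refine Subtype.ext (Prod.ext h2 ?_)
    show rt (M.J (M.sec a (M.B.p y)).1.1) _ (M.sec a (M.B.p y)).1.2 = _
    rw [h1]
    exact ((M.isJ _ y.2.1).th_spec (h _ hy) y.2.2.1 y.2.2.2).2

lemma exists_frame (x : M.S) : ∃ N ∈ 𝓝 x, Nonempty (M.B.Frame N) := by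
  obtain ⟨a, ha⟩ := (M.isJ x x.2).nz
  exact ⟨{x | M.J x a ≠ 0}, (isOpen_ne_fun (by fun_prop) continuous_const).mem_nhds ha,
    ⟨M.frame (a := fun _ => a) continuousOn_const fun _ h => h⟩⟩

lemma th_smooth (a : E4) : ContDiff ℝ ∞ fun q : E × E4 => th (M.J q.1) a q.2 := by
  have : ∀ q : E × E4, th (M.J q.1) a q.2 =
      (⟪q.2, M.J q.1 a⟫ : ℝ) + (⟪q.2, M.J q.1 (M.J q.1 a)⟫ : ℝ) * Complex.I := fun x => by
    apply Complex.ext <;> simp [th]
  simp only [this]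
  have h1 : ContDiff ℝ ∞ fun q : E × E4 => M.J q.1 := by fun_prop
  exact (Complex.ofRealCLM.contDiff.comp (contDiff_snd.inner ℝ (h1.clm_apply contDiff_const))).add
    ((Complex.ofRealCLM.contDiff.comp (contDiff_snd.inner ℝ
      (h1.clm_apply (h1.clm_apply contDiff_const)))).mul contDiff_const)

end Surf

lemma contDiffAt_arg {z : ℂ} (h : z ∈ Complex.slitPlane) : ContDiffAt ℝ ∞ Complex.arg z := by
  have : Complex.arg = fun z => (Complex.log z).im := funext fun z => (Complex.log_im z).symm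
  rw [this]
  exact Complex.imCLM.contDiff.contDiffAt.comp z ((Complex.contDiffAt_log h).restrict_scalars ℝ)

namespace Surf

variable {E : Type} [NormedAddCommGroup E] [NormedSpace ℝ E] (M : Surf E)

lemma nrm_smooth (i : M.ι) (a : E4) {u : ℝ × ℝ} (hu : u ∈ (M.C i).W)
    (ha : M.J ((M.C i).ψ u) a ≠ 0) : ContDiffAt ℝ ∞ (fun u => nrm (M.J ((M.C i).ψ u)) a) u := by
  have h1 : ContDiffAt ℝ ∞ (fun u => M.J ((M.C i).ψ u) a) u :=
    (M.J.contDiff.contDiffAt.comp u ((M.C i).sψ.contDiffAt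
      ((M.C i).oW.mem_nhds hu))).clm_apply contDiffAt_const
  exact ((h1.norm ℝ ha).inv (norm_ne_zero_iff.2 ha)).smul h1

/-- Charts of the unit normal bundle. -/
noncomputable def CT (i : M.ι × E4) : Chart ((ℝ × ℝ) × ℝ) M.T where
  W := {q | q.1 ∈ (M.C i.1).W ∧ M.J ((M.C i.1).ψ q.1) i.2 ≠ 0 ∧ q.2 ∈ Ioo (-π) π}
  O := {q | q.1 ∈ (M.C i.1).O ∧ M.J q.1 i.2 ≠ 0 ∧ th (M.J q.1) i.2 q.2 ∈ Complex.slitPlane}
  ψ q := ((M.C i.1).ψ q.1, rt (M.J ((M.C i.1).ψ q.1)) q.2 (nrm (M.J ((M.C i.1).ψ q.1)) i.2))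
  ρ q := ((M.C i.1).ρ q.1, Complex.arg (th (M.J q.1) i.2 q.2))
  oW := by
    have h1 : IsOpen ((M.C i.1).W ∩ (fun u => M.J ((M.C i.1).ψ u) i.2) ⁻¹' {0}ᶜ) :=
      ((M.J.continuous.comp_continuousOn (M.C i.1).sψ.continuousOn).clm_apply
        continuousOn_const).isOpen_inter_preimage (M.C i.1).oW isOpen_compl_singleton
    have h2 := h1.prod (isOpen_Ioo (a := -π) (b := π))
    rwa [show ((M.C i.1).W ∩ (fun u => M.J ((M.C i.1).ψ u) i.2) ⁻¹' {0}ᶜ) ×ˢ Ioo (-π) π =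
      {q | q.1 ∈ (M.C i.1).W ∧ M.J ((M.C i.1).ψ q.1) i.2 ≠ 0 ∧ q.2 ∈ Ioo (-π) π} from
      Set.ext fun q => and_assoc] at h2
  oO := ((M.C i.1).oO.preimage continuous_fst).inter
    ((isOpen_ne_fun (by fun_prop) continuous_const).inter
      (Complex.isOpen_slitPlane.preimage (M.th_smooth i.2).continuous))
  sψ q hq := by
    have h0 : ContDiffAt ℝ ∞ (fun q : (ℝ × ℝ) × ℝ => (M.C i.1).ψ q.1) q :=
      ((M.C i.1).sψ.contDiffAt ((M.C i.1).oW.mem_nhds hq.1)).comp q contDiffAt_fst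
    have h1 := (M.nrm_smooth i.1 i.2 hq.1 hq.2.1).comp q contDiffAt_fst
    exact (h0.prodMk ((contDiffAt_snd.cos.smul h1).add (contDiffAt_snd.sin.smul
      ((M.J.contDiff.contDiffAt.comp q h0).clm_apply h1)))).contDiffWithinAt
  sρ q hq := ((((M.C i.1).sρ.contDiffAt ((M.C i.1).oO.mem_nhds hq.1)).comp q contDiffAt_fst).prodMk
    (ContDiffAt.comp (g := Complex.arg) q (contDiffAt_arg hq.2.2)
      (M.th_smooth i.2).contDiffAt)).contDiffWithinAt
  mem q hq := by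
    obtain ⟨h1, h2, h3⟩ := (M.C i.1).mem _ hq.1
    have hJ := M.isJ _ h1
    have h4 : Complex.arg (th (M.J ((M.C i.1).ψ q.1)) i.2
        (rt (M.J ((M.C i.1).ψ q.1)) q.2 (nrm (M.J ((M.C i.1).ψ q.1)) i.2))) = q.2 := by
      rw [hJ.th_rt, hJ.th_nrm, mul_comm, Complex.arg_real_mul _ (norm_pos_iff.2 hq.2.1),
        Complex.arg_exp_mul_I, toIocMod_eq_self]
      exact ⟨hq.2.2.1, by linarith [hq.2.2.2]⟩
    refine ⟨⟨h1, hJ.norm_rt (norm_nrm hq.2.1) (hJ.JJ_nrm _) _, IsJ.JJ_rt (hJ.JJ_nrm _) _⟩,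
      ⟨h2, hq.2.1, Complex.mem_slitPlane_iff_arg.2 ⟨by rw [h4]; exact hq.2.2.2.ne, ?_⟩⟩,
      Prod.ext h3 h4⟩
    exact (hJ.th_spec hq.2.1 (hJ.norm_rt (norm_nrm hq.2.1) (hJ.JJ_nrm _) _)
      (IsJ.JJ_rt (hJ.JJ_nrm _) _)).1
  inv q hq hO := by
    obtain ⟨h1, h2⟩ := (M.C i.1).inv _ hq.1 hO.1
    refine ⟨⟨h1, by rw [h2]; exact hO.2.1, (Complex.arg_mem_Ioc _).1,
      lt_of_le_of_ne (Complex.arg_mem_Ioc _).2 (Complex.slitPlane_arg_ne_pi hO.2.2)⟩,
      Prod.ext h2 ?_⟩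
    simp only [h2]
    exact ((M.isJ _ hq.1).th_spec hO.2.1 hq.2.1 hq.2.2).2

lemma CT_cov : ∀ q ∈ M.T, ∃ i, q ∈ (M.CT i).O := by
  intro q hq
  obtain ⟨i, hi⟩ := M.cov _ hq.1
  have h1 : M.J q.1 (-M.J q.1 q.2) = q.2 := by rw [map_neg, hq.2.2, neg_neg]
  refine ⟨(i, -M.J q.1 q.2), hi, ?_, Or.inl ?_⟩
  · rw [h1, ← norm_ne_zero_iff, hq.2.1]; exact one_ne_zero
  · simp [th, h1, hq.2.1]

lemma exists_K : ∃ K > 0, ∀ i, ∀ u ∈ (M.C i).W, ∀ w,
    ‖M.J (fderiv ℝ (M.C i).ψ u w)‖ ≤ K * ‖M.f (fderiv ℝ (M.C i).ψ u w)‖ := by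
  have : ∃ K > 0, ∀ i, ∀ u ∈ (M.C i).W, (M.C i).ψ u ∈ M.S → ∀ w,
      ‖M.J (fderiv ℝ (M.C i).ψ u w)‖ ≤ K * ‖M.f (fderiv ℝ (M.C i).ψ u w)‖ := by
    refine M.cpt.induction_on (p := fun s => ∃ K > 0, ∀ i, ∀ u ∈ (M.C i).W, (M.C i).ψ u ∈ s → ∀ w,
      ‖M.J (fderiv ℝ (M.C i).ψ u w)‖ ≤ K * ‖M.f (fderiv ℝ (M.C i).ψ u w)‖) ?_ ?_ ?_ ?_
    · exact ⟨1, one_pos, fun _ _ _ h => h.elim⟩
    · rintro s t hst ⟨K, h1, h2⟩
      exact ⟨K, h1, fun i u hu h => h2 i u hu (hst h)⟩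
    · rintro s t ⟨K, h1, h2⟩ ⟨K', h1', h2'⟩
      refine ⟨max K K', lt_max_of_lt_left h1, fun i u hu h w => ?_⟩
      rcases h with h | h
      · exact (h2 i u hu h w).trans (by gcongr; exact le_max_left _ _)
      · exact (h2' i u hu h w).trans (by gcongr; exact le_max_right _ _)
    · intro x hx
      obtain ⟨i, hi⟩ := M.cov x hx
      obtain ⟨h1, h2⟩ := (M.C i).inv x hx hi
      have cD : ContinuousAt (fderiv ℝ (M.C i).ψ) ((M.C i).ρ x) :=
        ((M.C i).sψ.continuousOn_fderiv_of_isOpen (M.C i).oW (by simp)).continuousAt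
          ((M.C i).oW.mem_nhds h1)
      obtain ⟨k, hk0, hk⟩ := LinearMap.exists_antilipschitzWith
        (M.f.comp (fderiv ℝ (M.C i).ψ ((M.C i).ρ x))).toLinearMap
        (LinearMap.ker_eq_bot.2 (M.inj i _ h1))
      have hk' : (0 : ℝ) < k := hk0
      set D := fderiv ℝ (M.C i).ψ with hD
      have e1 : ∀ᶠ u in 𝓝 ((M.C i).ρ x), ‖M.f.comp (D u) - M.f.comp (D ((M.C i).ρ x))‖ <
          (2 * (k : ℝ))⁻¹ := by
        have : ContinuousAt (fun u => ‖M.f.comp (D u) - M.f.comp (D ((M.C i).ρ x))‖)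
            ((M.C i).ρ x) := by fun_prop
        exact this.eventually (gt_mem_nhds (by simpa using hk0))
      have e2 : ∀ᶠ u in 𝓝 ((M.C i).ρ x), ‖M.J.comp (D u)‖ < ‖M.J.comp (D ((M.C i).ρ x))‖ + 1 := by
        have : ContinuousAt (fun u => ‖M.J.comp (D u)‖) ((M.C i).ρ x) :=
          (continuousAt_const.clm_comp cD).norm
        exact this.eventually (gt_mem_nhds (by simp))
      have cρ := (M.C i).sρ.continuousOn.continuousAt ((M.C i).oO.mem_nhds hi)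
      refine ⟨_, mem_nhdsWithin_of_mem_nhds (inter_mem ((M.C i).oO.mem_nhds hi)
        (cρ.eventually (e1.and e2))), (‖M.J.comp (D ((M.C i).ρ x))‖ + 1) * (2 * k), by positivity,
        fun j u hu h w => ?_⟩
      obtain ⟨w', hw'⟩ := (M.C j).exists_tangent (M.C i) hu h.1 w
      rw [hw', ← hD]
      obtain ⟨h3, h4⟩ := h.2
      generalize (M.C i).ρ ((M.C j).ψ u) = u' at h3 h4
      have h5 := hk.le_mul_norm (map_zero _) w'
      have h6 := (M.f.comp (D u') - M.f.comp (D ((M.C i).ρ x))).le_of_opNorm_le h3.le w'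
      have h7 := (M.J.comp (D u')).le_of_opNorm_le h4.le w'
      have h8 := norm_sub_norm_le (M.f (D ((M.C i).ρ x) w')) (M.f (D u' w'))
      rw [norm_sub_rev] at h8
      simp only [ContinuousLinearMap.coe_coe, ContinuousLinearMap.comp_apply,
        _root_.sub_apply] at h5 h6 h7
      have h9 : k * ((2 * (k : ℝ))⁻¹ * ‖w'‖) = ‖w'‖ / 2 := by field_simp
      have h10 : ‖w'‖ ≤ 2 * k * ‖M.f (D u' w')‖ := by nlinarith
      rw [mul_assoc]
      exact h7.trans (by gcongr)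
  obtain ⟨K, h1, h2⟩ := this
  exact ⟨K, h1, fun i u hu => h2 i u hu ((M.C i).mem u hu).1⟩

end Surf

end Pool.Agent.P.MP_c88051_gt
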